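import Pool.Agent.U125.UT.Tw
import Pool.Agent.Y743.AF.Core

/-!
# Uniform translates: the numbers of ordinates in short windows before and after a translation
-/

set_option autoImplicit false

namespace Pool.Agent.U125.UT

open Complex Filter Topology MeasureTheory Set
open Pool.Agent.TH850.UV
open SG (NZ)
open Pool.Agent.Y743.CL (G pr pr_apply Pr mem_Pr rc rc_sq kap_bd VS XK rc_bd mom_bd SS SS_le G_cont
  VS_nonneg comb er er_meas)
open Pool.Agent.Y743.AF

/-- the uniform estimate for the twisted sums over the primes -/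
def S_TWU : Prop := ∀ M B ε : ℝ, 0 < ε → ∃ K h0 : ℝ, 0 < K ∧ 0 < h0 ∧ ∀ h : ℝ, 0 < h → h < h0 →
  ∀ X : ℕ, h * Real.log X ≤ M → ∀ c : ℝ, K * h ≤ |c| → |c| ≤ Real.exp (B / h) →
    |∑ p ∈ Prm X, Real.sin (h / 2 * Real.log p) ^ 2 / p * Real.cos (c * Real.log p)| ≤ ε

lemma cross_u (tw : S_TWU) {ℓ κ : ℝ} (hℓ : 16 ≤ ℓ) (hκ : 0 < κ) (hκℓ : κ * ℓ ≤ 1 / 1000)
    (a : ℝ) (ha : 0 < a) : ∃ K : ℝ, 0 < K ∧ ∀ᶠ T : ℝ in atTop, ∀ c : ℝ, K / Real.log T ≤ |c| →
      |c| ≤ T →
    |∑ p ∈ Prm (XK κ T), rc (Real.log T / ℓ) (2 * Real.pi * a / Real.log T) p *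
      rc (Real.log T / ℓ) (2 * Real.pi * a / Real.log T) p * Real.cos (c * Real.log p)| ≤
    VS (rc (Real.log T / ℓ) (2 * Real.pi * a / Real.log T)) (XK κ T) / 8 + 1 := by
  have hpi := Real.pi_gt_three
  obtain ⟨K, h0, hK, hh0, htw⟩ := tw (2 * Real.pi * a * κ) (2 * Real.pi * a) (1 / 4) (by norm_num)
  refine ⟨K * (2 * Real.pi * a), by positivity, ?_⟩
  have hℓ0 : 0 < ℓ := by linarith
  have hth : Tendsto (fun T : ℝ => 2 * Real.pi * a / Real.log T) atTop (𝓝 0) :=
    Real.tendsto_log_atTop.const_div_atTop _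
  filter_upwards [Real.tendsto_log_atTop.eventually_ge_atTop (1000 * ℓ),
    hth.eventually (gt_mem_nhds hh0), hth.eventually (gt_mem_nhds (show (0 : ℝ) < 1 / 2000 by norm_num)),
    eventually_ge_atTop (1 : ℝ)] with T hT1 hT2 hT3 hT4 c hc1 hc2
  have hT0 : 0 < T := by linarith
  set L := Real.log T with hL
  have hL0 : 0 < L := by nlinarith
  set l := L / ℓ with hl
  have hl1 : 1000 ≤ l := by rw [hl, le_div_iff₀ hℓ0]; exact hT1
  have hl0 : 0 < l := by linarith
  set h := 2 * Real.pi * a / L with hh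
  have hh1 : 0 < h := by positivity
  have hXlog : ∀ p : ℕ, 1 ≤ p → p ≤ XK κ T → Real.log p ≤ κ * L := by
    intro p hp1 hp
    have h1 : (p : ℝ) ≤ T ^ κ := by
      have h2 : (XK κ T : ℝ) ≤ T ^ κ := Nat.floor_le (by positivity)
      have h3 : (p : ℝ) ≤ XK κ T := by exact_mod_cast hp
      linarith
    have h2 := Real.log_le_log (by exact_mod_cast hp1) h1
    rwa [Real.log_rpow hT0] at h2
  have hdev := dev_sum (h := h) hl1 (XK κ T) (fun p hp => by
    have hp' := mem_Prm.1 hp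
    refine (hXlog p hp'.1.one_le hp'.2).trans ?_
    rw [hl]
    have : κ * L = (κ * ℓ) * (L / ℓ) := by field_simp
    rw [this]
    have := mul_le_mul_of_nonneg_right hκℓ (show 0 ≤ L / ℓ by positivity)
    linarith)
  have htw1 := htw h hh1 hT2 (XK κ T) (by
    rcases Nat.eq_zero_or_pos (XK κ T) with h1 | h1
    · rw [h1]; simp; positivity
    · have h2 := hXlog _ h1 le_rfl
      calc h * Real.log (XK κ T : ℝ) ≤ h * (κ * L) := mul_le_mul_of_nonneg_left h2 hh1.le
        _ = 2 * Real.pi * a * κ := by rw [hh]; field_simp) c (by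
    refine le_trans (le_of_eq ?_) hc1
    rw [hh]; ring) (by
    have : 2 * Real.pi * a / h = L := by rw [hh]; field_simp
    rw [this, hL, Real.exp_log hT0]
    exact hc2)
  have e1 : ∑ p ∈ Prm (XK κ T), rc l h p * rc l h p * Real.cos (c * Real.log p) =
      ∑ p ∈ Prm (XK κ T), Wp h p * Real.cos (c * Real.log p) -
      ∑ p ∈ Prm (XK κ T), (Wp h p - rc l h p ^ 2) * Real.cos (c * Real.log p) := by
    rw [← Finset.sum_sub_distrib]
    refine Finset.sum_congr rfl fun p _ => ?_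
    ring
  have h2 : |∑ p ∈ Prm (XK κ T), Wp h p * Real.cos (c * Real.log p)| ≤ 1 / 4 := by
    have e2 : ∑ p ∈ Prm (XK κ T), Wp h p * Real.cos (c * Real.log p) = 4 / Real.pi ^ 2 *
        ∑ p ∈ Prm (XK κ T), Real.sin (h / 2 * Real.log p) ^ 2 / p * Real.cos (c * Real.log p) := by
      rw [Finset.mul_sum]
      refine Finset.sum_congr rfl fun p _ => ?_
      unfold Wp
      ring
    have h3 : 4 / Real.pi ^ 2 ≤ 1 := by
      rw [div_le_one (by positivity)]; nlinarith
    rw [e2, abs_mul, abs_of_nonneg (show 0 ≤ 4 / Real.pi ^ 2 by positivity)]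
    calc 4 / Real.pi ^ 2 * |∑ p ∈ Prm (XK κ T), Real.sin (h / 2 * Real.log p) ^ 2 / p *
          Real.cos (c * Real.log p)| ≤ 1 * (1 / 4) :=
          mul_le_mul h3 htw1 (abs_nonneg _) (by norm_num)
      _ = 1 / 4 := one_mul _
  have h3 : |∑ p ∈ Prm (XK κ T), (Wp h p - rc l h p ^ 2) * Real.cos (c * Real.log p)| ≤
      ∑ p ∈ Prm (XK κ T), (Wp h p - rc l h p ^ 2) := by
    refine (Finset.abs_sum_le_sum_abs _ _).trans (Finset.sum_le_sum fun p hp => ?_)
    have h4 : 0 ≤ Wp h p - rc l h p ^ 2 := by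
      have := rc_prime_le hl0 h p (mem_Prm.1 hp).1
      unfold Wp
      linarith
    rw [abs_mul, abs_of_nonneg h4]
    exact mul_le_of_le_one_right h4 (Real.abs_cos_le_one _)
  rw [e1]
  have h4 : h ^ 2 ≤ (1 / 2000) ^ 2 := pow_le_pow_left₀ hh1.le hT3.le 2
  have h5 := abs_sub (∑ p ∈ Prm (XK κ T), Wp h p * Real.cos (c * Real.log p))
    (∑ p ∈ Prm (XK κ T), (Wp h p - rc l h p ^ 2) * Real.cos (c * Real.log p))
  linarith

/-- the numbers of ordinates in the windows `(t, t + h]` and `(t - c, t - c + h]` differ in the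
mean, uniformly in `c` -/
theorem core_u (tw : S_TWU) (cr2 : S_CR2) : ∃ a K : ℝ, 1 ≤ a ∧ 0 < K ∧ ∀ᶠ T : ℝ in atTop,
    ∀ c : ℝ, K / Real.log T ≤ |c| → |c| ≤ T / 8 →
      T / 2 ≤ ∫ t in (5 / 4 * T)..(7 / 4 * T),
        |((NZ (t + 2 * Real.pi * a / Real.log T) : ℝ) - NZ t) -
          ((NZ ((t - c) + 2 * Real.pi * a / Real.log T) : ℝ) - NZ (t - c))| := by
  obtain ⟨ℓ, C, T0, hℓ, hC, hT0, hcomb⟩ := comb 1 le_rfl
  have hℓ0 : 0 < ℓ := by linarith
  have hpi := Real.pi_gt_three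
  have hpi4 := Real.pi_lt_d2
  set κ : ℝ := 1 / (1000 * ℓ) with hκ
  have hκ0 : 0 < κ := by positivity
  have hκ8 : κ ≤ 1 / 8 := by
    rw [hκ]
    exact one_div_le_one_div_of_le (by norm_num) (by linarith)
  have hκℓ : κ * ℓ ≤ 1 / 1000 := by
    rw [hκ]
    apply le_of_eq
    field_simp
  have hlogκ : 0 ≤ Real.log (1 / κ) := by
    apply Real.log_nonneg
    rw [le_div_iff₀ hκ0]
    linarith
  set D : ℝ := C * (1 + Real.log (1 / κ)) with hD
  have hD0 : 0 < D := by positivity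
  set r : ℝ := 30 * (D + 1) + 2 * ℓ with hr
  have hr30 : 30 * (D + 1) ≤ r := by rw [hr]; linarith
  have hr2 : 2 * ℓ ≤ r := by rw [hr]; linarith
  have hr1 : 4 ≤ r := by linarith
  have hr0 : 0 < r := by linarith
  have hrr : r ≤ r ^ 2 := by nlinarith
  have hrD : 900 * (D + 1) ≤ r ^ 2 := by nlinarith
  set a : ℝ := Real.exp (Real.pi ^ 2 / 2 * (r ^ 2 + D + 1)) with ha
  have hloga : 2 / Real.pi ^ 2 * Real.log a = r ^ 2 + D + 1 := by
    rw [ha, Real.log_exp]
    field_simp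
  have haℓ : 2 * ℓ ≤ a := by
    have h1 := Real.add_one_le_exp (Real.pi ^ 2 / 2 * (r ^ 2 + D + 1))
    rw [← ha] at h1
    have h2 : 1 * (r ^ 2 + D + 1) ≤ Real.pi ^ 2 / 2 * (r ^ 2 + D + 1) := by
      apply mul_le_mul_of_nonneg_right _ (by positivity)
      nlinarith
    linarith
  have ha32 : 32 ≤ a := by linarith
  have ha0 : 0 < a := by linarith
  obtain ⟨K, hK, hone⟩ := cross_u tw hℓ hκ0 hκℓ a ha0
  refine ⟨a, K, by linarith, hK, ?_⟩
  have hlo : ∀ K : ℝ, ∀ᶠ T : ℝ in atTop, Real.log T + K ≤ T / 16 := by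
    intro K
    have h1 : (fun T : ℝ => Real.log T + K) =o[atTop] fun T : ℝ => T :=
      Real.isLittleO_log_id_atTop.add (Asymptotics.isLittleO_const_id_atTop _)
    have h2 := h1.bound (c := 1 / 16) (by norm_num)
    filter_upwards [h2, eventually_ge_atTop 1] with T hT hT1
    rw [Real.norm_of_nonneg (by linarith : (0 : ℝ) ≤ T)] at hT
    have := (le_abs_self _).trans hT
    linarith
  have hp38 : ∀ᶠ T : ℝ in atTop, 96 * T ^ (3 / 8 : ℝ) ≤ T := by
    filter_upwards [(tendsto_rpow_atTop (show (0 : ℝ) < 5 / 8 by norm_num)).eventually_ge_atTop 96,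
      eventually_ge_atTop 1] with T hT hT1
    have h1 : T ^ (5 / 8 : ℝ) * T ^ (3 / 8 : ℝ) = T := by
      rw [← Real.rpow_add (by linarith)]
      norm_num
    have h2 := mul_le_mul_of_nonneg_right hT (show 0 ≤ T ^ (3 / 8 : ℝ) by positivity)
    linarith
  have hgl : ∀ᶠ T : ℝ in atTop, 48 * (Real.sqrt T * (1 + Real.log T)) ≤ T / 16 := by
    have h1 : (fun T : ℝ => 1 + Real.log T) =o[atTop] fun T : ℝ => T ^ (1 / 2 : ℝ) := by
      refine (Asymptotics.isLittleO_const_left.2 (Or.inr ?_)).add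
        (isLittleO_log_rpow_atTop (by norm_num))
      exact tendsto_norm_atTop_atTop.comp (tendsto_rpow_atTop (by norm_num))
    have h2 := h1.bound (c := 1 / 768) (by norm_num)
    filter_upwards [h2, eventually_ge_atTop 1] with T hT hT1
    rw [Real.norm_of_nonneg (by positivity : (0 : ℝ) ≤ T ^ (1 / 2 : ℝ)), ← Real.sqrt_eq_rpow] at hT
    have h3 := (le_abs_self _).trans hT
    have h4 := Real.mul_self_sqrt (show 0 ≤ T by linarith)
    have h5 := Real.sqrt_nonneg T
    nlinarith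
  filter_upwards [eventually_ge_atTop T0, eventually_ge_atTop (1 : ℝ), hone,
    Real.tendsto_log_atTop.eventually_ge_atTop (a * Real.log a),
    Real.tendsto_log_atTop.eventually_ge_atTop (8 / κ), hlo 7, hp38, hgl]
    with T hTT0 hT1' hTone hTa hTκ hT7 hT38 hTg c hc1 hc2
  have hTpos : 0 < T := by linarith
  have hL0 : 0 < Real.log T := lt_of_lt_of_le (by positivity) hTκ
  have hκT : 8 ≤ κ * Real.log T := by
    rw [div_le_iff₀ hκ0] at hTκ
    linarith
  have hTone' := hTone c hc1 (by linarith)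
  set L := Real.log T with hL
  set l := L / ℓ with hl
  have hlpos : 0 < l := by positivity
  set h := 2 * Real.pi * a / L with hh
  have hh0 : 0 < h := by positivity
  set X := XK κ T with hX
  set u := rc l h with hu
  -- the facts of `comb`
  obtain ⟨i1, m1, w1⟩ := hcomb T hTT0 a (by linarith) (by linarith) κ hκ0 hκ8 hκT
  rw [← hD] at m1 w1
  rw [← hL, ← hl, ← hh, ← hu, ← hX, hloga] at w1
  rw [← hL] at i1 m1
  have w1' := abs_le.1 w1
  -- the length
  have hXle : (X : ℝ) ≤ T ^ (1 / 8 : ℝ) := by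
    have h2 : (X : ℝ) ≤ T ^ κ := Nat.floor_le (by positivity)
    exact h2.trans (Real.rpow_le_rpow_of_exponent_le hT1' hκ8)
  have hX1 : 1 ≤ X := by
    apply Nat.le_floor
    rw [Nat.cast_one]
    exact Real.one_le_rpow hT1' hκ0.le
  have hX3 : 12 * (X : ℝ) ^ 3 ≤ T / 8 := by
    have h2 : (X : ℝ) ^ 3 ≤ (T ^ (1 / 8 : ℝ)) ^ 3 := pow_le_pow_left₀ (by positivity) hXle 3
    have h3 : (T ^ (1 / 8 : ℝ)) ^ 3 = T ^ (3 / 8 : ℝ) := by
      rw [← Real.rpow_natCast, ← Real.rpow_mul hTpos.le]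
      norm_num
    rw [h3] at h2
    linarith
  have hX4 : ((X ^ 4 : ℕ) : ℝ) ≤ Real.sqrt T := by
    push_cast
    have h2 : (X : ℝ) ^ 4 ≤ (T ^ (1 / 8 : ℝ)) ^ 4 := pow_le_pow_left₀ (by positivity) hXle 4
    have h3 : (T ^ (1 / 8 : ℝ)) ^ 4 = Real.sqrt T := by
      rw [← Real.rpow_natCast, ← Real.rpow_mul hTpos.le, Real.sqrt_eq_rpow]
      norm_num
    rw [h3] at h2
    exact h2
  have hub : ∀ n, |u n| ≤ 1 := fun n => by
    have := rc_bd hlpos h n
    exact abs_le_of_sq_le_sq (by rw [one_pow]; exact this) (by norm_num)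
  -- the correlation
  have hcr : |∫ t in (5 / 4 * T)..(7 / 4 * T), PP u X (t + h / 2) * PP u X ((t + (h / 2 - c)) / 1)| ≤
      T / 4 * (VS u X / 8 + 1) + T / 16 := by
    have hV0 := VS_nonneg u X
    have h2 := cr2 X u u hub hub (5 / 4 * T) (7 / 4 * T) (h / 2) (h / 2 - c) (by linarith)
    have h3 : (∫ t in (5 / 4 * T)..(7 / 4 * T), (∑ p ∈ Prm X, u p * Real.cos ((t + h / 2) *
        Real.log p)) * (∑ q ∈ Prm X, u q * Real.cos ((t + (h / 2 - c)) * Real.log q))) =
        ∫ t in (5 / 4 * T)..(7 / 4 * T), PP u X (t + h / 2) * PP u X ((t + (h / 2 - c)) / 1) := by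
      refine intervalIntegral.integral_congr fun t _ => ?_
      simp only [PP, div_one]
    rw [h3, show h / 2 - (h / 2 - c) = c by ring] at h2
    have h5 := abs_le.1 h2
    have h6 := abs_le.1 hTone'
    have h7 : (7 / 4 * T - 5 / 4 * T) / 2 * ∑ p ∈ Prm X, u p * u p * Real.cos (c * Real.log p) ≤
        T / 4 * (VS u X / 8 + 1) := by
      have : (7 / 4 * T - 5 / 4 * T) / 2 = T / 4 := by ring
      rw [this]
      exact mul_le_mul_of_nonneg_left h6.2 (by positivity)
    have h8 : -(T / 4 * (VS u X / 8 + 1)) ≤ (7 / 4 * T - 5 / 4 * T) / 2 *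
        ∑ p ∈ Prm X, u p * u p * Real.cos (c * Real.log p) := by
      have : (7 / 4 * T - 5 / 4 * T) / 2 = T / 4 := by ring
      rw [this, ← mul_neg]
      exact mul_le_mul_of_nonneg_left h6.1 (by positivity)
    rw [abs_le]
    constructor <;> linarith [h5.1, h5.2]
  have hdet := det cr2 (V1 := r ^ 2 + 2 * D + 2) hT1' hX1 hX3 hX4 hTg hub hub hr1 (by linarith)
    (by linarith [w1'.1]) (by linarith [w1'.2]) (by linarith [w1'.1])
    (by linarith [w1'.2]) (by norm_num) (by norm_num) hcr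
  -- the errors
  have hcabs := abs_nonneg c
  have hc1' := le_abs_self c
  have hc2' := neg_abs_le c
  have N1i : IntervalIntegrable (fun t => ((NZ (t + h) : ℝ) - NZ t)) volume (5 / 4 * T) (7 / 4 * T) := by
    have h1 := NZ_ii h 0 1 (5 / 4 * T) (7 / 4 * T) one_pos
    have h2 := NZ_ii 0 0 1 (5 / 4 * T) (7 / 4 * T) one_pos
    simp only [sub_zero, div_one, add_zero] at h1 h2
    exact h1.sub h2
  have N2i : IntervalIntegrable (fun t => ((NZ ((t - c) + h) : ℝ) - NZ (t - c)))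
      volume (5 / 4 * T) (7 / 4 * T) := by
    have h1 := NZ_ii h c 1 (5 / 4 * T) (7 / 4 * T) one_pos
    have h2 := NZ_ii 0 c 1 (5 / 4 * T) (7 / 4 * T) one_pos
    simp only [div_one, add_zero] at h1 h2
    exact h1.sub h2
  have hPu := PP_cont u X
  have eN1 : ∀ t, er ℓ κ T a t = ((NZ (t + h) : ℝ) - NZ t) - a + PP u X (t + h / 2) := by
    intro t
    have := er_eq ℓ κ T a t
    rw [← hL, ← hl, ← hh, ← hu, ← hX] at this
    linarith
  have E1i : ∀ A B : ℝ, IntervalIntegrable (fun t => |er ℓ κ T a t|) volume A B := by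
    intro A B
    have h1 := NZ_ii h 0 1 A B one_pos
    have h2 := NZ_ii 0 0 1 A B one_pos
    simp only [sub_zero, div_one, add_zero] at h1 h2
    have : (fun t => |er ℓ κ T a t|) = fun t => |((NZ (t + h) : ℝ) - NZ t) - a + PP u X (t + h / 2)| := by
      funext t; rw [eN1]
    rw [this]
    exact (((h1.sub h2).sub (continuous_const.intervalIntegrable _ _)).add
      (Continuous.intervalIntegrable (by fun_prop) _ _)).abs
  have E2i : IntervalIntegrable (fun t => |er ℓ κ T a (t - c)|) volume (5 / 4 * T) (7 / 4 * T) := by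
    have : (fun t => |er ℓ κ T a (t - c)|) = fun t =>
        |((NZ ((t - c) + h) : ℝ) - NZ (t - c)) - a + PP u X (t - c + h / 2)| := by
      funext t; rw [eN1]
    rw [this]
    exact ((N2i.sub (continuous_const.intervalIntegrable _ _)).add
      (Continuous.intervalIntegrable (by fun_prop) _ _)).abs
  have B1 : ∫ t in (5 / 4 * T)..(7 / 4 * T), |er ℓ κ T a t| ≤ (D * T + T / 2) / 2 := by
    have := abs_int_le (A0 := T + L) (B0 := 2 * T - L - 7) (A := 5 / 4 * T) (B := 7 / 4 * T)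
      (by linarith) (by linarith) (by linarith) i1 (E1i _ _) m1
    linarith
  have B2 : ∫ t in (5 / 4 * T)..(7 / 4 * T), |er ℓ κ T a (t - c)| ≤ (D * T + T / 2) / 2 := by
    rw [intervalIntegral.integral_comp_sub_right (fun s => |er ℓ κ T a s|) c]
    have := abs_int_le (A0 := T + L) (B0 := 2 * T - L - 7) (A := 5 / 4 * T - c) (B := 7 / 4 * T - c)
      (by linarith) (by linarith) (by linarith) i1 (E1i _ _) m1
    linarith
  -- the conclusion
  simp only [div_one] at hdet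
  have hfin : ∫ t in (5 / 4 * T)..(7 / 4 * T), (|PP u X (t + h / 2) - PP u X (t + (h / 2 - c))| -
      |er ℓ κ T a t| - |er ℓ κ T a (t - c)|) ≤
      ∫ t in (5 / 4 * T)..(7 / 4 * T), |((NZ (t + h) : ℝ) - NZ t) -
          ((NZ ((t - c) + h) : ℝ) - NZ (t - c))| := by
    refine intervalIntegral.integral_mono_on (by linarith) ?_ ((N1i.sub N2i).abs) fun t _ => ?_
    · exact ((Continuous.intervalIntegrable (by fun_prop) _ _).sub (E1i _ _)).sub E2i
    · have h1 := eN1 t
      have h2 := eN1 (t - c)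
      have h3 : PP u X (t + h / 2) - PP u X (t + (h / 2 - c)) =
          er ℓ κ T a t - er ℓ κ T a (t - c) -
          (((NZ (t + h) : ℝ) - NZ t) - ((NZ ((t - c) + h) : ℝ) - NZ (t - c))) := by
        have e : t + (h / 2 - c) = t - c + h / 2 := by ring
        rw [e]
        linarith
      have h4 := abs_sub (er ℓ κ T a t - er ℓ κ T a (t - c))
        (((NZ (t + h) : ℝ) - NZ t) - ((NZ ((t - c) + h) : ℝ) - NZ (t - c)))
      have h6 := abs_sub (er ℓ κ T a t) (er ℓ κ T a (t - c))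
      rw [← h3] at h4
      linarith
  rw [intervalIntegral.integral_sub ((Continuous.intervalIntegrable (by fun_prop) _ _).sub (E1i _ _)) E2i,
    intervalIntegral.integral_sub (Continuous.intervalIntegrable (by fun_prop) _ _) (E1i _ _)] at hfin
  refine le_trans ?_ hfin
  have h1 : T / 2 * (3 * (D + 1)) ≤ T / 2 * (r / 10) :=
    mul_le_mul_of_nonneg_left (by linarith) (by positivity)
  have h2 : 0 ≤ D * T := by positivity
  linarith

/-- the second moment of the numbers of ordinates in short windows -/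
theorem second (cr2 : S_CR2) : ∃ a C : ℝ, 1 ≤ a ∧ 0 < C ∧ ∀ᶠ T : ℝ in atTop,
    IntervalIntegrable (fun t => ((NZ (t + 2 * Real.pi * a / Real.log T) : ℝ) - NZ t) ^ 2) volume
      (5 / 4 * T) (7 / 4 * T) ∧
    ∫ t in (5 / 4 * T)..(7 / 4 * T), ((NZ (t + 2 * Real.pi * a / Real.log T) : ℝ) - NZ t) ^ 2 ≤
      C * T := by
  obtain ⟨ℓ, C, T0, hℓ, hC, hT0, hcomb⟩ := comb 1 le_rfl
  have hℓ0 : 0 < ℓ := by linarith
  have hpi := Real.pi_gt_three
  have hlog8 : 0 ≤ Real.log (1 / (1 / 8 : ℝ)) := Real.log_nonneg (by norm_num)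
  set D : ℝ := C * (1 + Real.log (1 / (1 / 8 : ℝ))) with hD
  have hD0 : 0 < D := by positivity
  have hlogℓ : 0 ≤ 2 / Real.pi ^ 2 * Real.log ℓ := by
    have := Real.log_nonneg (show 1 ≤ ℓ by linarith)
    positivity
  refine ⟨ℓ, 3 * (ℓ ^ 2 + (D + 2 / Real.pi ^ 2 * Real.log ℓ + 1) + D), by linarith, by positivity, ?_⟩
  have hlo : ∀ K : ℝ, ∀ᶠ T : ℝ in atTop, Real.log T + K ≤ T / 16 := by
    intro K
    have h1 : (fun T : ℝ => Real.log T + K) =o[atTop] fun T : ℝ => T :=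
      Real.isLittleO_log_id_atTop.add (Asymptotics.isLittleO_const_id_atTop _)
    have h2 := h1.bound (c := 1 / 16) (by norm_num)
    filter_upwards [h2, eventually_ge_atTop 1] with T hT hT1
    rw [Real.norm_of_nonneg (by linarith : (0 : ℝ) ≤ T)] at hT
    have := (le_abs_self _).trans hT
    linarith
  have hp38 : ∀ᶠ T : ℝ in atTop, 96 * T ^ (3 / 8 : ℝ) ≤ T := by
    filter_upwards [(tendsto_rpow_atTop (show (0 : ℝ) < 5 / 8 by norm_num)).eventually_ge_atTop 96,
      eventually_ge_atTop 1] with T hT hT1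
    have h1 : T ^ (5 / 8 : ℝ) * T ^ (3 / 8 : ℝ) = T := by
      rw [← Real.rpow_add (by linarith)]
      norm_num
    have h2 := mul_le_mul_of_nonneg_right hT (show 0 ≤ T ^ (3 / 8 : ℝ) by positivity)
    linarith
  filter_upwards [eventually_ge_atTop T0, eventually_ge_atTop (1 : ℝ),
    Real.tendsto_log_atTop.eventually_ge_atTop (ℓ * Real.log ℓ),
    Real.tendsto_log_atTop.eventually_ge_atTop 64, hlo 7, hp38]
    with T hTT0 hT1' hTa hTκ hT7 hT38
  have hTpos : 0 < T := by linarith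
  have hL0 : 0 < Real.log T := by linarith
  set L := Real.log T with hL
  set l := L / ℓ with hl
  have hlpos : 0 < l := by positivity
  set h := 2 * Real.pi * ℓ / L with hh
  have hh0 : 0 < h := by positivity
  set X := XK (1 / 8) T with hX
  set u := rc l h with hu
  obtain ⟨i1, m1, w1⟩ := hcomb T hTT0 ℓ le_rfl (by linarith) (1 / 8) (by norm_num) le_rfl (by linarith)
  rw [← hD] at m1 w1
  rw [← hL, ← hl, ← hh, ← hu, ← hX] at w1
  rw [← hL] at i1 m1
  have w1' := abs_le.1 w1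
  have hXle : (X : ℝ) ≤ T ^ (1 / 8 : ℝ) := Nat.floor_le (by positivity)
  have hX3 : 12 * (X : ℝ) ^ 3 ≤ T / 8 := by
    have h2 : (X : ℝ) ^ 3 ≤ (T ^ (1 / 8 : ℝ)) ^ 3 := pow_le_pow_left₀ (by positivity) hXle 3
    have h3 : (T ^ (1 / 8 : ℝ)) ^ 3 = T ^ (3 / 8 : ℝ) := by
      rw [← Real.rpow_natCast, ← Real.rpow_mul hTpos.le]
      norm_num
    rw [h3] at h2
    linarith
  have hub : ∀ n, |u n| ≤ 1 := fun n => by
    have := rc_bd hlpos h n
    exact abs_le_of_sq_le_sq (by rw [one_pow]; exact this) (by norm_num)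
  have hPu := PP_cont u X
  have eN1 : ∀ t, ((NZ (t + h) : ℝ) - NZ t) = ℓ - PP u X (t + h / 2) + er ℓ (1 / 8) T ℓ t := by
    intro t
    have := er_eq ℓ (1 / 8) T ℓ t
    rw [← hL, ← hl, ← hh, ← hu, ← hX] at this
    linarith
  have i1' : IntervalIntegrable (fun t => er ℓ (1 / 8) T ℓ t ^ 2) volume (5 / 4 * T) (7 / 4 * T) := by
    refine i1.mono_set ?_
    rw [uIcc_of_le (by linarith), uIcc_of_le (by linarith)]
    exact Icc_subset_Icc (by linarith) (by linarith)
  have m1' : ∫ t in (5 / 4 * T)..(7 / 4 * T), er ℓ (1 / 8) T ℓ t ^ 2 ≤ D * T :=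
    (intervalIntegral.integral_mono_interval (by linarith) (by linarith) (by linarith)
      (Eventually.of_forall fun t => sq_nonneg _) i1).trans m1
  have q1 : ∫ t in (5 / 4 * T)..(7 / 4 * T), PP u X (t + h / 2) ^ 2 ≤
      (D + 2 / Real.pi ^ 2 * Real.log ℓ + 1) * T := by
    have h1 := cr2 X u u hub hub (5 / 4 * T) (7 / 4 * T) (h / 2) (h / 2) (by linarith)
    rw [sub_self] at h1
    have c0 : ∑ p ∈ Prm X, u p * u p * Real.cos (0 * Real.log p) = VS u X := by
      rw [VS_eq']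
      refine Finset.sum_congr rfl fun p _ => ?_
      rw [zero_mul, Real.cos_zero]; ring
    rw [c0] at h1
    have h2 := (abs_le.1 h1).2
    have h3 : (∫ t in (5 / 4 * T)..(7 / 4 * T), (∑ p ∈ Prm X, u p * Real.cos ((t + h / 2) * Real.log p)) *
        (∑ q ∈ Prm X, u q * Real.cos ((t + h / 2) * Real.log q))) =
        ∫ t in (5 / 4 * T)..(7 / 4 * T), PP u X (t + h / 2) ^ 2 := by
      refine intervalIntegral.integral_congr fun t _ => ?_
      simp only [PP]; ring
    rw [h3] at h2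
    have h4 : (7 / 4 * T - 5 / 4 * T) / 2 * VS u X = T / 4 * VS u X := by ring
    rw [h4] at h2
    have h5 : T / 4 * VS u X ≤ T / 4 * (D + 2 / Real.pi ^ 2 * Real.log ℓ) :=
      mul_le_mul_of_nonneg_left (by linarith [w1'.2]) (by positivity)
    have h6 : 0 ≤ T * (D + 2 / Real.pi ^ 2 * Real.log ℓ) := by positivity
    nlinarith
  have N1i : IntervalIntegrable (fun t => ((NZ (t + h) : ℝ) - NZ t) ^ 2) volume
      (5 / 4 * T) (7 / 4 * T) := by
    have hmeas : Measurable fun t : ℝ => ((NZ (t + h) : ℝ) - NZ t) ^ 2 := by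
      have h1 : Measurable fun t : ℝ => (NZ t : ℝ) :=
        measurable_from_nat.comp (SG.NZ_mono.measurable)
      exact ((h1.comp (measurable_id.add_const h)).sub h1).pow_const 2
    have hb : ∀ t ∈ Set.uIoc (5 / 4 * T) (7 / 4 * T), ‖((NZ (t + h) : ℝ) - NZ t) ^ 2‖ ≤
        (NZ (7 / 4 * T + h) : ℝ) ^ 2 := by
      intro t ht
      rw [uIoc_of_le (by linarith)] at ht
      have h1 : (NZ t : ℝ) ≤ NZ (t + h) := by exact_mod_cast SG.NZ_mono (by linarith)
      have h2 : (NZ (t + h) : ℝ) ≤ NZ (7 / 4 * T + h) := by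
        exact_mod_cast SG.NZ_mono (by linarith [ht.2])
      have h3 : (0 : ℝ) ≤ NZ t := Nat.cast_nonneg _
      rw [Real.norm_of_nonneg (sq_nonneg _)]
      exact pow_le_pow_left₀ (by linarith) (by linarith) 2
    rw [intervalIntegrable_iff]
    refine Measure.integrableOn_of_bounded ?_ hmeas.aestronglyMeasurable (M := (NZ (7 / 4 * T + h) : ℝ) ^ 2) ?_
    · rw [uIoc_of_le (by linarith)]
      exact measure_Ioc_lt_top.ne
    · exact (ae_restrict_iff' measurableSet_uIoc).2 (Eventually.of_forall hb)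
  refine ⟨N1i, ?_⟩
  have hP2 : IntervalIntegrable (fun t => PP u X (t + h / 2) ^ 2) volume (5 / 4 * T) (7 / 4 * T) :=
    Continuous.intervalIntegrable (by fun_prop) _ _
  have hle : ∫ t in (5 / 4 * T)..(7 / 4 * T), ((NZ (t + h) : ℝ) - NZ t) ^ 2 ≤
      ∫ t in (5 / 4 * T)..(7 / 4 * T), 3 * (ℓ ^ 2 + PP u X (t + h / 2) ^ 2 +
        er ℓ (1 / 8) T ℓ t ^ 2) := by
    refine intervalIntegral.integral_mono_on (by linarith) N1i
      ((((continuous_const.intervalIntegrable _ _).add hP2).add i1').const_mul 3) fun t _ => ?_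
    rw [eN1 t]
    nlinarith [sq_nonneg (ℓ + PP u X (t + h / 2)), sq_nonneg (ℓ - er ℓ (1 / 8) T ℓ t),
      sq_nonneg (PP u X (t + h / 2) + er ℓ (1 / 8) T ℓ t)]
  rw [intervalIntegral.integral_const_mul, intervalIntegral.integral_add
    ((continuous_const.intervalIntegrable _ _).add hP2) i1', intervalIntegral.integral_add
    (continuous_const.intervalIntegrable _ _) hP2, intervalIntegral.integral_const, smul_eq_mul] at hle
  refine hle.trans ?_
  have e : (7 / 4 * T - 5 / 4 * T) * ℓ ^ 2 = T / 2 * ℓ ^ 2 := by ring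
  rw [e]
  have h7 : 0 ≤ T * ℓ ^ 2 := by positivity
  linarith

end Pool.Agent.U125.UT
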