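import Pool.Agent.U125.UT.Core
import Pool.Agent.Y743.AF.Sets

/-!
# Uniform translates: the theorem for the sequence of the ordinates
-/

set_option autoImplicit false

namespace Pool.Agent.U125.UT

open Filter Topology MeasureTheory
open SG (NZ ord)
open Pool.Agent.Y743.AF

lemma log_N_le : ∀ᶠ N : ℕ in atTop, Real.log (ord N / 2) ≤ Real.log N ∧
    Real.log N ≤ 2 * Real.log (ord N / 2) := by
  obtain ⟨C, T1, hC, hT1, hup⟩ := SP.PosProp.NZ_up
  obtain ⟨T2, hlow⟩ := W200.HW.NZ_lower (1 / 2) (by norm_num)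
  have hpi := Real.pi_gt_three
  have hTT : Tendsto (fun N : ℕ => ord N / 2) atTop atTop :=
    SG.ord_tendsto.atTop_div_const (by norm_num)
  have hlo : ∀ᶠ T : ℝ in atTop, C * Real.log T ≤ T := by
    have h1 : (fun T : ℝ => C * Real.log T) =o[atTop] fun T : ℝ => T :=
      Real.isLittleO_log_id_atTop.const_mul_left C
    have h2 := h1.bound (c := 1) (by norm_num)
    filter_upwards [h2, eventually_ge_atTop 1] with T hT hT1
    rw [one_mul, Real.norm_of_nonneg (by linarith : (0 : ℝ) ≤ T)] at hT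
    exact (le_abs_self _).trans hT
  filter_upwards [hTT.eventually_ge_atTop T1, hTT.eventually_ge_atTop 10,
    (Real.tendsto_log_atTop.comp hTT).eventually_ge_atTop (4 * Real.pi),
    eventually_ge_atTop 1, hTT.eventually_ge_atTop T2, hTT.eventually hlo] with N h2 h3 h4 hN1 h6 h7
  set T : ℝ := ord N / 2 with hT
  have hoN : ord N = 2 * T := by rw [hT]; ring
  have hT0 : 0 < T := by linarith
  set L := Real.log T with hL
  have hL0 : 0 < L := lt_of_lt_of_le (by positivity) h4
  have hNr : (1 : ℝ) ≤ N := by exact_mod_cast hN1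
  constructor
  · apply Real.log_le_log hT0
    have k1 := hlow (2 * T - 1) (by linarith)
    have k2 := NZ_pred_le hN1
    rw [hoN] at k2
    have k3 : L ≤ Real.log (2 * T - 1) := Real.log_le_log hT0 (by linarith)
    have k5 : T / (2 * Real.pi) * (4 * Real.pi) ≤ (2 * T - 1) / (2 * Real.pi) *
        Real.log (2 * T - 1) := by
      apply mul_le_mul _ (le_trans h4 k3) (by positivity)
      · have : 0 < 2 * T - 1 := by linarith
        positivity
      · exact div_le_div_of_nonneg_right (by linarith) (by positivity)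
    have k6 : T / (2 * Real.pi) * (4 * Real.pi) = 2 * T := by field_simp; ring
    linarith
  · have h8 : N ≤ NZ (ord N) := SG.le_NZ_ord hN1
    rw [hoN] at h8
    have h9 : (N : ℝ) ≤ NZ (2 * T) := by exact_mod_cast h8
    have h10 : (N : ℝ) ≤ C * (T * L) := h9.trans (hup T h2)
    have h11 : (N : ℝ) ≤ T ^ 2 := by
      have h12 : C * L * T ≤ T * T := mul_le_mul_of_nonneg_right h7 hT0.le
      nlinarith
    have h13 := Real.log_le_log (by linarith) h11
    rw [Real.log_pow] at h13
    push_cast at h13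
    exact h13

/-- the bound for all but the small translations -/
theorem far (tw : S_TWU) : ∃ κ K : ℝ, 0 < κ ∧ 0 < K ∧ ∀ᶠ N : ℕ in atTop, ∀ c : ℝ,
    K / Real.log N ≤ |c| → ∀ σ : ℕ → ℕ,
    (∀ n ∈ Finset.Icc 1 N, σ n ∈ Finset.Icc 1 N) → Set.InjOn σ (Finset.Icc 1 N) →
    κ * N ≤ (((Finset.Icc 1 N).filter
      (fun n => κ / Real.log N ≤ |ord (σ n) - (ord n + c)|)).card : ℝ) := by
  obtain ⟨a, K, ha, hK, hcore⟩ := core_u tw Pool.Agent.Y474.CR2.cr2
  obtain ⟨C, T1, hC, hT1, hup⟩ := SP.PosProp.NZ_up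
  have hpi := Real.pi_gt_three
  have hpi0 := Real.pi_pos
  set κ : ℝ := min (1 / 32) (1 / (8 * (C + 1) * (2 * Real.pi * a + 1))) with hκ
  have hκ0 : 0 < κ := lt_min (by norm_num) (by positivity)
  have hκ1 : κ ≤ 1 / 32 := min_le_left _ _
  have hκ2 : κ * (8 * (C + 1) * (2 * Real.pi * a + 1)) ≤ 1 := by
    have := min_le_right (1 / 32) (1 / (8 * (C + 1) * (2 * Real.pi * a + 1)))
    rw [← hκ, le_div_iff₀ (by positivity)] at this
    exact this
  refine ⟨κ, 2 * K, hκ0, by positivity, ?_⟩
  have hTT : Tendsto (fun N : ℕ => ord N / 2) atTop atTop :=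
    SG.ord_tendsto.atTop_div_const (by norm_num)
  have hratio := ord_ratio (15 / 16) 1 (1 / 32) (by norm_num) (by norm_num) (by norm_num)
  filter_upwards [hTT.eventually hcore, hTT.eventually_ge_atTop T1,
    hTT.eventually_ge_atTop 10, log_N_le, hratio,
    (Real.tendsto_log_atTop.comp hTT).eventually_ge_atTop (4 * Real.pi * a + 1),
    eventually_ge_atTop 3] with N h1 h2 hT10 hNT hrat h4 hN3 c hc σ hσ hσi
  by_contra hcon
  push Not at hcon
  have hN1 : 1 ≤ N := by omega
  set T : ℝ := ord N / 2 with hT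
  have hoN : ord N = 2 * T := by rw [hT]; ring
  have hT0 : 0 < T := by linarith
  set L := Real.log T with hL
  have hL1 : 4 * Real.pi * a + 1 ≤ L := h4
  have hL0 : 0 < L := by
    have : 0 < 4 * Real.pi * a := by positivity
    linarith
  set h : ℝ := 2 * Real.pi * a / L with hh
  have hh0 : 0 < h := by positivity
  have hh1 : h ≤ 1 / 2 := by
    rw [hh, div_le_iff₀ hL0]; linarith
  have hc0 := abs_nonneg c
  have hc1 := le_abs_self c
  have hc2 := neg_abs_le c
  have hNr : (1 : ℝ) ≤ N := by exact_mod_cast hN1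
  have hlogN : 0 < Real.log N := lt_of_lt_of_le hL0 hNT.1
  have hlog1 : 1 ≤ Real.log N := by
    have : 0 < 4 * Real.pi * a := by positivity
    linarith [hNT.1]
  set η : ℝ := κ / Real.log N with hη
  have hη0 : 0 < η := by positivity
  have hη1 : η ≤ 1 := by
    rw [hη, div_le_one hlogN]; linarith
  rcases le_or_gt |c| (T / 8) with hcT | hcT
  · -- the translations which are not long
    have hcK : K / L ≤ |c| := by
      refine le_trans ?_ hc
      rw [div_le_div_iff₀ hL0 hlogN]
      have := mul_le_mul_of_nonneg_left hNT.2 hK.le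
      linarith
    have hNup : (N : ℝ) ≤ C * (T * L) := by
      have h7 : N ≤ NZ (ord N) := SG.le_NZ_ord hN1
      rw [hoN] at h7
      have h8 : (N : ℝ) ≤ NZ (2 * T) := by exact_mod_cast h7
      exact h8.trans (hup T h2)
    have hm := Pool.Agent.Y762.AF.Match.matching N ord σ 1 c h η (5 / 4 * T) (7 / 4 * T) hσ hσi hh0.le
      hη0.le (by linarith)
    simp only [one_mul] at hm
    have hcongr : ∫ t in (5 / 4 * T)..(7 / 4 * T),
        |((NZ (t + h) : ℝ) - NZ t) - ((NZ ((t - c) + h) : ℝ) - NZ (t - c))| =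
        ∫ t in (5 / 4 * T)..(7 / 4 * T),
        |(((Finset.Icc 1 N).filter (fun n => t < ord n ∧ ord n ≤ t + h)).card : ℝ) -
          (((Finset.Icc 1 N).filter
            (fun n => t < ord n + c ∧ ord n + c ≤ t + h)).card : ℝ)| := by
      refine intervalIntegral.integral_congr fun t ht => ?_
      rw [Set.uIcc_of_le (by linarith)] at ht
      obtain ⟨ht1, ht2⟩ := ht
      have e1 := cnt_win (N := N) (x := t) (y := t + h) (by linarith) (by rw [hoN]; linarith) hN1
      have e2 := cnt_win (N := N) (x := t - c) (y := t - c + h) (by linarith)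
        (by rw [hoN]; linarith) hN1
      have e3 : (Finset.Icc 1 N).filter (fun n => t < ord n + c ∧ ord n + c ≤ t + h) =
          (Finset.Icc 1 N).filter (fun n => t - c < ord n ∧ ord n ≤ t - c + h) := by
        apply Finset.filter_congr
        intro n _
        constructor
        · rintro ⟨k1, k2⟩; constructor <;> linarith
        · rintro ⟨k1, k2⟩; constructor <;> linarith
      show |((NZ (t + h) : ℝ) - NZ t) - ((NZ (t - c + h) : ℝ) - NZ (t - c))| = _
      rw [e3, e1, e2]
    have h1' : T / 2 ≤ ∫ t in (5 / 4 * T)..(7 / 4 * T),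
        |((NZ (t + h) : ℝ) - NZ t) - ((NZ ((t - c) + h) : ℝ) - NZ (t - c))| := h1 c hcK hcT
    rw [hcongr] at h1'
    have h7 := h1'.trans hm
    have h8 : (((Finset.Icc 1 N).filter (fun n => η < |ord (σ n) - (ord n + c)|)).card : ℝ) ≤
        κ * N := by
      refine le_trans ?_ hcon.le
      have : (Finset.Icc 1 N).filter (fun n => η < |ord (σ n) - (ord n + c)|) ⊆
          (Finset.Icc 1 N).filter (fun n => η ≤ |ord (σ n) - (ord n + c)|) := by
        intro n hn
        rw [Finset.mem_filter] at hn ⊢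
        exact ⟨hn.1, hn.2.le⟩
      exact_mod_cast Finset.card_le_card this
    have h9 : 2 * h * (((Finset.Icc 1 N).filter
        (fun n => η < |ord (σ n) - (ord n + c)|)).card : ℝ) ≤ 4 * Real.pi * a * κ * C * T := by
      calc 2 * h * (((Finset.Icc 1 N).filter
          (fun n => η < |ord (σ n) - (ord n + c)|)).card : ℝ) ≤ 2 * h * (κ * (C * (T * L))) := by
            apply mul_le_mul_of_nonneg_left _ (by positivity)
            exact h8.trans (mul_le_mul_of_nonneg_left hNup hκ0.le)
        _ = 4 * Real.pi * a * κ * C * T := by rw [hh]; field_simp; ring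
    have h10 : 2 * η * N ≤ 2 * κ * C * T := by
      have k1 : η ≤ κ / L := div_le_div_of_nonneg_left hκ0.le hL0 hNT.1
      calc 2 * η * N ≤ 2 * (κ / L) * (C * (T * L)) := by
            apply mul_le_mul _ hNup (by positivity) (by positivity)
            linarith
        _ = 2 * κ * C * T := by field_simp
    have h11 : 4 * Real.pi * a * κ * C * T + 2 * κ * C * T ≤ T / 4 := by
      have k1 : κ * C * (8 * (2 * Real.pi * a + 1)) ≤ 1 := by
        refine le_trans ?_ hκ2
        have : 0 ≤ κ * (8 * (2 * Real.pi * a + 1)) := by positivity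
        nlinarith
      have k2 := mul_le_mul_of_nonneg_left k1 hT0.le
      nlinarith
    linarith
  · -- the long translations
    have hmon := ord_monotone
    have hle : ∀ n ∈ Finset.Icc 1 N, ord n ≤ 2 * T := fun n hn => by
      rw [← hoN]; exact hmon (Finset.mem_Icc.1 hn).2
    have hrat' : (((Finset.Icc 1 N).filter (fun n => ord n ≤ 15 / 16 * ord N + 1)).card : ℝ) ≤
        (15 / 16 + 1 / 32) * N := hrat
    rw [hoN] at hrat'
    have hcard : ((Finset.Icc 1 N).card : ℝ) = N := by
      rw [Nat.card_Icc, Nat.add_sub_cancel]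
    rcases lt_or_ge 0 c with hcp | hcp
    · rw [abs_of_pos hcp] at hcT
      have hsub : Finset.Icc 1 N ⊆ (Finset.Icc 1 N).filter (fun n => ord n ≤ 15 / 16 * (2 * T) + 1) ∪
          (Finset.Icc 1 N).filter (fun n => η ≤ |ord (σ n) - (ord n + c)|) := by
        intro n hn
        rw [Finset.mem_union, Finset.mem_filter, Finset.mem_filter]
        rcases le_or_gt (ord n) (15 / 16 * (2 * T) + 1) with k | k
        · exact Or.inl ⟨hn, k⟩
        · refine Or.inr ⟨hn, ?_⟩
          have k1 := hle _ (hσ n hn)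
          have k2 := neg_abs_le (ord (σ n) - (ord n + c))
          linarith
      have k1 := (Finset.card_le_card hsub).trans (Finset.card_union_le _ _)
      have k2 : (N : ℝ) ≤ (((Finset.Icc 1 N).filter
          (fun n => ord n ≤ 15 / 16 * (2 * T) + 1)).card : ℝ) +
          (((Finset.Icc 1 N).filter (fun n => η ≤ |ord (σ n) - (ord n + c)|)).card : ℝ) := by
        rw [← hcard]
        exact_mod_cast k1
      have k3 : κ * N ≤ 1 / 32 * N := mul_le_mul_of_nonneg_right hκ1 (by linarith)
      linarith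
    · rw [abs_of_nonpos hcp] at hcT
      have hsub : Finset.Icc 1 N ⊆
          (Finset.Icc 1 N).filter (fun n => ord (σ n) ≤ 15 / 16 * (2 * T) + 1) ∪
          (Finset.Icc 1 N).filter (fun n => η ≤ |ord (σ n) - (ord n + c)|) := by
        intro n hn
        rw [Finset.mem_union, Finset.mem_filter, Finset.mem_filter]
        rcases le_or_gt (ord (σ n)) (15 / 16 * (2 * T) + 1) with k | k
        · exact Or.inl ⟨hn, k⟩
        · refine Or.inr ⟨hn, ?_⟩
          have k1 := hle _ hn
          have k2 := le_abs_self (ord (σ n) - (ord n + c))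
          linarith
      have k1 := (Finset.card_le_card hsub).trans (Finset.card_union_le _ _)
      have k2 : (N : ℝ) ≤ (((Finset.Icc 1 N).filter
          (fun n => ord (σ n) ≤ 15 / 16 * (2 * T) + 1)).card : ℝ) +
          (((Finset.Icc 1 N).filter (fun n => η ≤ |ord (σ n) - (ord n + c)|)).card : ℝ) := by
        rw [← hcard]
        exact_mod_cast k1
      have k4 : ((Finset.Icc 1 N).filter (fun n => ord (σ n) ≤ 15 / 16 * (2 * T) + 1)).card ≤
          ((Finset.Icc 1 N).filter (fun n => ord n ≤ 15 / 16 * (2 * T) + 1)).card := by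
        apply Finset.card_le_card_of_injOn σ
        · intro n hn
          have hn' := Finset.mem_filter.1 (Finset.mem_coe.1 hn)
          exact Finset.mem_coe.2 (Finset.mem_filter.2 ⟨hσ n hn'.1, hn'.2⟩)
        · intro n hn m hm hnm
          exact hσi (Finset.mem_coe.2 (Finset.mem_filter.1 (Finset.mem_coe.1 hn)).1)
            (Finset.mem_coe.2 (Finset.mem_filter.1 (Finset.mem_coe.1 hm)).1) hnm
      have k5 : (((Finset.Icc 1 N).filter (fun n => ord (σ n) ≤ 15 / 16 * (2 * T) + 1)).card : ℝ) ≤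
          (((Finset.Icc 1 N).filter (fun n => ord n ≤ 15 / 16 * (2 * T) + 1)).card : ℝ) := by
        exact_mod_cast k4
      have k3 : κ * N ≤ 1 / 32 * N := mul_le_mul_of_nonneg_right hκ1 (by linarith)
      linarith

/-! ### Iterates -/

lemma iter_maps {N : ℕ} {σ : ℕ → ℕ} (h1 : ∀ n ∈ Finset.Icc 1 N, σ n ∈ Finset.Icc 1 N) (j : ℕ) :
    ∀ n ∈ Finset.Icc 1 N, σ^[j] n ∈ Finset.Icc 1 N := by
  induction j with
  | zero => intro n hn; exact hn
  | succ j ih =>
    intro n hn
    rw [Function.iterate_succ_apply']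
    exact h1 _ (ih n hn)

lemma iter_inj {N : ℕ} {σ : ℕ → ℕ} (h1 : ∀ n ∈ Finset.Icc 1 N, σ n ∈ Finset.Icc 1 N)
    (h2 : Set.InjOn σ (Finset.Icc 1 N)) (j : ℕ) : Set.InjOn (σ^[j]) (Finset.Icc 1 N) := by
  induction j with
  | zero => intro n _ m _ hnm; exact hnm
  | succ j ih =>
    intro n hn m hm hnm
    rw [Function.iterate_succ_apply', Function.iterate_succ_apply'] at hnm
    exact ih hn hm (h2 (Finset.mem_coe.2 (iter_maps h1 j n (Finset.mem_coe.1 hn)))
      (Finset.mem_coe.2 (iter_maps h1 j m (Finset.mem_coe.1 hm))) hnm)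

lemma iter_card {N : ℕ} {σ : ℕ → ℕ} (h1 : ∀ n ∈ Finset.Icc 1 N, σ n ∈ Finset.Icc 1 N)
    (h2 : Set.InjOn σ (Finset.Icc 1 N)) (B : Finset ℕ) (J : ℕ) :
    ((Finset.Icc 1 N).filter (fun n => ∃ i ∈ Finset.range J, σ^[i] n ∈ B)).card ≤ J * B.card := by
  have hsub : (Finset.Icc 1 N).filter (fun n => ∃ i ∈ Finset.range J, σ^[i] n ∈ B) ⊆
      (Finset.range J).biUnion (fun i => (Finset.Icc 1 N).filter (fun n => σ^[i] n ∈ B)) := by
    intro n hn
    rw [Finset.mem_filter] at hn
    obtain ⟨hn1, i, hi, hB⟩ := hn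
    rw [Finset.mem_biUnion]
    exact ⟨i, hi, Finset.mem_filter.2 ⟨hn1, hB⟩⟩
  refine (Finset.card_le_card hsub).trans ?_
  have h3 := Finset.card_biUnion_le_card_mul (Finset.range J)
    (fun i => (Finset.Icc 1 N).filter (fun n => σ^[i] n ∈ B)) B.card (fun i _ => by
      apply Finset.card_le_card_of_injOn (σ^[i])
      · intro n hn
        exact Finset.mem_coe.2 (Finset.mem_filter.1 (Finset.mem_coe.1 hn)).2
      · intro n hn m hm hnm
        exact iter_inj h1 h2 i (Finset.mem_coe.2 (Finset.mem_filter.1 (Finset.mem_coe.1 hn)).1)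
          (Finset.mem_coe.2 (Finset.mem_filter.1 (Finset.mem_coe.1 hm)).1) hnm)
  rwa [Finset.card_range] at h3

lemma iter_dist {N J : ℕ} {σ : ℕ → ℕ} {c w : ℝ}
    (h1 : ∀ n ∈ Finset.Icc 1 N, σ n ∈ Finset.Icc 1 N) {n : ℕ} (hn : n ∈ Finset.Icc 1 N)
    (hE : ∀ i < J, σ^[i] n ∉ (Finset.Icc 1 N).filter
      (fun n => w ≤ |ord (σ n) - (ord n + c)|)) :
    ∀ j ≤ J, |ord (σ^[j] n) - (ord n + j * c)| ≤ j * w := by
  intro j
  induction j with
  | zero => intro _; simp
  | succ j ih =>
    intro hj
    have h2 := ih (by omega)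
    have h3 := hE j (by omega)
    rw [Finset.mem_filter, not_and, not_le] at h3
    have h4 := h3 (iter_maps h1 j n hn)
    rw [Function.iterate_succ_apply']
    push_cast
    rw [abs_le] at h2 ⊢
    have h5 := abs_le.1 h4.le
    constructor <;> linarith [h2.1, h2.2, h5.1, h5.2]

end Pool.Agent.U125.UT
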