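import Pool.Agent.U125.UT.Refl

/-!
# Uniform isometries: reflections of the sequence of the ordinates, the final theorems
-/

set_option autoImplicit false

namespace Pool.Agent.U125.UT

open Filter Topology MeasureTheory
open SG (NZ ord)
open Pool.Agent.Y743.AF

lemma low_count : ∃ C0 : ℝ, 0 < C0 ∧ ∀ᶠ T : ℝ in atTop,
    C0 * (T * Real.log T) ≤ (NZ (T / 100 - 1) : ℝ) := by
  obtain ⟨T2, hlow⟩ := W200.HW.NZ_lower (1 / 2) (by norm_num)
  have hpi := Real.pi_gt_three
  refine ⟨1 / (1600 * Real.pi), by positivity, ?_⟩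
  filter_upwards [eventually_ge_atTop (200 * (T2 + 1)), eventually_ge_atTop (200 : ℝ),
    Real.tendsto_log_atTop.eventually_ge_atTop (2 * Real.log 200)] with T h1 h2 h3
  have hT0 : 0 < T := by linarith
  have k1 := hlow (T / 100 - 1) (by linarith)
  have k2 : T / 200 ≤ T / 100 - 1 := by linarith
  have k3 : Real.log T / 2 ≤ Real.log (T / 100 - 1) := by
    have h4 : Real.log (T / 200) ≤ Real.log (T / 100 - 1) := Real.log_le_log (by positivity) k2
    rw [Real.log_div hT0.ne' (by norm_num)] at h4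
    linarith
  have hL : 0 ≤ Real.log T := Real.log_nonneg (by linarith)
  have k4 : T / 200 * (Real.log T / 2) ≤ (T / 100 - 1) * Real.log (T / 100 - 1) :=
    mul_le_mul k2 k3 (by positivity) (by linarith)
  have e1 : (1 - 1 / 2) * ((T / 100 - 1) / (2 * Real.pi) * Real.log (T / 100 - 1)) =
      (T / 100 - 1) * Real.log (T / 100 - 1) * (1 / (4 * Real.pi)) := by
    field_simp; ring
  have e2 : 1 / (1600 * Real.pi) * (T * Real.log T) =
      T / 200 * (Real.log T / 2) * (1 / (4 * Real.pi)) := by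
    field_simp; ring
  rw [e2]
  rw [e1] at k1
  refine le_trans ?_ k1
  exact mul_le_mul_of_nonneg_right k4 (by positivity)

/-- the bound for reflections -/
theorem far_r (tw : S_TWU) : ∃ κ : ℝ, 0 < κ ∧ ∀ᶠ N : ℕ in atTop, ∀ c : ℝ, ∀ σ : ℕ → ℕ,
    (∀ n ∈ Finset.Icc 1 N, σ n ∈ Finset.Icc 1 N) → Set.InjOn σ (Finset.Icc 1 N) →
    κ * N ≤ (((Finset.Icc 1 N).filter
      (fun n => κ / Real.log N ≤ |ord (σ n) - (c - ord n)|)).card : ℝ) := by
  obtain ⟨a, ha, hcore⟩ := core_r tw Pool.Agent.Y474.CR2.cr2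
  obtain ⟨C, T1, hC, hT1, hup⟩ := SP.PosProp.NZ_up
  obtain ⟨C0, hC0, hlc⟩ := low_count
  have hpi := Real.pi_gt_three
  have hpi0 := Real.pi_pos
  set κ : ℝ := min (1 / 800) (min (C0 / C) (1 / (16 * (C + 1) * (2 * Real.pi * a + 1)))) with hκ
  have hκ0 : 0 < κ := lt_min (by norm_num) (lt_min (by positivity) (by positivity))
  have hκ1 : κ ≤ 1 / 800 := min_le_left _ _
  have hκ3 : κ * C ≤ C0 := by
    have : κ ≤ C0 / C := (min_le_right _ _).trans (min_le_left _ _)
    rwa [le_div_iff₀ hC] at this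
  have hκ2 : κ * (16 * (C + 1) * (2 * Real.pi * a + 1)) ≤ 1 := by
    have : κ ≤ 1 / (16 * (C + 1) * (2 * Real.pi * a + 1)) :=
      (min_le_right _ _).trans (min_le_right _ _)
    rwa [le_div_iff₀ (by positivity)] at this
  refine ⟨κ, hκ0, ?_⟩
  have hTT : Tendsto (fun N : ℕ => ord N / 2) atTop atTop :=
    SG.ord_tendsto.atTop_div_const (by norm_num)
  have hratio := ord_ratio (399 / 400) 1 (1 / 800) (by norm_num) (by norm_num) (by norm_num)
  filter_upwards [hTT.eventually hcore, hTT.eventually_ge_atTop T1,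
    hTT.eventually_ge_atTop 200, log_N_le, hratio, hTT.eventually hlc,
    (Real.tendsto_log_atTop.comp hTT).eventually_ge_atTop (4 * Real.pi * a + 1),
    eventually_ge_atTop 3] with N h1 h2 hT10 hNT hrat hlow h4 hN3 c σ hσ hσi
  by_contra hcon
  push Not at hcon
  have hN1 : 1 ≤ N := by omega
  set T : ℝ := ord N / 2 with hT
  have hoN : ord N = 2 * T := by rw [hT]; ring
  have hT0 : 0 < T := by linarith
  set L := Real.log T with hL
  have hL1 : 4 * Real.pi * a + 1 ≤ L := h4
  have hL0 : 0 < L := by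
    have : 0 < 4 * Real.pi * a := by positivity
    linarith
  set h : ℝ := 2 * Real.pi * a / L with hh
  have hh0 : 0 < h := by positivity
  have hh1 : h ≤ 1 / 2 := by
    rw [hh, div_le_iff₀ hL0]; linarith
  have hNr : (1 : ℝ) ≤ N := by exact_mod_cast hN1
  have hlogN : 0 < Real.log N := lt_of_lt_of_le hL0 hNT.1
  have hlog1 : 1 ≤ Real.log N := by
    have : 0 < 4 * Real.pi * a := by positivity
    linarith [hNT.1]
  set η : ℝ := κ / Real.log N with hη
  have hη0 : 0 < η := by positivity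
  have hη1 : η ≤ 1 := by
    rw [hη, div_le_one hlogN]; linarith
  have hNup : (N : ℝ) ≤ C * (T * L) := by
    have h7 : N ≤ NZ (ord N) := SG.le_NZ_ord hN1
    rw [hoN] at h7
    have h8 : (N : ℝ) ≤ NZ (2 * T) := by exact_mod_cast h7
    exact h8.trans (hup T h2)
  have hmon := ord_monotone
  have hord0 : ∀ n : ℕ, 1 ≤ n → 0 ≤ ord n := fun n hn => (SG.ord_pos hn).le
  have hle : ∀ n ∈ Finset.Icc 1 N, ord n ≤ 2 * T := fun n hn => by
    rw [← hoN]; exact hmon (Finset.mem_Icc.1 hn).2
  have hcard : ((Finset.Icc 1 N).card : ℝ) = N := by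
    rw [Nat.card_Icc, Nat.add_sub_cancel]
  rcases lt_or_ge c (199 / 100 * T) with hc1 | hc1
  · -- small `c`
    have hrat' : (((Finset.Icc 1 N).filter (fun n => ord n ≤ 399 / 400 * ord N + 1)).card : ℝ) ≤
        (399 / 400 + 1 / 800) * N := hrat
    rw [hoN] at hrat'
    have hsub : Finset.Icc 1 N ⊆
        (Finset.Icc 1 N).filter (fun n => ord n ≤ 399 / 400 * (2 * T) + 1) ∪
        (Finset.Icc 1 N).filter (fun n => η ≤ |ord (σ n) - (c - ord n)|) := by
      intro n hn
      rw [Finset.mem_union, Finset.mem_filter, Finset.mem_filter]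
      rcases le_or_gt (ord n) (399 / 400 * (2 * T) + 1) with k | k
      · exact Or.inl ⟨hn, k⟩
      · refine Or.inr ⟨hn, ?_⟩
        have k1 := hord0 (σ n) (Finset.mem_Icc.1 (hσ n hn)).1
        have k2 := le_abs_self (ord (σ n) - (c - ord n))
        linarith
    have k1 := (Finset.card_le_card hsub).trans (Finset.card_union_le _ _)
    have k2 : (N : ℝ) ≤ (((Finset.Icc 1 N).filter
        (fun n => ord n ≤ 399 / 400 * (2 * T) + 1)).card : ℝ) +
        (((Finset.Icc 1 N).filter (fun n => η ≤ |ord (σ n) - (c - ord n)|)).card : ℝ) := by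
      rw [← hcard]
      exact_mod_cast k1
    have k3 : κ * N ≤ 1 / 800 * N := mul_le_mul_of_nonneg_right hκ1 (by linarith)
    linarith
  rcases lt_or_ge (201 / 100 * T) c with hc2 | hc2
  · -- large `c`
    have k0 : NZ (T / 100 - 1) ≤ N := by
      have h5 : (NZ (T / 100 - 1) : ℝ) ≤ NZ (ord N - 1) := by
        exact_mod_cast SG.NZ_mono (by rw [hoN]; linarith)
      have h6 := h5.trans (NZ_pred_le hN1)
      exact_mod_cast h6
    have hsub : Finset.Icc 1 (NZ (T / 100 - 1)) ⊆
        (Finset.Icc 1 N).filter (fun n => η ≤ |ord (σ n) - (c - ord n)|) := by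
      intro n hn
      rw [Finset.mem_Icc] at hn
      have hn' : n ∈ Finset.Icc 1 N := Finset.mem_Icc.2 ⟨hn.1, hn.2.trans k0⟩
      rw [Finset.mem_filter]
      refine ⟨hn', ?_⟩
      have k1 : ord n ≤ T / 100 - 1 := (SG.ord_le_iff hn.1 _).2 hn.2
      have k2 := hle _ (hσ n hn')
      have k3 := neg_abs_le (ord (σ n) - (c - ord n))
      linarith
    have k1 := Finset.card_le_card hsub
    rw [Nat.card_Icc, Nat.add_sub_cancel] at k1
    have k2 : (NZ (T / 100 - 1) : ℝ) ≤
        (((Finset.Icc 1 N).filter (fun n => η ≤ |ord (σ n) - (c - ord n)|)).card : ℝ) := by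
      exact_mod_cast k1
    have k3 : κ * N ≤ C0 * (T * L) := by
      calc κ * N ≤ κ * (C * (T * L)) := mul_le_mul_of_nonneg_left hNup hκ0.le
        _ = κ * C * (T * L) := by ring
        _ ≤ C0 * (T * L) := mul_le_mul_of_nonneg_right hκ3 (by positivity)
    have hlow' : C0 * (T * L) ≤ NZ (T / 100 - 1) := hlow
    linarith
  · -- `c` near `2 T`
    have hm := Pool.Agent.Y762.AF.Match.matching N ord σ (-1) c h η (5 / 4 * (83 / 100 * T))
      (7 / 4 * (83 / 100 * T)) hσ hσi hh0.le hη0.le (by linarith)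
    have hae : ∀ᵐ t : ℝ, t ∉ ((Finset.Icc 1 N).image (fun n => c - ord n) ∪
        (Finset.Icc 1 N).image (fun n => c - h - ord n) : Finset ℝ) := by
      have := (((Finset.Icc 1 N).image (fun n => c - ord n) ∪
        (Finset.Icc 1 N).image (fun n => c - h - ord n) : Finset ℝ)).finite_toSet.measure_zero volume
      exact measure_eq_zero_iff_ae_notMem.1 this
    have hcongr : ∫ t in (5 / 4 * (83 / 100 * T))..(7 / 4 * (83 / 100 * T)),
        |((NZ (t + h) : ℝ) - NZ t) - ((NZ (c - t) : ℝ) - NZ (c - t - h))| =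
        ∫ t in (5 / 4 * (83 / 100 * T))..(7 / 4 * (83 / 100 * T)),
        |(((Finset.Icc 1 N).filter (fun n => t < ord n ∧ ord n ≤ t + h)).card : ℝ) -
          (((Finset.Icc 1 N).filter
            (fun n => t < -1 * ord n + c ∧ -1 * ord n + c ≤ t + h)).card : ℝ)| := by
      refine intervalIntegral.integral_congr_ae ?_
      filter_upwards [hae] with t ht0 ht
      rw [Set.uIoc_of_le (by linarith)] at ht
      obtain ⟨ht1, ht2⟩ := ht
      have e1 := cnt_win (N := N) (x := t) (y := t + h) (by linarith) (by rw [hoN]; linarith) hN1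
      have e2 := cnt_win (N := N) (x := c - t - h) (y := c - t) (by linarith)
        (by rw [hoN]; linarith) hN1
      have e3 : (Finset.Icc 1 N).filter (fun n => t < -1 * ord n + c ∧ -1 * ord n + c ≤ t + h) =
          (Finset.Icc 1 N).filter (fun n => c - t - h < ord n ∧ ord n ≤ c - t) := by
        apply Finset.filter_congr
        intro n hn
        have k1 : t ≠ c - ord n := by
          intro hcn
          apply ht0
          rw [Finset.mem_union, Finset.mem_image]
          exact Or.inl ⟨n, hn, hcn.symm⟩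
        have k2 : t ≠ c - h - ord n := by
          intro hcn
          apply ht0
          rw [Finset.mem_union, Finset.mem_image, Finset.mem_image]
          exact Or.inr ⟨n, hn, hcn.symm⟩
        constructor
        · rintro ⟨a1, a2⟩
          refine ⟨?_, by linarith⟩
          rcases lt_or_eq_of_le (show c - t - h ≤ ord n by linarith) with h5 | h5
          · exact h5
          · exact absurd (by linarith) k2
        · rintro ⟨a1, a2⟩
          refine ⟨?_, by linarith⟩
          rcases lt_or_eq_of_le (show t ≤ -1 * ord n + c by linarith) with h5 | h5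
          · exact h5
          · exact absurd (by linarith) k1
      rw [e3, e1, e2]
    have h1' : T / 4 ≤ ∫ t in (5 / 4 * (83 / 100 * T))..(7 / 4 * (83 / 100 * T)),
        |((NZ (t + h) : ℝ) - NZ t) - ((NZ (c - t) : ℝ) - NZ (c - t - h))| := h1 c hc1 hc2
    rw [hcongr] at h1'
    have h7 := h1'.trans hm
    have e5 : ∀ n, |ord (σ n) - (-1 * ord n + c)| = |ord (σ n) - (c - ord n)| := by
      intro n
      rw [show -1 * ord n + c = c - ord n by ring]
    simp only [e5] at h7
    have h8 : (((Finset.Icc 1 N).filter (fun n => η < |ord (σ n) - (c - ord n)|)).card : ℝ) ≤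
        κ * N := by
      refine le_trans ?_ hcon.le
      have : (Finset.Icc 1 N).filter (fun n => η < |ord (σ n) - (c - ord n)|) ⊆
          (Finset.Icc 1 N).filter (fun n => η ≤ |ord (σ n) - (c - ord n)|) := by
        intro n hn
        rw [Finset.mem_filter] at hn ⊢
        exact ⟨hn.1, hn.2.le⟩
      exact_mod_cast Finset.card_le_card this
    have h9 : 2 * h * (((Finset.Icc 1 N).filter
        (fun n => η < |ord (σ n) - (c - ord n)|)).card : ℝ) ≤ 4 * Real.pi * a * κ * C * T := by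
      calc 2 * h * (((Finset.Icc 1 N).filter
          (fun n => η < |ord (σ n) - (c - ord n)|)).card : ℝ) ≤ 2 * h * (κ * (C * (T * L))) := by
            apply mul_le_mul_of_nonneg_left _ (by positivity)
            exact h8.trans (mul_le_mul_of_nonneg_left hNup hκ0.le)
        _ = 4 * Real.pi * a * κ * C * T := by rw [hh]; field_simp; ring
    have h10 : 2 * η * N ≤ 2 * κ * C * T := by
      have k1 : η ≤ κ / L := div_le_div_of_nonneg_left hκ0.le hL0 hNT.1
      calc 2 * η * N ≤ 2 * (κ / L) * (C * (T * L)) := by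
            apply mul_le_mul _ hNup (by positivity) (by positivity)
            linarith
        _ = 2 * κ * C * T := by field_simp
    have h11 : 4 * Real.pi * a * κ * C * T + 2 * κ * C * T ≤ T / 8 := by
      have k1 : κ * C * (16 * (2 * Real.pi * a + 1)) ≤ 1 := by
        refine le_trans ?_ hκ2
        have : 0 ≤ κ * (16 * (2 * Real.pi * a + 1)) := by positivity
        linarith
      have k2 := mul_le_mul_of_nonneg_left k1 hT0.le
      linarith
    linarith

/-- from the sequence to the set of the ordinates, for one map of the line -/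
lemma set_of_seq {T δ κ : ℝ} {φ : ℝ → ℝ} (hφ : Function.Injective φ) (hδ : 0 < δ)
    (hN : ∀ σ : ℕ → ℕ, (∀ n ∈ Finset.Icc 1 (NZ T), σ n ∈ Finset.Icc 1 (NZ T)) →
      Set.InjOn σ (Finset.Icc 1 (NZ T)) →
      κ * (NZ T : ℕ) ≤ (((Finset.Icc 1 (NZ T)).filter
        (fun n => δ ≤ |ord (σ n) - φ (ord n)|)).card : ℝ)) :
    ({x : ℝ | x ∈ Om ∧ x ≤ T ∧ φ x ∈ Om ∧ φ x ≤ T}.ncard : ℝ) ≤ (1 - κ) * NZ T := by
  classical
  set N := NZ T with hNdef
  choose! ι hι1 hι2 using fun (x : ℝ) (hx : x ∈ Om) => exists_ord hx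
  set A : Set ℝ := {x : ℝ | x ∈ Om ∧ x ≤ T ∧ φ x ∈ Om ∧ φ x ≤ T} with hA
  have hmem : ∀ x ∈ Om, x ≤ T → ι x ∈ Finset.Icc 1 N := by
    intro x hx hxT
    rw [Finset.mem_Icc]
    refine ⟨hι1 x hx, ?_⟩
    apply (SG.ord_le_iff (hι1 x hx) T).1
    rw [hι2 x hx]; exact hxT
  have hinj : Set.InjOn ι Om := by
    intro x hx y hy hxy
    rw [← hι2 x hx, ← hι2 y hy, hxy]
  have hAsub : ι '' A ⊆ (Finset.Icc 1 N : Finset ℕ) := by
    rintro _ ⟨x, hx, rfl⟩
    exact hmem x hx.1 hx.2.1
  have hfin : (ι '' A).Finite := (Finset.finite_toSet _).subset hAsub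
  have hcard : A.ncard = hfin.toFinset.card := by
    rw [← Set.ncard_image_of_injOn (hinj.mono fun x hx => hx.1), Set.ncard_eq_toFinset_card _ hfin]
  set S : Finset ℕ := hfin.toFinset with hS
  have hSmem : ∀ n ∈ S, ∃ x ∈ A, ι x = n := by
    intro n hn
    rw [hS, Set.Finite.mem_toFinset] at hn
    exact hn
  have hSord : ∀ n ∈ S, ord n ∈ A ∧ ι (ord n) = n := by
    intro n hn
    obtain ⟨x, hx, rfl⟩ := hSmem n hn
    rw [hι2 x hx.1]
    exact ⟨hx, rfl⟩
  have hSsub : S ⊆ Finset.Icc 1 N := by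
    intro n hn
    obtain ⟨x, hx, rfl⟩ := hSmem n hn
    exact hmem x hx.1 hx.2.1
  -- the extension to a permutation
  set α := {n : ℕ // n ∈ Finset.Icc 1 N}
  set f : α → ℕ := fun n => ι (φ (ord n)) with hf
  set s : Finset α := Finset.univ.filter (fun n : α => (n : ℕ) ∈ S) with hs
  have h1 : Finset.image f s ⊆ Finset.Icc 1 N := by
    intro m hm
    rw [Finset.mem_image] at hm
    obtain ⟨n, hn, rfl⟩ := hm
    have hnS : (n : ℕ) ∈ S := (Finset.mem_filter.1 hn).2
    obtain ⟨h2, _⟩ := hSord _ hnS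
    exact hmem _ h2.2.2.1 h2.2.2.2
  have h2 : Set.InjOn f s := by
    intro n hn m hm hnm
    have hnS : (n : ℕ) ∈ S := (Finset.mem_filter.1 hn).2
    have hmS : (m : ℕ) ∈ S := (Finset.mem_filter.1 hm).2
    obtain ⟨k1, k1'⟩ := hSord _ hnS
    obtain ⟨k2, k2'⟩ := hSord _ hmS
    have k3 := hinj k1.2.2.1 k2.2.2.1 hnm
    have k4 : ord n = ord m := hφ k3
    apply Subtype.ext
    rw [← k1', ← k2', k4]
  obtain ⟨g, hg⟩ := Finset.exists_equiv_extend_of_card_eq (α := α) (t := Finset.Icc 1 N)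
    (by simp [α]) h1 h2
  set σ : ℕ → ℕ := fun n => if hn : n ∈ Finset.Icc 1 N then (g ⟨n, hn⟩ : ℕ) else n with hσ
  have hσ1 : ∀ n ∈ Finset.Icc 1 N, σ n ∈ Finset.Icc 1 N := by
    intro n hn
    simp only [hσ, dif_pos hn]
    exact (g ⟨n, hn⟩).2
  have hσ2 : Set.InjOn σ (Finset.Icc 1 N) := by
    intro n hn m hm hnm
    have hn' : n ∈ Finset.Icc 1 N := hn
    have hm' : m ∈ Finset.Icc 1 N := hm
    simp only [hσ, dif_pos hn', dif_pos hm'] at hnm
    have := g.injective (Subtype.ext hnm)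
    exact congrArg Subtype.val this
  have h3 := hN σ hσ1 hσ2
  have h4 : (Finset.Icc 1 N).filter (fun n => δ ≤ |ord (σ n) - φ (ord n)|) ⊆
      (Finset.Icc 1 N) \ S := by
    intro n hn
    rw [Finset.mem_filter] at hn
    rw [Finset.mem_sdiff]
    refine ⟨hn.1, fun hnS => ?_⟩
    have k1 : σ n = ι (φ (ord n)) := by
      simp only [hσ, dif_pos hn.1]
      exact hg ⟨n, hn.1⟩ (Finset.mem_filter.2 ⟨Finset.mem_univ _, hnS⟩)
    have k2 := hn.2
    rw [k1, hι2 _ (hSord n hnS).1.2.2.1, sub_self, abs_zero] at k2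
    linarith
  have h5 := Finset.card_le_card h4
  rw [Finset.card_sdiff_of_subset hSsub, Nat.card_Icc, Nat.add_sub_cancel] at h5
  have h6 : S.card ≤ N := by
    have := Finset.card_le_card hSsub
    rwa [Nat.card_Icc, Nat.add_sub_cancel] at this
  have h7 : (((Finset.Icc 1 N).filter (fun n => δ ≤ |ord (σ n) - φ (ord n)|)).card : ℝ) ≤
      N - S.card := by
    rw [← Nat.cast_sub h6]
    exact_mod_cast h5
  rw [hcard]
  linarith

lemma NZ_tendsto : Tendsto NZ atTop atTop := by
  rw [tendsto_atTop]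
  intro b
  filter_upwards [eventually_ge_atTop (ord (b + 1))] with T hT
  have := (SG.ord_le_iff (show 1 ≤ b + 1 by omega) T).1 hT
  omega

/-- the theorem for all isometries of the line -/
theorem isometries (tw : S_TWU) : ∃ κ : ℝ, 0 < κ ∧
    (∀ᶠ N : ℕ in atTop, ∀ c : ℝ, ∀ σ : ℕ → ℕ,
      (∀ n ∈ Finset.Icc 1 N, σ n ∈ Finset.Icc 1 N) → Set.InjOn σ (Finset.Icc 1 N) →
      (c ≠ 0 → κ * N ≤ (((Finset.Icc 1 N).filter
        (fun n => κ * min |c| (1 / Real.log N) ≤ |ord (σ n) - (ord n + c)|)).card : ℝ)) ∧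
      κ * N ≤ (((Finset.Icc 1 N).filter
        (fun n => κ / Real.log N ≤ |ord (σ n) - (c - ord n)|)).card : ℝ)) ∧
    (∀ᶠ T : ℝ in atTop, ∀ φ : ℝ → ℝ, Isometry φ → φ ≠ id →
      ({x : ℝ | x ∈ Om ∧ x ≤ T ∧ φ x ∈ Om ∧ φ x ≤ T}.ncard : ℝ) ≤ (1 - κ) * NZ T) := by
  obtain ⟨κ1, hκ1, h1⟩ := all tw
  obtain ⟨κ2, hκ2, h2⟩ := far_r tw
  set κ : ℝ := min κ1 κ2 with hκ
  have hκ0 : 0 < κ := lt_min hκ1 hκ2
  have hκa : κ ≤ κ1 := min_le_left _ _
  have hκb : κ ≤ κ2 := min_le_right _ _
  have h3 : ∀ᶠ N : ℕ in atTop, ∀ c : ℝ, ∀ σ : ℕ → ℕ,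
      (∀ n ∈ Finset.Icc 1 N, σ n ∈ Finset.Icc 1 N) → Set.InjOn σ (Finset.Icc 1 N) →
      (c ≠ 0 → κ * N ≤ (((Finset.Icc 1 N).filter
        (fun n => κ * min |c| (1 / Real.log N) ≤ |ord (σ n) - (ord n + c)|)).card : ℝ)) ∧
      κ * N ≤ (((Finset.Icc 1 N).filter
        (fun n => κ / Real.log N ≤ |ord (σ n) - (c - ord n)|)).card : ℝ) := by
    filter_upwards [h1, h2, eventually_ge_atTop 3] with N k1 k2 hN3 c σ hσ hσi
    have hN3' : (3 : ℝ) ≤ N := by exact_mod_cast hN3
    have hlog : 0 < Real.log N := Real.log_pos (by linarith)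
    have hmono : ∀ (g : ℕ → ℝ) (x y : ℝ), x ≤ y →
        (((Finset.Icc 1 N).filter (fun n => y ≤ g n)).card : ℝ) ≤
        (((Finset.Icc 1 N).filter (fun n => x ≤ g n)).card : ℝ) := by
      intro g x y hxy
      have : (Finset.Icc 1 N).filter (fun n => y ≤ g n) ⊆
          (Finset.Icc 1 N).filter (fun n => x ≤ g n) := by
        intro n hn
        rw [Finset.mem_filter] at hn ⊢
        exact ⟨hn.1, hxy.trans hn.2⟩
      exact_mod_cast Finset.card_le_card this
    constructor
    · intro hc0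
      have a1 := k1 c hc0 σ hσ hσi
      have hm0 : 0 < min |c| (1 / Real.log N) := lt_min (abs_pos.2 hc0) (by positivity)
      have a2 := hmono (fun n => |ord (σ n) - (ord n + c)|) (κ * min |c| (1 / Real.log N))
        (κ1 * min |c| (1 / Real.log N)) (mul_le_mul_of_nonneg_right hκa hm0.le)
      have a3 : κ * N ≤ κ1 * N := mul_le_mul_of_nonneg_right hκa (by linarith)
      exact a3.trans (a1.trans a2)
    · have a1 := k2 c σ hσ hσi
      have a2 := hmono (fun n => |ord (σ n) - (c - ord n)|) (κ / Real.log N)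
        (κ2 / Real.log N) (div_le_div_of_nonneg_right hκb hlog.le)
      have a3 : κ * N ≤ κ2 * N := mul_le_mul_of_nonneg_right hκb (by linarith)
      exact a3.trans (a1.trans a2)
  refine ⟨κ, hκ0, h3, ?_⟩
  filter_upwards [NZ_tendsto.eventually (h3.and (eventually_ge_atTop 3))] with T hT φ hφ hφi
  obtain ⟨hN, hN3⟩ := hT
  have hN3' : (3 : ℝ) ≤ (NZ T : ℕ) := by exact_mod_cast hN3
  have hlog : 0 < Real.log (NZ T : ℕ) := Real.log_pos (by linarith)
  have hcls : (∀ x, φ x = x + φ 0) ∨ (∀ x, φ x = φ 0 - x) := by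
    have hd : ∀ x y : ℝ, |φ x - φ y| = |x - y| := by
      intro x y
      have := hφ.dist_eq x y
      rwa [Real.dist_eq, Real.dist_eq] at this
    have hx : ∀ x : ℝ, φ x = φ 0 + x ∨ φ x = φ 0 - x := by
      intro x
      have := hd x 0
      rw [sub_zero] at this
      rcases abs_eq_abs.1 this with k | k
      · left; linarith
      · right; linarith
    rcases hx 1 with k1 | k1
    · left
      intro x
      rcases hx x with k | k
      · linarith
      · have k2 := hd x 1
        rw [k, k1] at k2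
        rcases abs_eq_abs.1 k2 with k3 | k3
        · have : x = 0 := by linarith
          rw [this] at k ⊢
          linarith
        · linarith
    · right
      intro x
      rcases hx x with k | k
      · have k2 := hd x 1
        rw [k, k1] at k2
        rcases abs_eq_abs.1 k2 with k3 | k3
        · linarith
        · have : x = 0 := by linarith
          rw [this] at k ⊢
          linarith
      · exact k
  rcases hcls with hc | hc
  · have hc0 : φ 0 ≠ 0 := by
      intro h0
      apply hφi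
      funext x
      rw [hc, h0, add_zero, id]
    have hδ : 0 < κ * min |φ 0| (1 / Real.log (NZ T : ℕ)) :=
      mul_pos hκ0 (lt_min (abs_pos.2 hc0) (by positivity))
    refine set_of_seq hφ.injective hδ fun σ hσ hσi => ?_
    have k1 := (hN (φ 0) σ hσ hσi).1 hc0
    have e : ∀ n, |ord (σ n) - φ (ord n)| = |ord (σ n) - (ord n + φ 0)| := fun n => by
      rw [hc (ord n)]
    simp only [e]
    exact k1
  · have hδ : 0 < κ / Real.log (NZ T : ℕ) := div_pos hκ0 hlog
    refine set_of_seq hφ.injective hδ fun σ hσ hσi => ?_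
    have k1 := (hN (φ 0) σ hσ hσi).2
    have e : ∀ n, |ord (σ n) - φ (ord n)| = |ord (σ n) - (φ 0 - ord n)| := fun n => by
      rw [hc (ord n)]
    simp only [e]
    exact k1

end Pool.Agent.U125.UT
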