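import Pool.Agent.W66.PD0
import Pool.Agent.Y726.AFTW
import Pool.Agent.W66.PG

/-!
# Uniform translates: the transform of the hat function at the integers, summed by parts
-/

set_option autoImplicit false

namespace Pool.Agent.U125.UT

open Complex MeasureTheory Set
open Pool.Agent.W66 (hat hat_nonneg hat_le_one hat_zero_of hat_continuous hat_partition PT PS La)
open Pool.Agent.Y726.TW (f f_le f_lip)

/-- the first differences of `W` are the transforms of the hat functions -/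
noncomputable def W (c : ℝ) (k : ℕ) : ℂ :=
  (cexp (((-(c * k) : ℝ) : ℂ) * I) - cexp (((-(c * (k - 1)) : ℝ) : ℂ) * I)) / (((-c : ℝ) : ℂ) * I) ^ 2

lemma W_norm {c : ℝ} (hc : c ≠ 0) (k : ℕ) : ‖W c k‖ ≤ 1 / |c| := by
  have hc0 : 0 < |c| := abs_pos.2 hc
  unfold W
  rw [norm_div, norm_pow, norm_mul, Complex.norm_I, mul_one, Complex.norm_real, Real.norm_eq_abs,
    abs_neg]
  have e : cexp (((-(c * k) : ℝ) : ℂ) * I) - cexp (((-(c * (k - 1)) : ℝ) : ℂ) * I) =
      cexp (((-(c * (k - 1)) : ℝ) : ℂ) * I) * (cexp (I * ((-c : ℝ) : ℂ)) - 1) := by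
    have e0 : cexp (((-(c * k) : ℝ) : ℂ) * I) =
        cexp (((-(c * (k - 1)) : ℝ) : ℂ) * I) * cexp (I * ((-c : ℝ) : ℂ)) := by
      rw [← Complex.exp_add]
      congr 1
      push_cast
      ring
    rw [e0]
    ring
  have h1 : ‖cexp (((-(c * k) : ℝ) : ℂ) * I) - cexp (((-(c * (k - 1)) : ℝ) : ℂ) * I)‖ ≤ |c| := by
    rw [e, norm_mul, Complex.norm_exp_ofReal_mul_I, one_mul]
    have := Real.norm_exp_I_mul_ofReal_sub_one_le (x := -c)
    rw [Real.norm_eq_abs, abs_neg] at this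
    exact this
  rw [div_le_div_iff₀ (by positivity) hc0, one_mul, sq]
  exact mul_le_mul_of_nonneg_right h1 hc0.le

lemma hat_left {u v : ℝ} (h1 : u - 1 ≤ v) (h2 : v ≤ u) : hat (u - v) = v - u + 1 := by
  unfold hat
  rw [abs_of_nonneg (by linarith), max_eq_left (by linarith)]
  ring

lemma hat_right {u v : ℝ} (h1 : u ≤ v) (h2 : v ≤ u + 1) : hat (u - v) = u + 1 - v := by
  unfold hat
  rw [abs_of_nonpos (by linarith), max_eq_left (by linarith)]
  ring

lemma PT_eq {c : ℝ} (hc : c ≠ 0) {k : ℕ} (hk : 1 ≤ k) : PT k c = W c (k + 1) - W c k := by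
  have hkR : (1 : ℝ) ≤ k := by exact_mod_cast hk
  set α : ℂ := ((-c : ℝ) : ℂ) * I with hα
  have hα0 : α ≠ 0 := by
    rw [hα]
    refine mul_ne_zero ?_ I_ne_zero
    exact_mod_cast neg_ne_zero.2 hc
  set F : ℝ → ℂ := fun v => cexp (-(((c * v : ℝ) : ℂ) * I)) * ((hat (k - v) : ℝ) : ℂ) with hF
  have hFc : Continuous F := by
    rw [hF]
    exact (by fun_prop : Continuous fun v : ℝ => cexp (-(((c * v : ℝ) : ℂ) * I))).mul
      (Complex.continuous_ofReal.comp (hat_continuous.comp (by fun_prop)))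
  have e0 : PT k c = ∫ v in ((k : ℝ) - 1)..((k : ℝ) + 1), F v := by
    rw [intervalIntegral.integral_of_le (by linarith)]
    unfold PT
    apply setIntegral_eq_of_subset_of_forall_sdiff_eq_zero measurableSet_Ioi
    · intro v hv
      have : (k : ℝ) - 1 < v := hv.1
      exact lt_of_le_of_lt (by linarith) this
    · rintro v ⟨_, hv2⟩
      rw [Set.mem_Ioc, not_and_or, not_lt, not_le] at hv2
      have : hat ((k : ℝ) - v) = 0 := by
        apply hat_zero_of
        rcases hv2 with h | h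
        · rw [abs_of_nonneg (by linarith)]; linarith
        · rw [abs_of_nonpos (by linarith)]; linarith
      rw [this, Complex.ofReal_zero, mul_zero]
  have hexp : ∀ v : ℝ, cexp (-(((c * v : ℝ) : ℂ) * I)) = cexp (α * v) := by
    intro v
    congr 1
    rw [hα]
    push_cast
    ring
  have hde : ∀ v : ℝ, HasDerivAt (fun v : ℝ => cexp (α * v)) (cexp (α * v) * α) v := by
    intro v
    have h1 : HasDerivAt (fun v : ℝ => α * (v : ℂ)) α v := by
      simpa using (Complex.ofRealCLM.hasDerivAt (x := v)).const_mul α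
    exact h1.cexp
  have hdv : ∀ v : ℝ, HasDerivAt (fun v : ℝ => (v : ℂ)) 1 v := fun v =>
    Complex.ofRealCLM.hasDerivAt (x := v)
  have i1 : ∫ v in ((k : ℝ) - 1)..(k : ℝ), F v =
      cexp (α * k) * (1 / α - 1 / α ^ 2) + cexp (α * ((k : ℝ) - 1 : ℝ)) / α ^ 2 := by
    have h1 : ∫ v in ((k : ℝ) - 1)..(k : ℝ), F v =
        ∫ v in ((k : ℝ) - 1)..(k : ℝ), cexp (α * v) * ((v : ℂ) - k + 1) := by
      refine intervalIntegral.integral_congr fun v hv => ?_
      rw [uIcc_of_le (by linarith)] at hv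
      simp only [hF]
      rw [hexp, hat_left hv.1 hv.2]
      push_cast
      ring
    have h2 : ∀ v ∈ uIcc ((k : ℝ) - 1) (k : ℝ), HasDerivAt
        (fun v : ℝ => cexp (α * v) * (((v : ℂ) - k + 1) / α - 1 / α ^ 2))
        (cexp (α * v) * ((v : ℂ) - k + 1)) v := by
      intro v _
      have h3 := (hde v).mul (((((hdv v).sub_const (k : ℂ)).add_const 1).div_const α).sub_const
        (1 / α ^ 2))
      refine h3.congr_deriv ?_
      field_simp
      ring
    rw [h1, intervalIntegral.integral_eq_sub_of_hasDerivAt h2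
      (Continuous.intervalIntegrable (by fun_prop) _ _)]
    push_cast
    field_simp
    ring
  have i2 : ∫ v in (k : ℝ)..((k : ℝ) + 1), F v =
      cexp (α * ((k : ℝ) + 1 : ℝ)) / α ^ 2 - cexp (α * k) * (1 / α + 1 / α ^ 2) := by
    have h1 : ∫ v in (k : ℝ)..((k : ℝ) + 1), F v =
        ∫ v in (k : ℝ)..((k : ℝ) + 1), cexp (α * v) * ((k : ℂ) + 1 - v) := by
      refine intervalIntegral.integral_congr fun v hv => ?_
      rw [uIcc_of_le (by linarith)] at hv
      simp only [hF]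
      rw [hexp, hat_right hv.1 hv.2]
      push_cast
      ring
    have h2 : ∀ v ∈ uIcc (k : ℝ) ((k : ℝ) + 1), HasDerivAt
        (fun v : ℝ => cexp (α * v) * (((k : ℂ) + 1 - v) / α + 1 / α ^ 2))
        (cexp (α * v) * ((k : ℂ) + 1 - v)) v := by
      intro v _
      have h3 := (hde v).mul ((((hdv v).const_sub ((k : ℂ) + 1)).div_const α).add_const
        (1 / α ^ 2))
      refine h3.congr_deriv ?_
      field_simp
      ring
    rw [h1, intervalIntegral.integral_eq_sub_of_hasDerivAt h2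
      (Continuous.intervalIntegrable (by fun_prop) _ _)]
    push_cast
    field_simp
    ring
  rw [e0, ← intervalIntegral.integral_add_adjacent_intervals
    (hFc.intervalIntegrable ((k : ℝ) - 1) (k : ℝ)) (hFc.intervalIntegrable (k : ℝ) ((k : ℝ) + 1)),
    i1, i2]
  unfold W
  rw [← hα]
  have e1 : (((-(c * ((k + 1 : ℕ) : ℝ)) : ℝ) : ℂ) * I) = α * ((k : ℝ) + 1 : ℝ) := by
    rw [hα]; push_cast; ring
  have e2 : (((-(c * (((k + 1 : ℕ) : ℝ) - 1)) : ℝ) : ℂ) * I) = α * k := by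
    rw [hα]; push_cast; ring
  have e3 : (((-(c * (k : ℝ)) : ℝ) : ℂ) * I) = α * k := by
    rw [hα]; push_cast; ring
  have e4 : (((-(c * ((k : ℝ) - 1)) : ℝ) : ℂ) * I) = α * ((k : ℝ) - 1 : ℝ) := by
    rw [hα]; push_cast; ring
  rw [e1, e2, e3, e4]
  field_simp
  ring

lemma abelW (W : ℕ → ℂ) (g : ℕ → ℝ) (a n : ℕ) :
    ∑ k ∈ Finset.Icc a (a + n), (g k : ℂ) * (W (k + 1) - W k) =
      (g (a + n) : ℂ) * W (a + n + 1) - (g a : ℂ) * W a -
        ∑ k ∈ Finset.range n, ((g (a + k + 1) - g (a + k) : ℝ) : ℂ) * W (a + k + 1) := by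
  induction n with
  | zero => simp; ring
  | succ n ih =>
    rw [← Nat.add_assoc, Finset.sum_Icc_succ_top (by omega), ih, Finset.sum_range_succ]
    push_cast
    ring

/-- the sums of the transforms with the weights `f h k` -/
theorem sum_PT {h c : ℝ} (hh : 0 < h) (hc : c ≠ 0) {a b : ℕ} (ha : 1 ≤ a) :
    ‖∑ k ∈ Finset.Icc a b, ((f h k : ℝ) : ℂ) * PT k c‖ ≤ 1 / |c| * (h + h ^ 2 * b) := by
  have hc0 : 0 < |c| := abs_pos.2 hc
  rcases lt_or_ge b a with hab | hab
  · rw [Finset.Icc_eq_empty_of_lt hab, Finset.sum_empty, norm_zero]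
    positivity
  obtain ⟨n, rfl⟩ := Nat.exists_eq_add_of_le hab
  have haR : (1 : ℝ) ≤ a := by exact_mod_cast ha
  have e : ∑ k ∈ Finset.Icc a (a + n), ((f h k : ℝ) : ℂ) * PT k c =
      ∑ k ∈ Finset.Icc a (a + n), ((f h k : ℝ) : ℂ) * (W c (k + 1) - W c k) := by
    refine Finset.sum_congr rfl fun k hk => ?_
    rw [PT_eq hc (by have := (Finset.mem_Icc.1 hk).1; omega)]
  rw [e, abelW (W c) (fun k : ℕ => f h (k : ℝ)) a n]
  have b1 : ‖((f h ((a + n : ℕ) : ℝ) : ℝ) : ℂ) * W c (a + n + 1)‖ ≤ h / 2 * (1 / |c|) := by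
    have h1 := f_le hh (x := ((a + n : ℕ) : ℝ)) (by push_cast; positivity)
    rw [norm_mul, Complex.norm_real, Real.norm_of_nonneg h1.1]
    exact mul_le_mul h1.2 (W_norm hc _) (norm_nonneg _) (by positivity)
  have b2 : ‖((f h (a : ℝ) : ℝ) : ℂ) * W c a‖ ≤ h / 2 * (1 / |c|) := by
    have h1 := f_le hh (x := (a : ℝ)) (by linarith)
    rw [norm_mul, Complex.norm_real, Real.norm_of_nonneg h1.1]
    exact mul_le_mul h1.2 (W_norm hc _) (norm_nonneg _) (by positivity)
  have b3 : ‖∑ k ∈ Finset.range n, ((f h ((a + k + 1 : ℕ) : ℝ) - f h ((a + k : ℕ) : ℝ) : ℝ) : ℂ) *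
      W c (a + k + 1)‖ ≤ n * (h ^ 2 * (1 / |c|)) := by
    refine (norm_sum_le _ _).trans ?_
    have : ∀ k ∈ Finset.range n, ‖((f h ((a + k + 1 : ℕ) : ℝ) - f h ((a + k : ℕ) : ℝ) : ℝ) : ℂ) *
        W c (a + k + 1)‖ ≤ h ^ 2 * (1 / |c|) := by
      intro k _
      have h1 := f_lip hh (x := ((a + k : ℕ) : ℝ)) (y := ((a + k + 1 : ℕ) : ℝ))
        (by push_cast; positivity) (by push_cast; linarith)
      rw [norm_mul, Complex.norm_real, Real.norm_eq_abs]
      refine mul_le_mul (h1.trans (le_of_eq ?_)) (W_norm hc _) (norm_nonneg _) (by positivity)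
      push_cast
      ring
    refine (Finset.sum_le_sum this).trans (le_of_eq ?_)
    rw [Finset.sum_const, Finset.card_range, nsmul_eq_mul]
  refine (norm_sub_le _ _).trans ?_
  refine (add_le_add (norm_sub_le _ _) b3).trans ?_
  have h4 : (n : ℝ) ≤ ((a + n : ℕ) : ℝ) := by push_cast; linarith
  have h5 : (n : ℝ) * (h ^ 2 * (1 / |c|)) ≤ ((a + n : ℕ) : ℝ) * (h ^ 2 * (1 / |c|)) :=
    mul_le_mul_of_nonneg_right h4 (by positivity)
  have h6 : 1 / |c| * (h + h ^ 2 * ((a + n : ℕ) : ℝ)) =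
      h / 2 * (1 / |c|) + h / 2 * (1 / |c|) + ((a + n : ℕ) : ℝ) * (h ^ 2 * (1 / |c|)) := by ring
  rw [h6]
  linarith

end Pool.Agent.U125.UT
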