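import Pool.Agent.U125.UT.Fin

/-!
# Uniform translates: small translations, the theorem for all translations, the set of the ordinates
-/

set_option autoImplicit false

namespace Pool.Agent.U125.UT

open Filter Topology MeasureTheory
open SG (NZ ord)
open Pool.Agent.Y743.AF

lemma int_ind {A B a b : ℝ} (hAa : A < a) (hab : a ≤ b) (hbB : b ≤ B) :
    ∫ t in A..B, (Set.Ico a b).indicator (fun _ => (1 : ℝ)) t = b - a := by
  rw [intervalIntegral.integral_of_le (by linarith), setIntegral_indicator measurableSet_Ico]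
  have : Set.Ioc A B ∩ Set.Ico a b = Set.Ico a b := by
    apply Set.inter_eq_right.2
    intro x hx
    exact ⟨lt_of_lt_of_le hAa hx.1, hx.2.le.trans hbB⟩
  rw [this, setIntegral_const, smul_eq_mul, mul_one, Real.volume_real_Ico_of_le hab]

lemma ind_ii (A B a b : ℝ) :
    IntervalIntegrable ((Set.Ico a b).indicator (fun _ => (1 : ℝ))) volume A B := by
  rw [intervalIntegrable_iff]
  exact (integrableOn_const (by
    rw [Set.uIoc]
    exact measure_Ioc_lt_top.ne)).indicator measurableSet_Ico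

/-- the iterates of `σ` at `n` are different -/
lemma chain {J : ℕ} {σ : ℕ → ℕ} {c w : ℝ} {n : ℕ} (hc : c ≠ 0) (hw : 4 * J * w ≤ |c|)
    (hw0 : 0 ≤ w) (hd : ∀ j ≤ J, |ord (σ^[j] n) - (ord n + j * c)| ≤ j * w) :
    Set.InjOn (fun j => σ^[j] n) (Finset.range (J + 1)) := by
  have key : ∀ i j : ℕ, i < j → j ≤ J → σ^[i] n ≠ σ^[j] n := by
    intro i j hij hj heq
    have h1 := hd i (by omega)
    have h2 := hd j hj
    rw [← heq] at h2
    have hcp : 0 < |c| := abs_pos.2 hc
    have h3 : |((j : ℝ) - i) * c| ≤ (i + j) * w := by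
      have h4 := abs_sub (ord (σ^[i] n) - (ord n + i * c)) (ord (σ^[i] n) - (ord n + j * c))
      have e : ord (σ^[i] n) - (ord n + i * c) - (ord (σ^[i] n) - (ord n + j * c)) =
        ((j : ℝ) - i) * c := by ring
      rw [e] at h4
      linarith
    rw [abs_mul] at h3
    have h5 : (1 : ℝ) ≤ |(j : ℝ) - i| := by
      have : (i : ℝ) + 1 ≤ j := by exact_mod_cast hij
      rw [abs_of_nonneg (by linarith)]
      linarith
    have h6 : ((i : ℝ) + j) ≤ 2 * J := by
      have a1 : (i : ℝ) ≤ J := by exact_mod_cast (by omega : i ≤ J)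
      have a2 : (j : ℝ) ≤ J := by exact_mod_cast hj
      linarith
    have h7 : ((i : ℝ) + j) * w ≤ 2 * J * w := mul_le_mul_of_nonneg_right h6 hw0
    have h8 : 1 * |c| ≤ |(j : ℝ) - i| * |c| := mul_le_mul_of_nonneg_right h5 hcp.le
    linarith
  intro i hi j hj hij
  have hi' : i ≤ J := by
    have := Finset.mem_range.1 (Finset.mem_coe.1 hi); omega
  have hj' : j ≤ J := by
    have := Finset.mem_range.1 (Finset.mem_coe.1 hj); omega
  rcases lt_trichotomy i j with h | h | h
  · exact absurd hij (key i j h hj')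
  · exact h
  · exact absurd hij.symm (key j i h hi')

lemma win_low : ∀ᶠ T : ℝ in atTop, ∀ x : ℝ, 0 ≤ x → x ≤ 1 →
    T * Real.log T / (8 * Real.pi) ≤ (NZ (7 / 4 * T) : ℝ) - NZ (5 / 4 * T + x) := by
  obtain ⟨C, T1, hC, hT1, hup⟩ := NZ_up1
  obtain ⟨T2, hlow⟩ := W200.HW.NZ_lower (1 / 16) (by norm_num)
  have hpi := Real.pi_gt_three
  filter_upwards [eventually_ge_atTop T1, eventually_ge_atTop T2, eventually_ge_atTop (16 : ℝ),
    Real.tendsto_log_atTop.eventually_ge_atTop (100 * (1 + 2 * Real.pi * C))] with T h1 h2 h3 h4 x hx0 hx1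
  have hT0 : 0 < T := by linarith
  set L := Real.log T with hL
  have hL0 : 0 < L := lt_of_lt_of_le (by positivity) h4
  have k1 := hlow (7 / 4 * T) (by linarith)
  have k2 := hup (5 / 4 * T + x) (by linarith)
  have k3 : L ≤ Real.log (7 / 4 * T) := Real.log_le_log hT0 (by linarith)
  have k4 : 5 / 4 * T + x ≤ 21 / 16 * T := by linarith
  have k5 : Real.log (5 / 4 * T + x) ≤ L + 1 := by
    have h5 : Real.log (5 / 4 * T + x) ≤ Real.log (T * Real.exp 1) := by
      apply Real.log_le_log (by linarith)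
      have := Real.exp_one_gt_d9
      nlinarith
    rw [Real.log_mul hT0.ne' (Real.exp_pos 1).ne', Real.log_exp] at h5
    exact h5
  have k6 : (5 / 4 * T + x) * Real.log (5 / 4 * T + x) / (2 * Real.pi) ≤
      21 / 16 * T * (L + 1) / (2 * Real.pi) := by
    apply div_le_div_of_nonneg_right _ (by positivity)
    apply mul_le_mul k4 k5 _ (by positivity)
    exact Real.log_nonneg (by linarith)
  have k7 : C * (5 / 4 * T + x) ≤ C * (21 / 16 * T) := mul_le_mul_of_nonneg_left k4 hC.le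
  have k8 : 7 / 4 * T / (2 * Real.pi) * L ≤ 7 / 4 * T / (2 * Real.pi) * Real.log (7 / 4 * T) :=
    mul_le_mul_of_nonneg_left k3 (by positivity)
  have k9 : (1 - 1 / 16) * (7 / 4 * T / (2 * Real.pi) * L) ≤ NZ (7 / 4 * T) := by
    refine le_trans ?_ k1
    apply mul_le_mul_of_nonneg_left k8 (by norm_num)
  -- everything in units of `T / (2 * pi)`
  have e1 : (1 - 1 / 16) * (7 / 4 * T / (2 * Real.pi) * L) = T / (2 * Real.pi) * (105 / 64 * L) := by
    ring
  have e2 : 21 / 16 * T * (L + 1) / (2 * Real.pi) = T / (2 * Real.pi) * (21 / 16 * (L + 1)) := by ring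
  have e3 : C * (21 / 16 * T) = T / (2 * Real.pi) * (21 / 16 * (2 * Real.pi * C)) := by
    field_simp
  have e4 : T * L / (8 * Real.pi) = T / (2 * Real.pi) * (1 / 4 * L) := by
    field_simp; ring
  have k10 : T / (2 * Real.pi) * (1 / 4 * L + 21 / 16 * (L + 1) + 21 / 16 * (2 * Real.pi * C)) ≤
      T / (2 * Real.pi) * (105 / 64 * L) := by
    apply mul_le_mul_of_nonneg_left _ (by positivity)
    linarith
  rw [e4]
  rw [e1] at k9
  rw [e2] at k6
  rw [e3] at k7
  rw [mul_add, mul_add] at k10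
  linarith

/-- the bound for the small translations -/
theorem near : ∃ η κ : ℝ, 0 < η ∧ 0 < κ ∧ ∀ᶠ N : ℕ in atTop, ∀ c : ℝ,
    c ≠ 0 → |c| ≤ η / Real.log N → ∀ σ : ℕ → ℕ,
    (∀ n ∈ Finset.Icc 1 N, σ n ∈ Finset.Icc 1 N) → Set.InjOn σ (Finset.Icc 1 N) →
    κ * N ≤ (((Finset.Icc 1 N).filter
      (fun n => κ * |c| ≤ |ord (σ n) - (ord n + c)|)).card : ℝ) := by
  classical
  obtain ⟨a, C2, ha, hC2, hsec⟩ := second Pool.Agent.Y474.CR2.cr2
  obtain ⟨C, T1, hC, hT1, hup⟩ := SP.PosProp.NZ_up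
  have hpi := Real.pi_gt_three
  obtain ⟨J, hJ⟩ := exists_nat_gt (16 * C2)
  have hJ0 : (0 : ℝ) < J := lt_trans (by positivity) hJ
  have hJ1 : (1 : ℝ) ≤ J := by
    have : 0 < J := by exact_mod_cast hJ0
    exact_mod_cast this
  set κ : ℝ := min (1 / (4 * J)) (1 / (16 * Real.pi * C * J)) with hκ
  have hκ0 : 0 < κ := lt_min (by positivity) (by positivity)
  have hκ1 : 4 * J * κ ≤ 1 := by
    have := min_le_left (1 / (4 * (J : ℝ))) (1 / (16 * Real.pi * C * J))
    rw [← hκ, le_div_iff₀ (by positivity)] at this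
    linarith
  have hκ2 : J * κ * C ≤ 1 / (16 * Real.pi) := by
    have := min_le_right (1 / (4 * (J : ℝ))) (1 / (16 * Real.pi * C * J))
    rw [← hκ, le_div_iff₀ (by positivity)] at this
    rw [le_div_iff₀ (by positivity)]
    linarith
  refine ⟨Real.pi * a / (4 * J), κ, by positivity, hκ0, ?_⟩
  have hTT : Tendsto (fun N : ℕ => ord N / 2) atTop atTop :=
    SG.ord_tendsto.atTop_div_const (by norm_num)
  filter_upwards [hTT.eventually hsec, hTT.eventually_ge_atTop T1,
    hTT.eventually_ge_atTop 10, log_N_le, hTT.eventually win_low,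
    (Real.tendsto_log_atTop.comp hTT).eventually_ge_atTop (4 * Real.pi * a + 1),
    eventually_ge_atTop 3] with N h1 h2 hT10 hNT hwin h4 hN3 c hc0 hc σ hσ hσi
  by_contra hcon
  push Not at hcon
  have hN1 : 1 ≤ N := by omega
  set T : ℝ := ord N / 2 with hT
  have hoN : ord N = 2 * T := by rw [hT]; ring
  have hT0 : 0 < T := by linarith
  obtain ⟨hii, hsec2⟩ := h1
  set L := Real.log T with hL
  have hL1 : 4 * Real.pi * a + 1 ≤ L := h4
  have hL0 : 0 < L := by
    have : 0 < 4 * Real.pi * a := by positivity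
    linarith
  set h : ℝ := 2 * Real.pi * a / L with hh
  have hh0 : 0 < h := by positivity
  have hh1 : h ≤ 1 / 2 := by
    rw [hh, div_le_iff₀ hL0]; linarith
  have hcp : 0 < |c| := abs_pos.2 hc0
  have hNr : (1 : ℝ) ≤ N := by exact_mod_cast hN1
  have hlogN : 0 < Real.log N := lt_of_lt_of_le hL0 hNT.1
  have hNup : (N : ℝ) ≤ C * (T * L) := by
    have h7 : N ≤ NZ (ord N) := SG.le_NZ_ord hN1
    rw [hoN] at h7
    have h8 : (N : ℝ) ≤ NZ (2 * T) := by exact_mod_cast h7
    exact h8.trans (hup T h2)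
  have hJc : J * |c| ≤ h / 8 := by
    have k1 : Real.pi * a / (4 * J) / Real.log N ≤ Real.pi * a / (4 * J) / L :=
      div_le_div_of_nonneg_left (by positivity) hL0 hNT.1
    have k2 := mul_le_mul_of_nonneg_left (hc.trans k1) hJ0.le
    refine k2.trans (le_of_eq ?_)
    rw [hh]; field_simp; ring
  set w : ℝ := κ * |c| with hw
  have hw0 : 0 ≤ w := by positivity
  have h4Jw : 4 * J * w ≤ |c| := by
    have := mul_le_mul_of_nonneg_right hκ1 hcp.le
    rw [hw]; linarith
  set Bad := (Finset.Icc 1 N).filter (fun n => w ≤ |ord (σ n) - (ord n + c)|) with hBad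
  set E := (Finset.Icc 1 N).filter (fun n => ∃ i ∈ Finset.range J, σ^[i] n ∈ Bad) with hE
  have hEcard : (E.card : ℝ) ≤ J * (κ * N) := by
    have k1 := iter_card hσ hσi Bad J
    have k2 : (E.card : ℝ) ≤ J * (Bad.card : ℝ) := by exact_mod_cast k1
    exact k2.trans (mul_le_mul_of_nonneg_left hcon.le hJ0.le)
  set Wn := (Finset.Icc 1 N).filter (fun n => 5 / 4 * T + h < ord n ∧ ord n ≤ 7 / 4 * T) with hWn
  have hWcard : T * L / (8 * Real.pi) ≤ (Wn.card : ℝ) := by
    rw [hWn, cnt_win (N := N) (x := 5 / 4 * T + h) (y := 7 / 4 * T) (by linarith)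
      (by rw [hoN]; linarith) hN1]
    exact hwin h hh0.le (by linarith)
  set Gd := Wn \ E with hGd
  have hGcard : T * L / (16 * Real.pi) ≤ (Gd.card : ℝ) := by
    have k1 : (Wn.card : ℝ) ≤ Gd.card + E.card := by
      have k0 := Finset.le_card_sdiff E Wn
      rw [← hGd] at k0
      have k2 : Wn.card ≤ Gd.card + E.card := by omega
      exact_mod_cast k2
    have k3 : J * (κ * N) ≤ T * L / (16 * Real.pi) := by
      calc J * (κ * N) ≤ J * (κ * (C * (T * L))) := by
            apply mul_le_mul_of_nonneg_left _ hJ0.le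
            exact mul_le_mul_of_nonneg_left hNup hκ0.le
        _ = J * κ * C * (T * L) := by ring
        _ ≤ 1 / (16 * Real.pi) * (T * L) := mul_le_mul_of_nonneg_right hκ2 (by positivity)
        _ = T * L / (16 * Real.pi) := by ring
    have k4 : T * L / (8 * Real.pi) = T * L / (16 * Real.pi) + T * L / (16 * Real.pi) := by
      field_simp; ring
    linarith
  have hGmem : ∀ n ∈ Gd, n ∈ Finset.Icc 1 N ∧ 5 / 4 * T + h < ord n ∧ ord n ≤ 7 / 4 * T ∧
      ∀ j ≤ J, |ord (σ^[j] n) - (ord n + j * c)| ≤ j * w := by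
    intro n hn
    rw [hGd, Finset.mem_sdiff, hWn, Finset.mem_filter] at hn
    obtain ⟨⟨hn1, hn2, hn3⟩, hn4⟩ := hn
    refine ⟨hn1, hn2, hn3, iter_dist hσ hn1 fun i hi hB => hn4 ?_⟩
    rw [hE, Finset.mem_filter]
    exact ⟨hn1, i, Finset.mem_range.2 hi, hB⟩
  -- the pointwise inequality
  have hpt : ∀ t ∈ Set.Icc (5 / 4 * T) (7 / 4 * T),
      ((J : ℝ) + 1) * ∑ n ∈ Gd, (Set.Ico (ord n - 3 * h / 4) (ord n - h / 4)).indicator
        (fun _ => (1 : ℝ)) t ≤ ((NZ (t + h) : ℝ) - NZ t) ^ 2 := by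
    rintro t ⟨ht1, ht2⟩
    have hcw := cnt_win (N := N) (x := t) (y := t + h) (by linarith) (by rw [hoN]; linarith) hN1
    rw [← hcw]
    set Wt := (Finset.Icc 1 N).filter (fun n => t < ord n ∧ ord n ≤ t + h) with hWt
    set Q := Gd.filter (fun n => t ∈ Set.Ico (ord n - 3 * h / 4) (ord n - h / 4)) with hQ
    have e1 : ∑ n ∈ Gd, (Set.Ico (ord n - 3 * h / 4) (ord n - h / 4)).indicator
        (fun _ => (1 : ℝ)) t = Q.card := by
      simp only [Set.indicator_apply]
      rw [Finset.sum_ite, Finset.sum_const_zero, add_zero, Finset.sum_const, nsmul_eq_mul, mul_one]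
    rw [e1]
    have hQW : Q ⊆ Wt := by
      intro n hn
      rw [hQ, Finset.mem_filter] at hn
      obtain ⟨k1, k2⟩ := hn
      rw [hWt, Finset.mem_filter]
      refine ⟨(hGmem n k1).1, ?_, ?_⟩
      · linarith [k2.2]
      · linarith [k2.1]
    have hQle : (Q.card : ℝ) ≤ Wt.card := by exact_mod_cast Finset.card_le_card hQW
    rcases Finset.eq_empty_or_nonempty Q with hQe | ⟨n, hn⟩
    · rw [hQe, Finset.card_empty, Nat.cast_zero, mul_zero]
      exact sq_nonneg _
    · rw [hQ, Finset.mem_filter] at hn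
      obtain ⟨k1, k2⟩ := hn
      obtain ⟨g1, g2, g3, g4⟩ := hGmem n k1
      have hJW : J + 1 ≤ Wt.card := by
        rw [← Finset.card_range (J + 1)]
        apply Finset.card_le_card_of_injOn (fun j => σ^[j] n) _ (chain hc0 h4Jw hw0 g4)
        intro j hj
        have hj' : j ≤ J := by
          have := Finset.mem_range.1 (Finset.mem_coe.1 hj); omega
        refine Finset.mem_coe.2 (Finset.mem_filter.2 ⟨iter_maps hσ j n g1, ?_⟩)
        have g5 := abs_le.1 (g4 j hj')
        have hjR : (j : ℝ) ≤ J := by exact_mod_cast hj'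
        have g6 : |(j : ℝ) * c| ≤ h / 8 := by
          rw [abs_mul, abs_of_nonneg (Nat.cast_nonneg j)]
          exact (mul_le_mul_of_nonneg_right hjR hcp.le).trans hJc
        have g7 : (j : ℝ) * w ≤ h / 8 := by
          have a1 : (j : ℝ) * w ≤ J * w := mul_le_mul_of_nonneg_right hjR hw0
          have a2 : (1 : ℝ) * |c| ≤ J * |c| := mul_le_mul_of_nonneg_right hJ1 hcp.le
          have a3 : 0 ≤ (J : ℝ) * w := by positivity
          linarith
        have g8 := abs_le.1 g6
        show t < ord (σ^[j] n) ∧ ord (σ^[j] n) ≤ t + h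
        constructor
        · linarith [g5.1, g8.1, k2.2]
        · linarith [g5.2, g8.2, k2.1]
      have hJW' : (J : ℝ) + 1 ≤ Wt.card := by exact_mod_cast hJW
      rw [sq]
      exact mul_le_mul hJW' hQle (Nat.cast_nonneg _) (Nat.cast_nonneg _)
  have hint : ((J : ℝ) + 1) * (Gd.card * (h / 2)) ≤ C2 * T := by
    have k1 : ∫ t in (5 / 4 * T)..(7 / 4 * T), ((J : ℝ) + 1) * ∑ n ∈ Gd,
        (Set.Ico (ord n - 3 * h / 4) (ord n - h / 4)).indicator (fun _ => (1 : ℝ)) t ≤
        ∫ t in (5 / 4 * T)..(7 / 4 * T), ((NZ (t + h) : ℝ) - NZ t) ^ 2 := by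
      refine intervalIntegral.integral_mono_on (by linarith) ?_ hii hpt
      have k0 := (IntervalIntegrable.sum (μ := volume) (a := 5 / 4 * T) (b := 7 / 4 * T) Gd
        (f := fun n => (Set.Ico (ord n - 3 * h / 4) (ord n - h / 4)).indicator (fun _ => (1 : ℝ)))
        (fun n _ => ind_ii (5 / 4 * T) (7 / 4 * T) _ _)).const_mul ((J : ℝ) + 1)
      simpa only [Finset.sum_apply] using k0
    have k2 : ∫ t in (5 / 4 * T)..(7 / 4 * T), ((J : ℝ) + 1) * ∑ n ∈ Gd,
        (Set.Ico (ord n - 3 * h / 4) (ord n - h / 4)).indicator (fun _ => (1 : ℝ)) t =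
        ((J : ℝ) + 1) * (Gd.card * (h / 2)) := by
      rw [intervalIntegral.integral_const_mul, intervalIntegral.integral_finsetSum
        fun n _ => ind_ii _ _ _ _]
      congr 1
      rw [Finset.sum_congr rfl fun n hn => ?_, Finset.sum_const, nsmul_eq_mul]
      obtain ⟨_, g2, g3, _⟩ := hGmem n hn
      rw [int_ind (by linarith) (by linarith) (by linarith)]
      ring
    rw [k2] at k1
    exact k1.trans hsec2
  have hfin : ((J : ℝ) + 1) * (T * a / 16) ≤ C2 * T := by
    refine le_trans ?_ hint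
    apply mul_le_mul_of_nonneg_left _ (by positivity)
    have k1 : T * L / (16 * Real.pi) * (h / 2) ≤ Gd.card * (h / 2) :=
      mul_le_mul_of_nonneg_right hGcard (by positivity)
    refine le_trans (le_of_eq ?_) k1
    rw [hh]; field_simp
  have k1 : ((J : ℝ) + 1) * (T * 1 / 16) ≤ ((J : ℝ) + 1) * (T * a / 16) := by
    apply mul_le_mul_of_nonneg_left _ (by positivity)
    apply div_le_div_of_nonneg_right _ (by norm_num)
    exact mul_le_mul_of_nonneg_left ha hT0.le
  have k2 : 16 * C2 * T < J * T := mul_lt_mul_of_pos_right hJ hT0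
  nlinarith

/-- the theorem for all translations -/
theorem all (tw : S_TWU) : ∃ κ : ℝ, 0 < κ ∧ ∀ᶠ N : ℕ in atTop, ∀ c : ℝ, c ≠ 0 → ∀ σ : ℕ → ℕ,
    (∀ n ∈ Finset.Icc 1 N, σ n ∈ Finset.Icc 1 N) → Set.InjOn σ (Finset.Icc 1 N) →
    κ * N ≤ (((Finset.Icc 1 N).filter
      (fun n => κ * min |c| (1 / Real.log N) ≤ |ord (σ n) - (ord n + c)|)).card : ℝ) := by
  obtain ⟨κ1, K, hκ1, hK, hfar⟩ := far tw
  obtain ⟨η, κ2, hη, hκ2, hnear⟩ := near
  obtain ⟨J, hJ⟩ := exists_nat_gt (K / η + 1)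
  have hJ0 : (0 : ℝ) < J := lt_trans (by positivity) hJ
  set κ : ℝ := min κ2 (min κ1 (κ1 / (2 * J))) with hκ
  have hκ0 : 0 < κ := lt_min hκ2 (lt_min hκ1 (by positivity))
  have hκa : κ ≤ κ2 := min_le_left _ _
  have hκb : κ ≤ κ1 := (min_le_right _ _).trans (min_le_left _ _)
  have hκc : κ * (2 * J) ≤ κ1 := by
    have : κ ≤ κ1 / (2 * J) := (min_le_right _ _).trans (min_le_right _ _)
    rwa [le_div_iff₀ (by positivity)] at this
  refine ⟨κ, hκ0, ?_⟩
  filter_upwards [hfar, hnear, eventually_ge_atTop 3] with N h1 h2 hN3 c hc0 σ hσ hσi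
  have hN3' : (3 : ℝ) ≤ N := by exact_mod_cast hN3
  have hlog : 0 < Real.log N := Real.log_pos (by linarith)
  have hcp : 0 < |c| := abs_pos.2 hc0
  have hm1 : min |c| (1 / Real.log N) ≤ |c| := min_le_left _ _
  have hm2 : min |c| (1 / Real.log N) ≤ 1 / Real.log N := min_le_right _ _
  have hm0 : 0 < min |c| (1 / Real.log N) := lt_min hcp (by positivity)
  have hmono : ∀ x y : ℝ, x ≤ y →
      (((Finset.Icc 1 N).filter (fun n => y ≤ |ord (σ n) - (ord n + c)|)).card : ℝ) ≤
      (((Finset.Icc 1 N).filter (fun n => x ≤ |ord (σ n) - (ord n + c)|)).card : ℝ) := by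
    intro x y hxy
    have : (Finset.Icc 1 N).filter (fun n => y ≤ |ord (σ n) - (ord n + c)|) ⊆
        (Finset.Icc 1 N).filter (fun n => x ≤ |ord (σ n) - (ord n + c)|) := by
      intro n hn
      rw [Finset.mem_filter] at hn ⊢
      exact ⟨hn.1, hxy.trans hn.2⟩
    exact_mod_cast Finset.card_le_card this
  rcases le_or_gt (K / Real.log N) |c| with hcK | hcK
  · have k1 := h1 c hcK σ hσ hσi
    have k2 := hmono (κ * min |c| (1 / Real.log N)) (κ1 / Real.log N) (by
      calc κ * min |c| (1 / Real.log N) ≤ κ1 * (1 / Real.log N) :=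
            mul_le_mul hκb hm2 hm0.le hκ1.le
        _ = κ1 / Real.log N := by ring)
    have k3 : κ * N ≤ κ1 * N := mul_le_mul_of_nonneg_right hκb (by linarith)
    linarith
  rcases le_or_gt |c| (η / Real.log N) with hcη | hcη
  · have k1 := h2 c hc0 hcη σ hσ hσi
    have k2 := hmono (κ * min |c| (1 / Real.log N)) (κ2 * |c|)
      (mul_le_mul hκa hm1 hm0.le hκ2.le)
    have k3 : κ * N ≤ κ2 * N := mul_le_mul_of_nonneg_right hκa (by linarith)
    linarith
  · -- the middle range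
    by_contra hcon
    push Not at hcon
    set w : ℝ := κ * min |c| (1 / Real.log N) with hw
    have hw0 : 0 < w := by positivity
    set j : ℕ := ⌈K / (|c| * Real.log N)⌉₊ with hj
    have hj1 : K / (|c| * Real.log N) ≤ j := Nat.le_ceil _
    have hj2 : (j : ℝ) < J := by
      have k1 := Nat.ceil_lt_add_one (show 0 ≤ K / (|c| * Real.log N) by positivity)
      rw [← hj] at k1
      have k2 : K / (|c| * Real.log N) ≤ K / η := by
        apply div_le_div_of_nonneg_left hK.le hη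
        rw [div_lt_iff₀ hlog] at hcη
        exact hcη.le
      linarith
    have hjJ : j ≤ J := by
      have : j < J := by exact_mod_cast hj2
      omega
    have hjc : K / Real.log N ≤ |(j : ℝ) * c| := by
      rw [abs_mul, abs_of_nonneg (Nat.cast_nonneg j)]
      rw [div_le_iff₀ (by positivity)] at hj1
      rw [div_le_iff₀ hlog]
      linarith
    have k1 := h1 (j * c) hjc (σ^[j]) (iter_maps hσ j) (iter_inj hσ hσi j)
    set Bad := (Finset.Icc 1 N).filter (fun n => w ≤ |ord (σ n) - (ord n + c)|) with hBad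
    have k2 := iter_card hσ hσi Bad j
    have k3 : (Finset.Icc 1 N).filter
        (fun n => κ1 / Real.log N ≤ |ord (σ^[j] n) - (ord n + j * c)|) ⊆
        (Finset.Icc 1 N).filter (fun n => ∃ i ∈ Finset.range j, σ^[i] n ∈ Bad) := by
      intro n hn
      rw [Finset.mem_filter] at hn ⊢
      refine ⟨hn.1, ?_⟩
      by_contra hno
      push Not at hno
      have k4 := iter_dist (J := j) hσ hn.1 (fun i hi => hno i (Finset.mem_range.2 hi)) j le_rfl
      have k5 : (j : ℝ) * w < κ1 / Real.log N := by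
        have a1 : w ≤ κ * (1 / Real.log N) := mul_le_mul_of_nonneg_left hm2 hκ0.le
        have a2 : (j : ℝ) * w ≤ J * (κ * (1 / Real.log N)) :=
          mul_le_mul hj2.le a1 hw0.le hJ0.le
        have a3 : (J : ℝ) * (κ * (1 / Real.log N)) = κ * (2 * J) / Real.log N / 2 := by ring
        have a4 : κ * (2 * J) / Real.log N ≤ κ1 / Real.log N :=
          div_le_div_of_nonneg_right hκc hlog.le
        have a5 : 0 < κ1 / Real.log N := by positivity
        linarith
      linarith [hn.2]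
    have k4 := (Finset.card_le_card k3).trans k2
    have k5 : (((Finset.Icc 1 N).filter
        (fun n => κ1 / Real.log N ≤ |ord (σ^[j] n) - (ord n + j * c)|)).card : ℝ) ≤
        j * (Bad.card : ℝ) := by exact_mod_cast k4
    have k6 : (j : ℝ) * (Bad.card : ℝ) ≤ J * (κ * N) :=
      mul_le_mul hj2.le hcon.le (Nat.cast_nonneg _) hJ0.le
    have k7 : κ * (2 * J) * N ≤ κ1 * N := mul_le_mul_of_nonneg_right hκc (by linarith)
    have k8 : 0 < κ1 * N := by positivity
    linarith

/-- from the sequence to the set of the ordinates -/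
theorem sets_u {κ : ℝ} (hκ : 0 < κ)
    (h : ∀ᶠ N : ℕ in atTop, ∀ c : ℝ, c ≠ 0 → ∀ σ : ℕ → ℕ,
      (∀ n ∈ Finset.Icc 1 N, σ n ∈ Finset.Icc 1 N) → Set.InjOn σ (Finset.Icc 1 N) →
      κ * N ≤ (((Finset.Icc 1 N).filter
        (fun n => κ * min |c| (1 / Real.log N) ≤ |ord (σ n) - (ord n + c)|)).card : ℝ)) :
    ∀ᶠ T : ℝ in atTop, ∀ c : ℝ, c ≠ 0 →
      ({x : ℝ | x ∈ Om ∧ x ≤ T ∧ x + c ∈ Om ∧ x + c ≤ T}.ncard : ℝ) ≤ (1 - κ) * NZ T := by
  classical
  have hNZ : Tendsto NZ atTop atTop := by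
    rw [tendsto_atTop]
    intro b
    filter_upwards [eventually_ge_atTop (ord (b + 1))] with T hT
    have := (SG.ord_le_iff (show 1 ≤ b + 1 by omega) T).1 hT
    omega
  filter_upwards [hNZ.eventually (h.and (eventually_ge_atTop 3))] with T hT c hc0
  obtain ⟨hN, hN3⟩ := hT
  set N := NZ T with hNdef
  choose! ι hι1 hι2 using fun (x : ℝ) (hx : x ∈ Om) => exists_ord hx
  set A : Set ℝ := {x : ℝ | x ∈ Om ∧ x ≤ T ∧ x + c ∈ Om ∧ x + c ≤ T} with hA
  have hmem : ∀ x ∈ Om, x ≤ T → ι x ∈ Finset.Icc 1 N := by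
    intro x hx hxT
    rw [Finset.mem_Icc]
    refine ⟨hι1 x hx, ?_⟩
    apply (SG.ord_le_iff (hι1 x hx) T).1
    rw [hι2 x hx]; exact hxT
  have hinj : Set.InjOn ι Om := by
    intro x hx y hy hxy
    rw [← hι2 x hx, ← hι2 y hy, hxy]
  have hAsub : ι '' A ⊆ (Finset.Icc 1 N : Finset ℕ) := by
    rintro _ ⟨x, hx, rfl⟩
    exact hmem x hx.1 hx.2.1
  have hfin : (ι '' A).Finite := (Finset.finite_toSet _).subset hAsub
  have hcard : A.ncard = hfin.toFinset.card := by
    rw [← Set.ncard_image_of_injOn (hinj.mono fun x hx => hx.1), Set.ncard_eq_toFinset_card _ hfin]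
  set S : Finset ℕ := hfin.toFinset with hS
  have hSmem : ∀ n ∈ S, ∃ x ∈ A, ι x = n := by
    intro n hn
    rw [hS, Set.Finite.mem_toFinset] at hn
    exact hn
  have hSord : ∀ n ∈ S, ord n ∈ A ∧ ι (ord n) = n := by
    intro n hn
    obtain ⟨x, hx, rfl⟩ := hSmem n hn
    rw [hι2 x hx.1]
    exact ⟨hx, rfl⟩
  have hSsub : S ⊆ Finset.Icc 1 N := by
    intro n hn
    obtain ⟨x, hx, rfl⟩ := hSmem n hn
    exact hmem x hx.1 hx.2.1
  -- the extension to a permutation
  set α := {n : ℕ // n ∈ Finset.Icc 1 N}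
  set f : α → ℕ := fun n => ι (ord n + c) with hf
  set s : Finset α := Finset.univ.filter (fun n : α => (n : ℕ) ∈ S) with hs
  have h1 : Finset.image f s ⊆ Finset.Icc 1 N := by
    intro m hm
    rw [Finset.mem_image] at hm
    obtain ⟨n, hn, rfl⟩ := hm
    have hnS : (n : ℕ) ∈ S := (Finset.mem_filter.1 hn).2
    obtain ⟨h2, _⟩ := hSord _ hnS
    exact hmem _ h2.2.2.1 h2.2.2.2
  have h2 : Set.InjOn f s := by
    intro n hn m hm hnm
    have hnS : (n : ℕ) ∈ S := (Finset.mem_filter.1 hn).2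
    have hmS : (m : ℕ) ∈ S := (Finset.mem_filter.1 hm).2
    obtain ⟨k1, k1'⟩ := hSord _ hnS
    obtain ⟨k2, k2'⟩ := hSord _ hmS
    have k3 := hinj k1.2.2.1 k2.2.2.1 hnm
    have k4 : ord n = ord m := by linarith
    apply Subtype.ext
    rw [← k1', ← k2', k4]
  obtain ⟨g, hg⟩ := Finset.exists_equiv_extend_of_card_eq (α := α) (t := Finset.Icc 1 N)
    (by simp [α]) h1 h2
  set σ : ℕ → ℕ := fun n => if hn : n ∈ Finset.Icc 1 N then (g ⟨n, hn⟩ : ℕ) else n with hσ
  have hσ1 : ∀ n ∈ Finset.Icc 1 N, σ n ∈ Finset.Icc 1 N := by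
    intro n hn
    simp only [hσ, dif_pos hn]
    exact (g ⟨n, hn⟩).2
  have hσ2 : Set.InjOn σ (Finset.Icc 1 N) := by
    intro n hn m hm hnm
    have hn' : n ∈ Finset.Icc 1 N := hn
    have hm' : m ∈ Finset.Icc 1 N := hm
    simp only [hσ, dif_pos hn', dif_pos hm'] at hnm
    have := g.injective (Subtype.ext hnm)
    exact congrArg Subtype.val this
  have h3 := hN c hc0 σ hσ1 hσ2
  have hN3' : (3 : ℝ) ≤ N := by exact_mod_cast hN3
  have hlog : 0 < Real.log N := Real.log_pos (by linarith)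
  have hcp : 0 < |c| := abs_pos.2 hc0
  have h4 : (Finset.Icc 1 N).filter
      (fun n => κ * min |c| (1 / Real.log N) ≤ |ord (σ n) - (ord n + c)|) ⊆
      (Finset.Icc 1 N) \ S := by
    intro n hn
    rw [Finset.mem_filter] at hn
    rw [Finset.mem_sdiff]
    refine ⟨hn.1, fun hnS => ?_⟩
    have k1 : σ n = ι (ord n + c) := by
      simp only [hσ, dif_pos hn.1]
      exact hg ⟨n, hn.1⟩ (Finset.mem_filter.2 ⟨Finset.mem_univ _, hnS⟩)
    have k2 := hn.2
    rw [k1, hι2 _ (hSord n hnS).1.2.2.1, sub_self, abs_zero] at k2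
    have : 0 < κ * min |c| (1 / Real.log N) := mul_pos hκ (lt_min hcp (by positivity))
    linarith
  have h5 := Finset.card_le_card h4
  rw [Finset.card_sdiff_of_subset hSsub, Nat.card_Icc, Nat.add_sub_cancel] at h5
  have h6 : S.card ≤ N := by
    have := Finset.card_le_card hSsub
    rwa [Nat.card_Icc, Nat.add_sub_cancel] at this
  have h7 : (((Finset.Icc 1 N).filter
      (fun n => κ * min |c| (1 / Real.log N) ≤ |ord (σ n) - (ord n + c)|)).card : ℝ) ≤
      N - S.card := by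
    rw [← Nat.cast_sub h6]
    exact_mod_cast h5
  rw [hcard]
  linarith

end Pool.Agent.U125.UT
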