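import Pool.Agent.U125.UT.Near

/-!
# Uniform isometries: reflections
-/

set_option autoImplicit false

namespace Pool.Agent.U125.UT

open Complex Filter Topology MeasureTheory Set
open Pool.Agent.TH850.UV
open SG (NZ ord)
open Pool.Agent.Y743.CL (G pr pr_apply Pr mem_Pr rc rc_sq kap_bd VS XK rc_bd mom_bd SS SS_le G_cont
  VS_nonneg comb er er_meas)
open Pool.Agent.Y743.AF

lemma rc_mul_nonneg {l l' : ℝ} (hl : 0 < l) (hl' : 0 < l') (h : ℝ) (n : ℕ) :
    0 ≤ rc l h n * rc l' h n := by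
  have h1 := ggo_nonneg l n
  have h2 := ggo_nonneg l' n
  have e : rc l h n * rc l' h n = ((2 * (1 / Real.sqrt (2 * Real.pi))) *
      (ArithmeticFunction.vonMangoldt n * (Real.sqrt n)⁻¹) *
      (1 / (2 * Real.pi) * (2 * Real.sin (h / 2 * Real.log n) / Real.log n))) ^ 2 *
      ((ggo l n * ggo l' n) * (l * l')) := by
    unfold rc
    ring
  rw [e]
  exact mul_nonneg (sq_nonneg _) (mul_nonneg (mul_nonneg h1 h2) (mul_pos hl hl').le)

lemma dev_pt {l l' : ℝ} (hl' : 1 ≤ l') (hll : l' ≤ l) (h : ℝ) (p : ℕ) (hp : p.Prime)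
    (hpl : Real.log p ≤ l' / 2) :
    0 ≤ Wp h p - rc l h p * rc l' h p ∧
    Wp h p - rc l h p * rc l' h p ≤ 32 * ((1 + Real.log p) / l' + 1 / p) * Wp h p := by
  have hl0 : 0 < l' := by linarith
  have hl1 : 0 < l := by linarith
  have hp1 : (1 : ℝ) ≤ p := by exact_mod_cast hp.one_le
  have hlog : 0 ≤ Real.log p := Real.log_nonneg hp1
  have hW := Wp_nonneg h p
  have u1 : rc l h p ^ 2 ≤ Wp h p := rc_prime_le hl1 h p hp
  have v1 : rc l' h p ^ 2 ≤ Wp h p := rc_prime_le hl0 h p hp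
  have u2 : Wp h p - rc l h p ^ 2 ≤ 32 * ((1 + Real.log p) / l + 1 / p) * Wp h p :=
    rc_dev (by linarith) h p hp (by linarith)
  have v2 : Wp h p - rc l' h p ^ 2 ≤ 32 * ((1 + Real.log p) / l' + 1 / p) * Wp h p :=
    rc_dev hl' h p hp hpl
  have huv := rc_mul_nonneg hl1 hl0 h p
  have k1 : (1 + Real.log p) / l ≤ (1 + Real.log p) / l' :=
    div_le_div_of_nonneg_left (by linarith) hl0 hll
  set δ : ℝ := 32 * ((1 + Real.log p) / l' + 1 / p) with hδ
  have u3 : Wp h p - rc l h p ^ 2 ≤ δ * Wp h p := by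
    refine u2.trans (mul_le_mul_of_nonneg_right ?_ hW)
    rw [hδ]; linarith
  set u := rc l h p
  set v := rc l' h p
  set W := Wp h p
  constructor
  · nlinarith [sq_nonneg (u - v)]
  · rcases le_or_gt 1 δ with h1 | h1
    · nlinarith
    · by_contra hcon
      push Not at hcon
      have h2 : u * v < (1 - δ) * W := by linarith
      have h3 : (u * v) ^ 2 < ((1 - δ) * W) ^ 2 := pow_lt_pow_left₀ h2 huv (by norm_num)
      have h4 : 0 ≤ (1 - δ) * W := mul_nonneg (by linarith) hW
      have h5 : (1 - δ) * W ≤ u ^ 2 := by linarith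
      have h6 : (1 - δ) * W ≤ v ^ 2 := by linarith
      have h7 : (1 - δ) * W * ((1 - δ) * W) ≤ u ^ 2 * v ^ 2 := mul_le_mul h5 h6 h4 (sq_nonneg _)
      nlinarith

lemma dev_sum2 {l l' h : ℝ} (hl' : 1000 ≤ l') (hll : l' ≤ l) (X : ℕ)
    (hX : ∀ p : ℕ, p ∈ Prm X → Real.log p ≤ l' / 1000) :
    ∑ p ∈ Prm X, (Wp h p - rc l h p * rc l' h p) ≤ VS (rc l h) X / 8 + 2000000 * h ^ 2 := by
  have hl0 : 0 < l' := by linarith
  have key : ∀ D : ℕ → ℝ, (∀ p ∈ Prm X, D p ≤ 32 * ((1 + Real.log p) / l' + 1 / p) * Wp h p) →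
      ∑ p ∈ Prm X, D p ≤ 12 / 125 * ∑ p ∈ Prm X, Wp h p + 1568000 * h ^ 2 := by
    intro D hD
    have hpt : ∀ p ∈ Prm X, D p ≤
        12 / 125 * Wp h p + (if p < 1000 then 1568 * h ^ 2 else 0) := by
      intro p hp
      have hpp := (mem_Prm.1 hp).1
      have hlp := hX p hp
      have hlog : 0 ≤ Real.log p := Real.log_nonneg (by exact_mod_cast hpp.one_le)
      have h1 := hD p hp
      have hW := Wp_nonneg h p
      have h2 : (1 + Real.log p) / l' ≤ 2 / 1000 := by
        rw [div_le_div_iff₀ hl0 (by norm_num)]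
        linarith
      have hpos : (0 : ℝ) < p := by exact_mod_cast hpp.pos
      split_ifs with h3
      · have h4 := Wp_small (h := h) p hpp h3
        have h5 : (1 : ℝ) / p ≤ 1 := by
          rw [div_le_one hpos]
          exact_mod_cast hpp.one_le
        have h6 : 32 * ((1 + Real.log p) / l' + 1 / p) * Wp h p ≤ 32 * (2 / 1000 + 1) * Wp h p := by
          apply mul_le_mul_of_nonneg_right _ hW
          linarith
        linarith
      · have h5 : (1 : ℝ) / p ≤ 1 / 1000 := by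
          apply one_div_le_one_div_of_le (by norm_num)
          push Not at h3
          exact_mod_cast h3
        have h6 : 32 * ((1 + Real.log p) / l' + 1 / p) * Wp h p ≤
            32 * (2 / 1000 + 1 / 1000) * Wp h p := by
          apply mul_le_mul_of_nonneg_right _ hW
          linarith
        linarith
    have h1 := Finset.sum_le_sum hpt
    rw [Finset.sum_add_distrib, ← Finset.mul_sum] at h1
    have h2 : ∑ p ∈ Prm X, (if p < 1000 then 1568 * h ^ 2 else (0 : ℝ)) ≤ 1568000 * h ^ 2 := by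
      rw [← Finset.sum_filter]
      have h3 : (Prm X).filter (fun p => p < 1000) ⊆ Finset.range 1000 := by
        intro p hp
        rw [Finset.mem_filter] at hp
        exact Finset.mem_range.2 hp.2
      have h4 := Finset.card_le_card h3
      rw [Finset.card_range] at h4
      rw [Finset.sum_const, nsmul_eq_mul]
      have h5 : (((Prm X).filter (fun p => p < 1000)).card : ℝ) ≤ 1000 := by exact_mod_cast h4
      have h6 := mul_le_mul_of_nonneg_right h5 (show 0 ≤ 1568 * h ^ 2 by positivity)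
      linarith
    linarith
  have a1 := key (fun p => Wp h p - rc l h p * rc l' h p) (fun p hp =>
    (dev_pt (by linarith) hll h p (mem_Prm.1 hp).1 (by
      have := hX p hp
      linarith)).2)
  have a2 := key (fun p => Wp h p - rc l h p ^ 2) (fun p hp => by
    have hpp := (mem_Prm.1 hp).1
    have hlp := hX p hp
    have hlog : 0 ≤ Real.log p := Real.log_nonneg (by exact_mod_cast hpp.one_le)
    have h1 := rc_dev (l := l) (by linarith) h p hpp (by linarith)
    have e : 4 / Real.pi ^ 2 * (Real.sin (h / 2 * Real.log p) ^ 2 / p) = Wp h p := rfl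
    rw [e] at h1
    refine h1.trans (mul_le_mul_of_nonneg_right ?_ (Wp_nonneg h p))
    have k1 : (1 + Real.log p) / l ≤ (1 + Real.log p) / l' :=
      div_le_div_of_nonneg_left (by linarith) hl0 hll
    linarith)
  have h3 : ∑ p ∈ Prm X, (Wp h p - rc l h p ^ 2) = ∑ p ∈ Prm X, Wp h p - VS (rc l h) X := by
    rw [VS_eq', Finset.sum_sub_distrib]
  rw [h3] at a2
  have h4 : 0 ≤ VS (rc l h) X := Pool.Agent.Y743.CL.VS_nonneg _ _
  have h5 := sq_nonneg h
  linarith

lemma cross_r (tw : S_TWU) {ℓ κ : ℝ} (hℓ : 16 ≤ ℓ) (hκ : 0 < κ) (hκℓ : κ * ℓ ≤ 1 / 2000)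
    (a : ℝ) (ha : 0 < a) : ∃ K : ℝ, 0 < K ∧ ∀ᶠ T : ℝ in atTop, ∀ l' : ℝ,
      Real.log T / ℓ ≤ 2 * l' → l' ≤ Real.log T / ℓ → ∀ c : ℝ, K / Real.log T ≤ |c| →
      |c| ≤ T ^ 2 →
    |∑ p ∈ Prm (XK κ T), rc (Real.log T / ℓ) (2 * Real.pi * a / Real.log T) p *
      rc l' (2 * Real.pi * a / Real.log T) p * Real.cos (c * Real.log p)| ≤
    VS (rc (Real.log T / ℓ) (2 * Real.pi * a / Real.log T)) (XK κ T) / 8 + 1 := by
  have hpi := Real.pi_gt_three
  obtain ⟨K, h0, hK, hh0, htw⟩ := tw (2 * Real.pi * a * κ) (2 * (2 * Real.pi * a)) (1 / 4)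
    (by norm_num)
  refine ⟨K * (2 * Real.pi * a), by positivity, ?_⟩
  have hℓ0 : 0 < ℓ := by linarith
  have hth : Tendsto (fun T : ℝ => 2 * Real.pi * a / Real.log T) atTop (𝓝 0) :=
    Real.tendsto_log_atTop.const_div_atTop _
  filter_upwards [Real.tendsto_log_atTop.eventually_ge_atTop (2000 * ℓ),
    hth.eventually (gt_mem_nhds hh0), hth.eventually (gt_mem_nhds (show (0 : ℝ) < 1 / 2000 by norm_num)),
    eventually_ge_atTop (1 : ℝ)] with T hT1 hT2 hT3 hT4 l' hl1' hl2' c hc1 hc2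
  have hT0 : 0 < T := by linarith
  set L := Real.log T with hL
  have hL0 : 0 < L := by nlinarith
  set l := L / ℓ with hl
  have hl1 : 2000 ≤ l := by rw [hl, le_div_iff₀ hℓ0]; exact hT1
  have hl0 : 0 < l := by linarith
  have hl0' : 1000 ≤ l' := by linarith
  set h := 2 * Real.pi * a / L with hh
  have hh1 : 0 < h := by positivity
  have hXlog : ∀ p : ℕ, 1 ≤ p → p ≤ XK κ T → Real.log p ≤ κ * L := by
    intro p hp1 hp
    have h1 : (p : ℝ) ≤ T ^ κ := by
      have h2 : (XK κ T : ℝ) ≤ T ^ κ := Nat.floor_le (by positivity)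
      have h3 : (p : ℝ) ≤ XK κ T := by exact_mod_cast hp
      linarith
    have h2 := Real.log_le_log (by exact_mod_cast hp1) h1
    rwa [Real.log_rpow hT0] at h2
  have hXlog' : ∀ p : ℕ, p ∈ Prm (XK κ T) → Real.log p ≤ l' / 1000 := fun p hp => by
    have hp' := mem_Prm.1 hp
    refine (hXlog p hp'.1.one_le hp'.2).trans ?_
    have : κ * L = (κ * ℓ) * (L / ℓ) := by field_simp
    rw [this]
    have := mul_le_mul_of_nonneg_right hκℓ (show 0 ≤ L / ℓ by positivity)
    linarith
  have hdev := dev_sum2 (h := h) hl0' hl2' (XK κ T) hXlog'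
  have htw1 := htw h hh1 hT2 (XK κ T) (by
    rcases Nat.eq_zero_or_pos (XK κ T) with h1 | h1
    · rw [h1]; simp; positivity
    · have h2 := hXlog _ h1 le_rfl
      calc h * Real.log (XK κ T : ℝ) ≤ h * (κ * L) := mul_le_mul_of_nonneg_left h2 hh1.le
        _ = 2 * Real.pi * a * κ := by rw [hh]; field_simp) c (by
    refine le_trans (le_of_eq ?_) hc1
    rw [hh]; ring) (by
    have : 2 * (2 * Real.pi * a) / h = L + L := by rw [hh]; field_simp; ring
    rw [this, Real.exp_add, hL, Real.exp_log hT0, ← sq]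
    exact hc2)
  have e1 : ∑ p ∈ Prm (XK κ T), rc l h p * rc l' h p * Real.cos (c * Real.log p) =
      ∑ p ∈ Prm (XK κ T), Wp h p * Real.cos (c * Real.log p) -
      ∑ p ∈ Prm (XK κ T), (Wp h p - rc l h p * rc l' h p) * Real.cos (c * Real.log p) := by
    rw [← Finset.sum_sub_distrib]
    refine Finset.sum_congr rfl fun p _ => ?_
    ring
  have h2 : |∑ p ∈ Prm (XK κ T), Wp h p * Real.cos (c * Real.log p)| ≤ 1 / 4 := by
    have e2 : ∑ p ∈ Prm (XK κ T), Wp h p * Real.cos (c * Real.log p) = 4 / Real.pi ^ 2 *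
        ∑ p ∈ Prm (XK κ T), Real.sin (h / 2 * Real.log p) ^ 2 / p * Real.cos (c * Real.log p) := by
      rw [Finset.mul_sum]
      refine Finset.sum_congr rfl fun p _ => ?_
      unfold Wp
      ring
    have h3 : 4 / Real.pi ^ 2 ≤ 1 := by
      rw [div_le_one (by positivity)]; nlinarith
    rw [e2, abs_mul, abs_of_nonneg (show 0 ≤ 4 / Real.pi ^ 2 by positivity)]
    calc 4 / Real.pi ^ 2 * |∑ p ∈ Prm (XK κ T), Real.sin (h / 2 * Real.log p) ^ 2 / p *
          Real.cos (c * Real.log p)| ≤ 1 * (1 / 4) :=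
          mul_le_mul h3 htw1 (abs_nonneg _) (by norm_num)
      _ = 1 / 4 := one_mul _
  have h3 : |∑ p ∈ Prm (XK κ T), (Wp h p - rc l h p * rc l' h p) * Real.cos (c * Real.log p)| ≤
      ∑ p ∈ Prm (XK κ T), (Wp h p - rc l h p * rc l' h p) := by
    refine (Finset.abs_sum_le_sum_abs _ _).trans (Finset.sum_le_sum fun p hp => ?_)
    have h4 : 0 ≤ Wp h p - rc l h p * rc l' h p :=
      (dev_pt (by linarith) hl2' h p (mem_Prm.1 hp).1 (by
        have := hXlog' p hp
        linarith)).1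
    rw [abs_mul, abs_of_nonneg h4]
    exact mul_le_of_le_one_right h4 (Real.abs_cos_le_one _)
  rw [e1]
  have h4 : h ^ 2 ≤ (1 / 2000) ^ 2 := pow_le_pow_left₀ hh1.le hT3.le 2
  have h5 := abs_sub (∑ p ∈ Prm (XK κ T), Wp h p * Real.cos (c * Real.log p))
    (∑ p ∈ Prm (XK κ T), (Wp h p - rc l h p * rc l' h p) * Real.cos (c * Real.log p))
  linarith

lemma NZ_anti_ii (s A B : ℝ) : IntervalIntegrable (fun t => (NZ (s - t) : ℝ)) volume A B := by
  have hm : Antitone fun t : ℝ => (NZ (s - t) : ℝ) := by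
    intro x y hxy
    have h2 := SG.NZ_mono (show s - y ≤ s - x by linarith)
    show (NZ (s - y) : ℝ) ≤ NZ (s - x)
    exact_mod_cast h2
  exact hm.intervalIntegrable

/-- the numbers of ordinates in the windows `(t, t + h]` and `(c - t - h, c - t]` differ in the
mean, for `c` near `2 T` -/
theorem core_r (tw : S_TWU) (cr2 : S_CR2) : ∃ a : ℝ, 1 ≤ a ∧ ∀ᶠ T : ℝ in atTop,
    ∀ c : ℝ, 199 / 100 * T ≤ c → c ≤ 201 / 100 * T →
      T / 4 ≤ ∫ t in (5 / 4 * (83 / 100 * T))..(7 / 4 * (83 / 100 * T)),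
        |((NZ (t + 2 * Real.pi * a / Real.log T) : ℝ) - NZ t) -
          ((NZ (c - t) : ℝ) - NZ (c - t - 2 * Real.pi * a / Real.log T))| := by
  obtain ⟨ℓ, C, T0, hℓ, hC, hT0, hcomb⟩ := comb 1 le_rfl
  have hℓ0 : 0 < ℓ := by linarith
  have hpi := Real.pi_gt_three
  have hpi4 := Real.pi_lt_d2
  have hpi2 : 2 / Real.pi ^ 2 ≤ 1 := by
    rw [div_le_one (by positivity)]; nlinarith
  set κ : ℝ := 1 / (2000 * ℓ) with hκ
  have hκ0 : 0 < κ := by positivity
  have hκ16 : κ ≤ 1 / 16 := by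
    rw [hκ]
    exact one_div_le_one_div_of_le (by norm_num) (by linarith)
  have hκℓ : κ * ℓ ≤ 1 / 2000 := by
    rw [hκ]
    apply le_of_eq
    field_simp
  have hlogκ : 0 ≤ Real.log (1 / κ) := by
    apply Real.log_nonneg
    rw [le_div_iff₀ hκ0]
    linarith
  set D : ℝ := C * (1 + Real.log (1 / κ)) with hD
  have hD0 : 0 < D := by positivity
  set r : ℝ := 30 * (D + 1) + 2 * ℓ with hr
  have hr30 : 30 * (D + 1) ≤ r := by rw [hr]; linarith
  have hr2 : 2 * ℓ ≤ r := by rw [hr]; linarith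
  have hr1 : 4 ≤ r := by linarith
  have hr0 : 0 < r := by linarith
  have hrr : r ≤ r ^ 2 := by nlinarith
  have hrD : 900 * (D + 1) ≤ r ^ 2 := by nlinarith
  set a : ℝ := Real.exp (Real.pi ^ 2 / 2 * (r ^ 2 + D + 1)) with ha
  have hloga : 2 / Real.pi ^ 2 * Real.log a = r ^ 2 + D + 1 := by
    rw [ha, Real.log_exp]
    field_simp
  have haℓ : 2 * ℓ ≤ a := by
    have h1 := Real.add_one_le_exp (Real.pi ^ 2 / 2 * (r ^ 2 + D + 1))
    rw [← ha] at h1
    have h2 : 1 * (r ^ 2 + D + 1) ≤ Real.pi ^ 2 / 2 * (r ^ 2 + D + 1) := by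
      apply mul_le_mul_of_nonneg_right _ (by positivity)
      nlinarith
    linarith
  have ha32 : 32 ≤ a := by linarith
  have ha0 : 0 < a := by linarith
  obtain ⟨K, hK, hone⟩ := cross_r tw hℓ hκ0 hκℓ a ha0
  refine ⟨a, by linarith, ?_⟩
  have hlo : ∀ K : ℝ, ∀ᶠ T : ℝ in atTop, Real.log T + K ≤ T / 200 := by
    intro K
    have h1 : (fun T : ℝ => Real.log T + K) =o[atTop] fun T : ℝ => T :=
      Real.isLittleO_log_id_atTop.add (Asymptotics.isLittleO_const_id_atTop _)
    have h2 := h1.bound (c := 1 / 200) (by norm_num)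
    filter_upwards [h2, eventually_ge_atTop 1] with T hT hT1
    rw [Real.norm_of_nonneg (by linarith : (0 : ℝ) ≤ T)] at hT
    have := (le_abs_self _).trans hT
    linarith
  have hp38 : ∀ᶠ T : ℝ in atTop, 192 * T ^ (3 / 16 : ℝ) ≤ T := by
    filter_upwards [(tendsto_rpow_atTop (show (0 : ℝ) < 13 / 16 by norm_num)).eventually_ge_atTop 192,
      eventually_ge_atTop 1] with T hT hT1
    have h1 : T ^ (13 / 16 : ℝ) * T ^ (3 / 16 : ℝ) = T := by
      rw [← Real.rpow_add (by linarith)]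
      norm_num
    have h2 := mul_le_mul_of_nonneg_right hT (show 0 ≤ T ^ (3 / 16 : ℝ) by positivity)
    linarith
  have hgl : ∀ᶠ T : ℝ in atTop, 48 * (Real.sqrt T * (1 + Real.log T)) ≤ T / 16 := by
    have h1 : (fun T : ℝ => 1 + Real.log T) =o[atTop] fun T : ℝ => T ^ (1 / 2 : ℝ) := by
      refine (Asymptotics.isLittleO_const_left.2 (Or.inr ?_)).add
        (isLittleO_log_rpow_atTop (by norm_num))
      exact tendsto_norm_atTop_atTop.comp (tendsto_rpow_atTop (by norm_num))
    have h2 := h1.bound (c := 1 / 768) (by norm_num)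
    filter_upwards [h2, eventually_ge_atTop 1] with T hT hT1
    rw [Real.norm_of_nonneg (by positivity : (0 : ℝ) ≤ T ^ (1 / 2 : ℝ)), ← Real.sqrt_eq_rpow] at hT
    have h3 := (le_abs_self _).trans hT
    have h4 := Real.mul_self_sqrt (show 0 ≤ T by linarith)
    have h5 := Real.sqrt_nonneg T
    nlinarith
  have hS : Tendsto (fun T : ℝ => 83 / 100 * T) atTop atTop :=
    tendsto_id.const_mul_atTop (by norm_num)
  have hH : Tendsto (fun T : ℝ => T / 2) atTop atTop := tendsto_id.atTop_div_const (by norm_num)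
  filter_upwards [eventually_ge_atTop T0, eventually_ge_atTop (16 : ℝ), hone,
    Real.tendsto_log_atTop.eventually_ge_atTop (a * Real.log a),
    Real.tendsto_log_atTop.eventually_ge_atTop (8 / κ), hlo 16, hp38, hS.eventually hgl,
    hH.eventually_ge_atTop T0, (Real.tendsto_log_atTop.comp hH).eventually_ge_atTop (a * Real.log a),
    Real.tendsto_log_atTop.eventually_ge_atTop (2 * a), Real.tendsto_log_atTop.eventually_ge_atTop K]
    with T hTT0 hT16 hTone hTa hTκ hT7 hT38 hTg hHT0 hHa hLa hLK c hc1 hc2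
  have hT1' : 1 ≤ T := by linarith
  have hTpos : 0 < T := by linarith
  have hL0 : 0 < Real.log T := lt_of_lt_of_le (by positivity) hTκ
  have hκT : 8 ≤ κ * Real.log T := by
    rw [div_le_iff₀ hκ0] at hTκ
    linarith
  set L := Real.log T with hL
  -- the second scale
  set T' : ℝ := T / 2 with hT'
  have hT'0 : 0 < T' := by positivity
  set L' : ℝ := Real.log T' with hL'
  have hL'e : L' = L - Real.log 2 := by
    rw [hL', hT', Real.log_div hTpos.ne' (by norm_num)]
  have hlog2 := Real.log_two_lt_d9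
  have hlog2' := Real.log_two_gt_d9
  have hL64 : 64 ≤ L := by linarith
  have hL'1 : L / 2 ≤ L' := by linarith
  have hL'2 : L' ≤ L := by linarith
  have hL'0 : 0 < L' := by linarith
  set l := L / ℓ with hl
  have hlpos : 0 < l := by positivity
  set l' := L' / ℓ with hl'
  have hl'pos : 0 < l' := by positivity
  have hll1 : l ≤ 2 * l' := by
    rw [hl, hl', ← mul_div_assoc]
    exact div_le_div_of_nonneg_right (by linarith) hℓ0.le
  have hll2 : l' ≤ l := div_le_div_of_nonneg_right hL'2 hℓ0.le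
  have hcpos : 0 ≤ c := by linarith
  have hKc : K / L ≤ |c| := by
    rw [abs_of_nonneg hcpos]
    have h1 : K / L ≤ 1 := (div_le_one hL0).2 hLK
    linarith
  have hcT2 : |c| ≤ T ^ 2 := by
    rw [abs_of_nonneg hcpos]
    calc c ≤ 201 / 100 * T := hc2
      _ ≤ 16 * T := by linarith
      _ ≤ T * T := mul_le_mul_of_nonneg_right hT16 hTpos.le
      _ = T ^ 2 := (sq T).symm
  have hTone' := hTone l' hll1 hll2 c hKc hcT2
  set h := 2 * Real.pi * a / L with hh
  have hh0 : 0 < h := by positivity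
  have hh1 : h ≤ 4 := by
    rw [hh, div_le_iff₀ hL0]
    have h1 : 2 * Real.pi ≤ 8 := by linarith
    have h2 := mul_le_mul_of_nonneg_right h1 ha0.le
    linarith
  set X := XK κ T with hX
  set u := rc l h with hu
  set a' : ℝ := a * L' / L with ha'
  have ha'0 : 0 < a' := by positivity
  have ha'1 : a' ≤ a := by
    rw [ha', div_le_iff₀ hL0]
    exact mul_le_mul_of_nonneg_left hL'2 ha0.le
  have ha'2 : ℓ ≤ a' := by
    rw [ha', le_div_iff₀ hL0]
    calc ℓ * L = 2 * ℓ * (L / 2) := by ring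
      _ ≤ a * L' := mul_le_mul haℓ hL'1 (by positivity) ha0.le
  have ha'3 : a - a' ≤ 1 / 2 := by
    have e : a - a' = a * Real.log 2 / L := by
      rw [ha', hL'e]
      field_simp
      ring
    rw [e, div_le_iff₀ hL0]
    have h1 : a * Real.log 2 ≤ a * 1 := mul_le_mul_of_nonneg_left (by linarith) ha0.le
    linarith
  have eh : 2 * Real.pi * a' / L' = h := by
    rw [ha', hh]
    field_simp
  set κ' : ℝ := κ * L / L' with hκ'
  have hκ'0 : 0 < κ' := by positivity
  have hκ'1 : κ ≤ κ' := by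
    rw [hκ', le_div_iff₀ hL'0]
    exact mul_le_mul_of_nonneg_left hL'2 hκ0.le
  have hκ'8 : κ' ≤ 1 / 8 := by
    rw [hκ', div_le_iff₀ hL'0]
    have h1 := mul_le_mul_of_nonneg_right hκ16 hL0.le
    linarith
  have hκ'L : κ' * L' = κ * L := by
    rw [hκ']; field_simp
  have hXX : XK κ' T' = X := by
    rw [hX]
    unfold XK
    congr 1
    rw [Real.rpow_def_of_pos hT'0, Real.rpow_def_of_pos hTpos]
    congr 1
    rw [mul_comm, ← hL', hκ'L, ← hL]
    ring
  set v := rc l' h with hv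
  -- the facts of `comb`
  obtain ⟨i1, m1, w1⟩ := hcomb T hTT0 a (by linarith) (by linarith) κ hκ0 (by linarith) hκT
  have hloga' : Real.log a' ≤ Real.log a := Real.log_le_log ha'0 ha'1
  have hloga'0 : 0 ≤ Real.log a' := Real.log_nonneg (by linarith)
  obtain ⟨i2, m2, w2⟩ := hcomb T' hHT0 a' ha'2 (by
    rw [one_mul]
    refine le_trans ?_ hHa
    exact mul_le_mul ha'1 hloga' hloga'0 ha0.le) κ' hκ'0 hκ'8 (by rw [← hL', hκ'L]; exact hκT)
  rw [← hD] at m1 w1
  have hD' : C * (1 + Real.log (1 / κ')) ≤ D := by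
    rw [hD]
    apply mul_le_mul_of_nonneg_left _ hC.le
    have : Real.log (1 / κ') ≤ Real.log (1 / κ) :=
      Real.log_le_log (by positivity) (one_div_le_one_div_of_le hκ0 hκ'1)
    linarith
  rw [← hL, ← hl, ← hh, ← hu, ← hX, hloga] at w1
  rw [← hL] at i1 m1
  rw [← hL', ← hl', eh, ← hv, hXX] at w2
  rw [← hL'] at i2 m2
  have w1' := abs_le.1 w1
  have w2' := abs_le.1 (w2.trans hD')
  have m2' : ∫ t in (T' + L')..(2 * T' - L' - 7), er ℓ κ' T' a' t ^ 2 ≤ D * T' :=
    m2.trans (mul_le_mul_of_nonneg_right hD' hT'0.le)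
  have hla1 : 2 / Real.pi ^ 2 * Real.log a' ≤ r ^ 2 + D + 1 := by
    rw [← hloga]
    exact mul_le_mul_of_nonneg_left hloga' (by positivity)
  have hla2 : r ^ 2 + D ≤ 2 / Real.pi ^ 2 * Real.log a' := by
    have h1 : Real.log a - 1 ≤ Real.log a' := by
      rw [ha', mul_div_assoc, Real.log_mul ha0.ne' (by positivity)]
      have h2 : Real.log (1 / 2) ≤ Real.log (L' / L) := by
        apply Real.log_le_log (by norm_num)
        rw [div_le_div_iff₀ (by norm_num) hL0]
        linarith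
      rw [one_div, Real.log_inv] at h2
      linarith
    have h3 : 0 ≤ 2 / Real.pi ^ 2 := by positivity
    have h4 := mul_le_mul_of_nonneg_left h1 h3
    rw [mul_sub, hloga] at h4
    linarith
  -- the length
  have hXle : (X : ℝ) ≤ T ^ (1 / 16 : ℝ) := by
    have h2 : (X : ℝ) ≤ T ^ κ := Nat.floor_le (by positivity)
    exact h2.trans (Real.rpow_le_rpow_of_exponent_le hT1' hκ16)
  have hX1 : 1 ≤ X := by
    apply Nat.le_floor
    rw [Nat.cast_one]
    exact Real.one_le_rpow hT1' hκ0.le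
  set S : ℝ := 83 / 100 * T with hSdef
  have hX3 : 12 * (X : ℝ) ^ 3 ≤ S / 8 := by
    have h2 : (X : ℝ) ^ 3 ≤ (T ^ (1 / 16 : ℝ)) ^ 3 := pow_le_pow_left₀ (by positivity) hXle 3
    have h3 : (T ^ (1 / 16 : ℝ)) ^ 3 = T ^ (3 / 16 : ℝ) := by
      rw [← Real.rpow_natCast, ← Real.rpow_mul hTpos.le]
      norm_num
    rw [h3] at h2
    linarith
  have hX4 : ((X ^ 4 : ℕ) : ℝ) ≤ Real.sqrt S := by
    push_cast
    have h2 : (X : ℝ) ^ 4 ≤ (T ^ (1 / 16 : ℝ)) ^ 4 := pow_le_pow_left₀ (by positivity) hXle 4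
    have h3 : (T ^ (1 / 16 : ℝ)) ^ 4 = Real.sqrt (Real.sqrt T) := by
      rw [← Real.rpow_natCast, ← Real.rpow_mul hTpos.le, Real.sqrt_eq_rpow, Real.sqrt_eq_rpow,
        ← Real.rpow_mul hTpos.le]
      norm_num
    rw [h3] at h2
    refine h2.trans (Real.sqrt_le_sqrt ?_)
    have h4 : Real.sqrt T * Real.sqrt T = T := Real.mul_self_sqrt hTpos.le
    have h5 : 4 ≤ Real.sqrt T := by
      rw [show (4 : ℝ) = Real.sqrt (4 ^ 2) by rw [Real.sqrt_sq (by norm_num)]]
      exact Real.sqrt_le_sqrt (by linarith)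
    have h6 : 4 * Real.sqrt T ≤ Real.sqrt T * Real.sqrt T :=
      mul_le_mul_of_nonneg_right h5 (Real.sqrt_nonneg T)
    rw [h4] at h6
    linarith
  have hub : ∀ n, |u n| ≤ 1 := fun n => by
    have := rc_bd hlpos h n
    exact abs_le_of_sq_le_sq (by rw [one_pow]; exact this) (by norm_num)
  have hvb : ∀ n, |v n| ≤ 1 := fun n => by
    have := rc_bd hl'pos h n
    exact abs_le_of_sq_le_sq (by rw [one_pow]; exact this) (by norm_num)
  have hSpos : 0 < S := by positivity
  -- the correlation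
  have hcr : |∫ t in (5 / 4 * S)..(7 / 4 * S), PP u X (t + h / 2) * PP v X ((t + (h / 2 - c)) / 1)| ≤
      S / 4 * (VS u X / 8 + 1) + S / 16 := by
    have hV0 := VS_nonneg u X
    have h2 := cr2 X u v hub hvb (5 / 4 * S) (7 / 4 * S) (h / 2) (h / 2 - c) (by linarith)
    have h3 : (∫ t in (5 / 4 * S)..(7 / 4 * S), (∑ p ∈ Prm X, u p * Real.cos ((t + h / 2) *
        Real.log p)) * (∑ q ∈ Prm X, v q * Real.cos ((t + (h / 2 - c)) * Real.log q))) =
        ∫ t in (5 / 4 * S)..(7 / 4 * S), PP u X (t + h / 2) * PP v X ((t + (h / 2 - c)) / 1) := by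
      refine intervalIntegral.integral_congr fun t _ => ?_
      simp only [PP, div_one]
    rw [h3, show h / 2 - (h / 2 - c) = c by ring] at h2
    have h5 := abs_le.1 h2
    have h6 := abs_le.1 hTone'
    have h7 : (7 / 4 * S - 5 / 4 * S) / 2 * ∑ p ∈ Prm X, u p * v p * Real.cos (c * Real.log p) ≤
        S / 4 * (VS u X / 8 + 1) := by
      have : (7 / 4 * S - 5 / 4 * S) / 2 = S / 4 := by ring
      rw [this]
      exact mul_le_mul_of_nonneg_left h6.2 (by positivity)
    have h8 : -(S / 4 * (VS u X / 8 + 1)) ≤ (7 / 4 * S - 5 / 4 * S) / 2 *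
        ∑ p ∈ Prm X, u p * v p * Real.cos (c * Real.log p) := by
      have : (7 / 4 * S - 5 / 4 * S) / 2 = S / 4 := by ring
      rw [this, ← mul_neg]
      exact mul_le_mul_of_nonneg_left h6.1 (by positivity)
    rw [abs_le]
    constructor <;> linarith [h5.1, h5.2]
  have hdet := det cr2 (V1 := r ^ 2 + 2 * D + 2) (T := S) (by linarith) hX1 hX3 hX4 hTg hub hvb hr1
    (by linarith) (by linarith [w1'.1]) (by linarith [w1'.2]) (by linarith [w2'.1])
    (by linarith [w2'.2]) (by norm_num) (by norm_num) hcr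
  -- the errors
  have hPu := PP_cont u X
  have hPv := PP_cont v X
  have N1i : ∀ A B : ℝ, IntervalIntegrable (fun t => ((NZ (t + h) : ℝ) - NZ t)) volume A B := by
    intro A B
    have h1 := NZ_ii h 0 1 A B one_pos
    have h2 := NZ_ii 0 0 1 A B one_pos
    simp only [sub_zero, div_one, add_zero] at h1 h2
    exact h1.sub h2
  have N2i : IntervalIntegrable (fun t => ((NZ (c - t) : ℝ) - NZ (c - t - h)))
      volume (5 / 4 * S) (7 / 4 * S) := by
    have h1 := NZ_anti_ii c (5 / 4 * S) (7 / 4 * S)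
    have h2 := NZ_anti_ii (c - h) (5 / 4 * S) (7 / 4 * S)
    have e : (fun t => (NZ (c - t - h) : ℝ)) = fun t => (NZ (c - h - t) : ℝ) := by
      funext t
      rw [show c - t - h = c - h - t by ring]
    exact h1.sub (by rw [e]; exact h2)
  have eN1 : ∀ t, er ℓ κ T a t = ((NZ (t + h) : ℝ) - NZ t) - a + PP u X (t + h / 2) := by
    intro t
    have := er_eq ℓ κ T a t
    rw [← hL, ← hl, ← hh, ← hu, ← hX] at this
    linarith
  have eN2 : ∀ s, er ℓ κ' T' a' s = ((NZ (s + h) : ℝ) - NZ s) - a' + PP v X (s + h / 2) := by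
    intro s
    have := er_eq ℓ κ' T' a' s
    rw [← hL', ← hl', eh, ← hv, hXX] at this
    linarith
  have E1i : ∀ A B : ℝ, IntervalIntegrable (fun t => |er ℓ κ T a t|) volume A B := by
    intro A B
    have : (fun t => |er ℓ κ T a t|) = fun t => |((NZ (t + h) : ℝ) - NZ t) - a + PP u X (t + h / 2)| := by
      funext t; rw [eN1]
    rw [this]
    exact (((N1i A B).sub (continuous_const.intervalIntegrable _ _)).add
      (Continuous.intervalIntegrable (by fun_prop) _ _)).abs
  have E2i' : ∀ A B : ℝ, IntervalIntegrable (fun t => |er ℓ κ' T' a' t|) volume A B := by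
    intro A B
    have : (fun t => |er ℓ κ' T' a' t|) =
        fun t => |((NZ (t + h) : ℝ) - NZ t) - a' + PP v X (t + h / 2)| := by
      funext t; rw [eN2]
    rw [this]
    exact (((N1i A B).sub (continuous_const.intervalIntegrable _ _)).add
      (Continuous.intervalIntegrable (by fun_prop) _ _)).abs
  have eN2' : ∀ t, er ℓ κ' T' a' (c - h - t) = ((NZ (c - t) : ℝ) - NZ (c - t - h)) - a' +
      PP v X (t + (h / 2 - c)) := by
    intro t
    rw [eN2, show c - h - t + h = c - t by ring, show c - h - t = c - t - h by ring]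
    have : PP v X (c - t - h + h / 2) = PP v X (t + (h / 2 - c)) := by
      unfold PP
      refine Finset.sum_congr rfl fun p _ => ?_
      rw [show c - t - h + h / 2 = -(t + (h / 2 - c)) by ring, neg_mul, Real.cos_neg]
    rw [this]
  have E2i : IntervalIntegrable (fun t => |er ℓ κ' T' a' (c - h - t)|) volume
      (5 / 4 * S) (7 / 4 * S) := by
    have : (fun t => |er ℓ κ' T' a' (c - h - t)|) = fun t =>
        |((NZ (c - t) : ℝ) - NZ (c - t - h)) - a' + PP v X (t + (h / 2 - c))| := by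
      funext t; rw [eN2']
    rw [this]
    exact ((N2i.sub (continuous_const.intervalIntegrable _ _)).add
      (Continuous.intervalIntegrable (by fun_prop) _ _)).abs
  have B1 : ∫ t in (5 / 4 * S)..(7 / 4 * S), |er ℓ κ T a t| ≤ (D * T + S / 2) / 2 := by
    have := abs_int_le (A0 := T + L) (B0 := 2 * T - L - 7) (A := 5 / 4 * S) (B := 7 / 4 * S)
      (by linarith) (by linarith) (by linarith) i1 (E1i _ _) m1
    linarith
  have B2 : ∫ t in (5 / 4 * S)..(7 / 4 * S), |er ℓ κ' T' a' (c - h - t)| ≤ (D * T' + S / 2) / 2 := by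
    rw [intervalIntegral.integral_comp_sub_left (fun s => |er ℓ κ' T' a' s|) (c - h)]
    have := abs_int_le (A0 := T' + L') (B0 := 2 * T' - L' - 7) (A := c - h - 7 / 4 * S)
      (B := c - h - 5 / 4 * S)
      (by linarith) (by linarith) (by linarith) i2 (E2i' _ _) m2'
    linarith
  -- the conclusion
  simp only [div_one] at hdet
  have hfin : ∫ t in (5 / 4 * S)..(7 / 4 * S), (|PP u X (t + h / 2) - PP v X (t + (h / 2 - c))| -
      |er ℓ κ T a t| - |er ℓ κ' T' a' (c - h - t)| - 1 / 2) ≤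
      ∫ t in (5 / 4 * S)..(7 / 4 * S), |((NZ (t + h) : ℝ) - NZ t) -
          ((NZ (c - t) : ℝ) - NZ (c - t - h))| := by
    refine intervalIntegral.integral_mono_on (by linarith) ?_ (((N1i _ _).sub N2i).abs) fun t _ => ?_
    · exact (((Continuous.intervalIntegrable (by fun_prop) _ _).sub (E1i _ _)).sub E2i).sub
        (continuous_const.intervalIntegrable _ _)
    · have h1 := eN1 t
      have h2 := eN2' t
      have h3 : PP u X (t + h / 2) - PP v X (t + (h / 2 - c)) =
          er ℓ κ T a t - er ℓ κ' T' a' (c - h - t) + (a - a') -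
          (((NZ (t + h) : ℝ) - NZ t) - ((NZ (c - t) : ℝ) - NZ (c - t - h))) := by linarith
      have h4 := abs_sub (er ℓ κ T a t - er ℓ κ' T' a' (c - h - t) + (a - a'))
        (((NZ (t + h) : ℝ) - NZ t) - ((NZ (c - t) : ℝ) - NZ (c - t - h)))
      have h5 := abs_add_le (er ℓ κ T a t - er ℓ κ' T' a' (c - h - t)) (a - a')
      have h6 := abs_sub (er ℓ κ T a t) (er ℓ κ' T' a' (c - h - t))
      have h7 : |a - a'| ≤ 1 / 2 := by
        rw [abs_of_nonneg (by linarith)]; exact ha'3
      rw [← h3] at h4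
      linarith
  rw [intervalIntegral.integral_sub (((Continuous.intervalIntegrable (by fun_prop) _ _).sub
      (E1i _ _)).sub E2i) (continuous_const.intervalIntegrable _ _),
    intervalIntegral.integral_sub ((Continuous.intervalIntegrable (by fun_prop) _ _).sub (E1i _ _)) E2i,
    intervalIntegral.integral_sub (Continuous.intervalIntegrable (by fun_prop) _ _) (E1i _ _),
    intervalIntegral.integral_const, smul_eq_mul] at hfin
  refine le_trans ?_ hfin
  have h1 : S / 2 * (3 * (D + 1)) ≤ S / 2 * (r / 10) :=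
    mul_le_mul_of_nonneg_left (by linarith) (by positivity)
  have h2 : 0 ≤ D * T := by positivity
  have e1 : S / 2 * (3 * (D + 1)) = 249 / 200 * (D * T) + 249 / 200 * T := by rw [hSdef]; ring
  have e2 : D * T' = D * T / 2 := by rw [hT']; ring
  rw [e1] at h1
  rw [e2] at B2
  linarith

end Pool.Agent.U125.UT
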