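import Pool.Agent.U125.UT.Hat

/-!
# Uniform translates: twisted prime sums with smooth weights, uniformly in the twist
-/

set_option autoImplicit false

namespace Pool.Agent.U125.UT

open Complex MeasureTheory Set
open Pool.Agent.W66 (hat hat_nonneg hat_le_one hat_zero_of hat_continuous hat_partition PT PS La)
open Pool.Agent.Y726.TW (f f_le f_lip)
open Pool.Agent.Y743.AF (Prm)

lemma hat_sum_le (k0 k1 : ℕ) (v : ℝ) : ∑ k ∈ Finset.Icc k0 k1, hat (k - v) ≤ 1 := by
  rcases lt_or_ge k1 k0 with h | h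
  · rw [Finset.Icc_eq_empty_of_lt h, Finset.sum_empty]; norm_num
  rw [hat_partition k0 k1 h]
  have h1 : max ((k1 : ℝ) + 1 - v) 0 ≤ max ((k1 : ℝ) - v) 0 + 1 := by
    apply max_le
    · have := le_max_left ((k1 : ℝ) - v) 0
      linarith
    · have := le_max_right ((k1 : ℝ) - v) 0
      linarith
  have h2 : max ((k0 : ℝ) - 1 - v) 0 ≤ max ((k0 : ℝ) - v) 0 := max_le_max (by linarith) le_rfl
  linarith

lemma hat_sum_one {k0 k1 : ℕ} {v : ℝ} (h0 : (k0 : ℝ) ≤ v) (h1 : v ≤ k1) :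
    ∑ k ∈ Finset.Icc k0 k1, hat (k - v) = 1 := by
  have h : k0 ≤ k1 := by exact_mod_cast h0.trans h1
  rw [hat_partition k0 k1 h, max_eq_left (by linarith), max_eq_left (by linarith),
    max_eq_right (by linarith), max_eq_right (by linarith)]
  ring

/-- the interpolation of `f h` at the integers -/
noncomputable def G (h : ℝ) (k0 k1 : ℕ) (v : ℝ) : ℝ := ∑ k ∈ Finset.Icc k0 k1, f h k * hat (k - v)

lemma G_bd {h : ℝ} (hh : 0 < h) {k0 k1 : ℕ} (hk0 : 1 ≤ k0) (v : ℝ) :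
    0 ≤ G h k0 k1 v ∧ G h k0 k1 v ≤ h / 2 := by
  have hf : ∀ k ∈ Finset.Icc k0 k1, 0 ≤ f h (k : ℝ) ∧ f h (k : ℝ) ≤ h / 2 := by
    intro k hk
    have hk1 : 1 ≤ k := hk0.trans (Finset.mem_Icc.1 hk).1
    exact f_le hh (by exact_mod_cast hk1)
  constructor
  · exact Finset.sum_nonneg fun k hk => mul_nonneg (hf k hk).1 (hat_nonneg _)
  · calc G h k0 k1 v ≤ ∑ k ∈ Finset.Icc k0 k1, h / 2 * hat (k - v) :=
          Finset.sum_le_sum fun k hk => mul_le_mul_of_nonneg_right (hf k hk).2 (hat_nonneg _)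
      _ = h / 2 * ∑ k ∈ Finset.Icc k0 k1, hat (k - v) := by rw [Finset.mul_sum]
      _ ≤ h / 2 * 1 := mul_le_mul_of_nonneg_left (hat_sum_le _ _ _) (by positivity)
      _ = h / 2 := mul_one _

lemma G_lip {h : ℝ} (hh : 0 < h) {k0 k1 : ℕ} (hk0 : 1 ≤ k0) {v : ℝ} (h0 : (k0 : ℝ) ≤ v)
    (h1 : v ≤ k1) : |f h v - G h k0 k1 v| ≤ h ^ 2 := by
  have hk0R : (1 : ℝ) ≤ k0 := by exact_mod_cast hk0
  have hv : 0 < v := by linarith
  have e : f h v - G h k0 k1 v = ∑ k ∈ Finset.Icc k0 k1, (f h v - f h k) * hat (k - v) := by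
    unfold G
    have e1 : ∑ k ∈ Finset.Icc k0 k1, (f h v - f h (k : ℝ)) * hat ((k : ℝ) - v) =
        ∑ k ∈ Finset.Icc k0 k1, (f h v * hat ((k : ℝ) - v) - f h (k : ℝ) * hat ((k : ℝ) - v)) :=
      Finset.sum_congr rfl fun k _ => sub_mul _ _ _
    rw [e1, Finset.sum_sub_distrib, ← Finset.mul_sum, hat_sum_one h0 h1, mul_one]
  rw [e]
  calc |∑ k ∈ Finset.Icc k0 k1, (f h v - f h k) * hat (k - v)|
      ≤ ∑ k ∈ Finset.Icc k0 k1, |(f h v - f h k) * hat (k - v)| := Finset.abs_sum_le_sum_abs _ _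
    _ ≤ ∑ k ∈ Finset.Icc k0 k1, h ^ 2 * hat (k - v) := by
        refine Finset.sum_le_sum fun k hk => ?_
        have hk1 : (1 : ℝ) ≤ k := by exact_mod_cast hk0.trans (Finset.mem_Icc.1 hk).1
        rw [abs_mul, abs_of_nonneg (hat_nonneg _)]
        rcases lt_or_ge |(k : ℝ) - v| 1 with hc | hc
        · apply mul_le_mul_of_nonneg_right _ (hat_nonneg _)
          rcases le_total v k with h2 | h2
          · have h3 := f_lip hh hv h2
            rw [abs_sub_comm] at h3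
            rw [abs_of_nonneg (by linarith)] at hc
            refine h3.trans ?_
            nlinarith [sq_nonneg h]
          · have h3 := f_lip hh (show (0 : ℝ) < k by linarith) h2
            rw [abs_of_nonpos (by linarith)] at hc
            refine h3.trans ?_
            nlinarith [sq_nonneg h]
        · rw [hat_zero_of hc, mul_zero, mul_zero]
    _ = h ^ 2 * ∑ k ∈ Finset.Icc k0 k1, hat (k - v) := by rw [Finset.mul_sum]
    _ = h ^ 2 := by rw [hat_sum_one h0 h1, mul_one]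

lemma term_re (c : ℝ) {n : ℕ} (hn : 1 ≤ n) (x : ℝ) :
    (LSeries.term La ⟨1, c⟩ n * ((x : ℝ) : ℂ)).re =
      ArithmeticFunction.vonMangoldt n / n * Real.cos (c * Real.log n) * x := by
  have hn0 : n ≠ 0 := by omega
  have hnR : (0 : ℝ) < n := by exact_mod_cast hn
  have hnC : (n : ℂ) ≠ 0 := by exact_mod_cast hn0
  rw [LSeries.term_of_ne_zero hn0]
  have e1 : (n : ℂ) ^ (⟨1, c⟩ : ℂ) = (n : ℂ) * cexp (((c * Real.log n : ℝ) : ℂ) * I) := by
    rw [Complex.cpow_def_of_ne_zero hnC, ← Complex.natCast_log]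
    have e2 : (⟨1, c⟩ : ℂ) = 1 + (c : ℂ) * I := by
      apply Complex.ext <;> simp
    rw [e2, mul_add, mul_one, Complex.exp_add, ← Complex.ofReal_exp, Real.exp_log hnR]
    congr 2
    push_cast
    ring
  have e3 : La n / (n : ℂ) ^ (⟨1, c⟩ : ℂ) * (x : ℂ) =
      ((ArithmeticFunction.vonMangoldt n / n * x : ℝ) : ℂ) *
        cexp (((-(c * Real.log n) : ℝ) : ℂ) * I) := by
    rw [e1]
    have e4 : cexp (((-(c * Real.log n) : ℝ) : ℂ) * I) =
        (cexp (((c * Real.log n : ℝ) : ℂ) * I))⁻¹ := by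
      rw [← Complex.exp_neg]
      congr 1
      push_cast
      ring
    rw [e4]
    unfold La
    push_cast
    have := Complex.exp_ne_zero (((c * Real.log n : ℝ) : ℂ) * I)
    field_simp
  rw [e3, Complex.re_ofReal_mul, Complex.exp_ofReal_mul_I_re, Real.cos_neg]
  ring

lemma PS_re (c : ℝ) {k N : ℕ} (hN : ∀ n : ℕ, N < n → (k : ℝ) + 1 ≤ Real.log n) :
    (PS k c).re = ∑ n ∈ Finset.Icc 1 N, ArithmeticFunction.vonMangoldt n / n *
      Real.cos (c * Real.log n) * hat (k - Real.log n) := by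
  unfold PS
  rw [tsum_eq_sum (s := Finset.Icc 1 N), Complex.re_sum]
  · refine Finset.sum_congr rfl fun n hn => ?_
    rw [term_re c (Finset.mem_Icc.1 hn).1]
  · intro n hn
    rw [Finset.mem_Icc, not_and_or, not_le, not_le] at hn
    rcases hn with h | h
    · have : n = 0 := by omega
      rw [this, LSeries.term_zero, zero_mul]
    · have h1 := hN n h
      rw [hat_zero_of (by rw [abs_of_nonpos (by linarith)]; linarith), Complex.ofReal_zero, mul_zero]

lemma PS_sum (h c : ℝ) {k0 k1 N : ℕ} (hN : ∀ n : ℕ, N < n → (k1 : ℝ) + 1 ≤ Real.log n) :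
    (∑ k ∈ Finset.Icc k0 k1, ((f h k : ℝ) : ℂ) * PS k c).re =
      ∑ n ∈ Finset.Icc 1 N, ArithmeticFunction.vonMangoldt n / n *
        Real.cos (c * Real.log n) * G h k0 k1 (Real.log n) := by
  rw [Complex.re_sum]
  have h1 : ∀ k ∈ Finset.Icc k0 k1, (((f h k : ℝ) : ℂ) * PS k c).re =
      ∑ n ∈ Finset.Icc 1 N, f h k * (ArithmeticFunction.vonMangoldt n / n *
      Real.cos (c * Real.log n) * hat (k - Real.log n)) := by
    intro k hk
    rw [Complex.re_ofReal_mul, PS_re c (N := N), Finset.mul_sum]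
    intro n hn
    have h2 := hN n hn
    have h3 : (k : ℝ) ≤ k1 := by exact_mod_cast (Finset.mem_Icc.1 hk).2
    linarith
  rw [Finset.sum_congr rfl h1, Finset.sum_comm]
  refine Finset.sum_congr rfl fun n _ => ?_
  unfold G
  rw [Finset.mul_sum]
  refine Finset.sum_congr rfl fun k _ => ?_
  ring

/-- the prime part of von Mangoldt's function, divided by `n` -/
noncomputable def PL (n : ℕ) : ℝ := if n.Prime then Real.log n / n else 0

lemma PL_nonneg (n : ℕ) : 0 ≤ PL n := by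
  unfold PL
  split_ifs with h
  · have : (1 : ℝ) ≤ n := by exact_mod_cast h.one_le
    exact div_nonneg (Real.log_nonneg this) (by linarith)
  · exact le_rfl

lemma PL_le (n : ℕ) : PL n ≤ ArithmeticFunction.vonMangoldt n / n := by
  unfold PL
  split_ifs with h
  · rw [ArithmeticFunction.vonMangoldt_apply_prime h]
  · exact div_nonneg ArithmeticFunction.vonMangoldt_nonneg (Nat.cast_nonneg _)

lemma PL_sum (N : ℕ) : ∑ n ∈ Finset.Icc 1 N, PL n =
    ∑ p ∈ (Finset.Icc 1 N).filter Nat.Prime, Real.log p / p := by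
  rw [Finset.sum_filter]
  rfl

/-- the pointwise comparison -/
lemma point {h : ℝ} (hh : 0 < h) {k0 k1 X : ℕ} (hk0 : 1 ≤ k0) (hX : 1 ≤ X)
    (hk1 : (k1 : ℝ) ≤ Real.log X) {n : ℕ} (hn : 1 ≤ n) :
    |(if n ≤ X then PL n * f h (Real.log n) else 0) -
      ArithmeticFunction.vonMangoldt n / n * G h k0 k1 (Real.log n)| ≤
      h / 2 * (ArithmeticFunction.vonMangoldt n / n - PL n) +
      h / 2 * (if n ≤ ⌊Real.exp k0⌋₊ then PL n else 0) + h ^ 2 * (if n ≤ X then PL n else 0) +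
      h / 2 * (if ⌊Real.exp k1⌋₊ < n then PL n else 0) := by
  have hnR : (1 : ℝ) ≤ n := by exact_mod_cast hn
  have hXR : (1 : ℝ) ≤ X := by exact_mod_cast hX
  have hP := PL_nonneg n
  have hG := G_bd hh (k1 := k1) hk0 (Real.log n)
  have hΛ : 0 ≤ ArithmeticFunction.vonMangoldt n / (n : ℝ) :=
    div_nonneg ArithmeticFunction.vonMangoldt_nonneg (Nat.cast_nonneg _)
  have t1 : 0 ≤ h / 2 * (ArithmeticFunction.vonMangoldt n / n - PL n) :=
    mul_nonneg (by positivity) (by linarith [PL_le n])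
  have t2 : 0 ≤ h / 2 * (if n ≤ ⌊Real.exp k0⌋₊ then PL n else 0) := by split_ifs <;> positivity
  have t3 : 0 ≤ h ^ 2 * (if n ≤ X then PL n else 0) := by split_ifs <;> positivity
  have t4 : 0 ≤ h / 2 * (if ⌊Real.exp k1⌋₊ < n then PL n else 0) := by split_ifs <;> positivity
  by_cases hp : n.Prime
  · have eP : PL n = Real.log n / n := by unfold PL; rw [if_pos hp]
    have eΛ : ArithmeticFunction.vonMangoldt n / (n : ℝ) = PL n := by
      rw [eP, ArithmeticFunction.vonMangoldt_apply_prime hp]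
    have hlog : 0 < Real.log n := Real.log_pos (by exact_mod_cast hp.one_lt)
    have hf := f_le hh hlog
    rw [eΛ]
    have crude : |(if n ≤ X then PL n * f h (Real.log n) else 0) - PL n * G h k0 k1 (Real.log n)| ≤
        h / 2 * PL n := by
      split_ifs with h1
      · rw [← mul_sub, abs_mul, abs_of_nonneg hP, mul_comm]
        apply mul_le_mul_of_nonneg_right _ hP
        rw [abs_le]
        constructor <;> linarith [hG.1, hG.2, hf.1, hf.2]
      · rw [zero_sub, abs_neg, abs_mul, abs_of_nonneg hP, abs_of_nonneg hG.1, mul_comm]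
        exact mul_le_mul_of_nonneg_right hG.2 hP
    rw [eΛ] at t1
    rcases le_or_gt (Real.log n) k0 with c1 | c1
    · have h2 : n ≤ ⌊Real.exp k0⌋₊ := by
        apply Nat.le_floor
        rw [← Real.exp_log (show (0 : ℝ) < n by linarith)]
        exact Real.exp_le_exp.2 c1
      rw [if_pos h2] at t2 ⊢
      linarith
    · rcases le_or_gt (Real.log n) k1 with c2 | c2
      · have h3 : n ≤ X := by
          have : Real.log n ≤ Real.log X := c2.trans hk1
          have := (Real.log_le_log_iff (by linarith) (by linarith)).1 this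
          exact_mod_cast this
        have h4 := G_lip hh hk0 c1.le c2
        rw [if_pos h3] at t3 ⊢
        rw [if_pos h3]
        have h5 : |PL n * f h (Real.log n) - PL n * G h k0 k1 (Real.log n)| ≤ h ^ 2 * PL n := by
          rw [← mul_sub, abs_mul, abs_of_nonneg hP, mul_comm]
          exact mul_le_mul_of_nonneg_right h4 hP
        linarith
      · have h2 : ⌊Real.exp k1⌋₊ < n := by
          rw [Nat.floor_lt (Real.exp_pos _).le, ← Real.exp_log (show (0 : ℝ) < n by linarith)]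
          exact Real.exp_lt_exp.2 c2
        rw [if_pos h2] at t4 ⊢
        linarith
  · have eP : PL n = 0 := by unfold PL; rw [if_neg hp]
    rw [eP] at t1 t2 t3 t4 ⊢
    have h1 : |(if n ≤ X then (0 : ℝ) * f h (Real.log n) else 0) -
        ArithmeticFunction.vonMangoldt n / n * G h k0 k1 (Real.log n)| ≤
        h / 2 * (ArithmeticFunction.vonMangoldt n / n - 0) := by
      have h0 : (if n ≤ X then (0 : ℝ) * f h (Real.log n) else 0) = 0 := by split_ifs <;> simp
      rw [h0, zero_sub, abs_neg, abs_mul, abs_of_nonneg hΛ, abs_of_nonneg hG.1, sub_zero, mul_comm]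
      exact mul_le_mul_of_nonneg_right hG.2 hΛ
    linarith

lemma sum_cut (g : ℕ → ℝ) (hg : ∀ n, 0 ≤ g n) (N M : ℕ) :
    ∑ n ∈ Finset.Icc 1 N, (if n ≤ M then g n else 0) ≤ ∑ n ∈ Finset.Icc 1 M, g n := by
  rw [← Finset.sum_filter]
  apply Finset.sum_le_sum_of_subset_of_nonneg
  · intro n hn
    rw [Finset.mem_filter, Finset.mem_Icc] at hn
    rw [Finset.mem_Icc]
    exact ⟨hn.1.1, hn.2⟩
  · intro n _ _
    exact hg n

lemma sum_cut' (g : ℕ → ℝ) {N M : ℕ} (hM : M ≤ N) :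
    ∑ n ∈ Finset.Icc 1 N, (if M < n then g n else 0) =
      ∑ n ∈ Finset.Icc 1 N, g n - ∑ n ∈ Finset.Icc 1 M, g n := by
  have h1 : ∑ n ∈ Finset.Icc 1 M, g n = ∑ n ∈ Finset.Icc 1 N, (if n ≤ M then g n else 0) := by
    rw [← Finset.sum_filter]
    apply Finset.sum_congr _ fun _ _ => rfl
    ext n
    rw [Finset.mem_filter, Finset.mem_Icc, Finset.mem_Icc]
    constructor
    · rintro ⟨a, b⟩; exact ⟨⟨a, b.trans hM⟩, b⟩
    · rintro ⟨⟨a, _⟩, b⟩; exact ⟨a, b⟩
  rw [h1, ← Finset.sum_sub_distrib]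
  refine Finset.sum_congr rfl fun n _ => ?_
  by_cases h : M < n
  · rw [if_pos h, if_neg (by omega)]; ring
  · rw [if_neg h, if_pos (by omega)]; ring

/-- the prime sum compared with the sum over the hat functions -/
theorem main_cmp {h C : ℝ} (c : ℝ) (hh : 0 < h)
    (hC : ∀ N : ℕ, 1 ≤ N →
      |∑ p ∈ (Finset.Icc 1 N).filter Nat.Prime, Real.log p / p - Real.log N| ≤ C)
    (hup : ∀ N : ℕ, 1 ≤ N →
      ∑ n ∈ Finset.Icc 1 N, ArithmeticFunction.vonMangoldt n / (n : ℝ) ≤ Real.log N + 6)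
    {k0 k1 X N : ℕ} (hk0 : 1 ≤ k0) (hX : 1 ≤ X) (hk1 : (k1 : ℝ) ≤ Real.log X)
    (hXN : X ≤ N) (hN1 : Real.exp (k1 + 1) ≤ N) (hN2 : (N : ℝ) ≤ Real.exp (k1 + 2)) :
    |∑ p ∈ Prm X, Real.sin (h / 2 * Real.log p) ^ 2 / p * Real.cos (c * Real.log p) -
      (∑ k ∈ Finset.Icc k0 k1, ((f h k : ℝ) : ℂ) * PS k c).re| ≤
      h / 2 * (9 + k0 + 2 * C) + h ^ 2 * (Real.log X + C) := by
  have hN : 1 ≤ N := hX.trans hXN
  have hNR : (1 : ℝ) ≤ N := by exact_mod_cast hN
  rw [PS_sum (N := N) h c (by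
    intro n hn
    have h1 : Real.exp (k1 + 1) ≤ n := hN1.trans (by exact_mod_cast hn.le)
    rw [Real.le_log_iff_exp_le (lt_of_lt_of_le (Real.exp_pos _) h1)]
    exact h1)]
  have e1 : ∑ p ∈ Prm X, Real.sin (h / 2 * Real.log p) ^ 2 / p * Real.cos (c * Real.log p) =
      ∑ n ∈ Finset.Icc 1 N, (if n ≤ X then PL n * f h (Real.log n) else 0) *
        Real.cos (c * Real.log n) := by
    have h1 : Prm X = ((Finset.Icc 1 N).filter (fun n => n ≤ X)).filter Nat.Prime := by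
      unfold Prm
      ext n
      simp only [Finset.mem_filter, Finset.mem_Icc]
      constructor
      · rintro ⟨⟨a, b⟩, c⟩; exact ⟨⟨⟨a, b.trans hXN⟩, b⟩, c⟩
      · rintro ⟨⟨⟨a, _⟩, b⟩, c⟩; exact ⟨⟨a, b⟩, c⟩
    rw [h1, Finset.sum_filter, Finset.sum_filter]
    refine Finset.sum_congr rfl fun n hn => ?_
    by_cases h2 : n ≤ X
    · rw [if_pos h2, if_pos h2]
      by_cases h3 : n.Prime
      · rw [if_pos h3]
        have h4 : 0 < Real.log n := Real.log_pos (by exact_mod_cast h3.one_lt)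
        unfold PL f
        rw [if_pos h3]
        field_simp
      · rw [if_neg h3]
        unfold PL
        rw [if_neg h3]
        ring
    · rw [if_neg h2, if_neg h2, zero_mul]
  rw [e1, ← Finset.sum_sub_distrib]
  have b1 : |∑ n ∈ Finset.Icc 1 N, ((if n ≤ X then PL n * f h (Real.log n) else 0) *
        Real.cos (c * Real.log n) - ArithmeticFunction.vonMangoldt n / n *
        Real.cos (c * Real.log n) * G h k0 k1 (Real.log n))| ≤
      ∑ n ∈ Finset.Icc 1 N, (h / 2 * (ArithmeticFunction.vonMangoldt n / n - PL n) +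
      h / 2 * (if n ≤ ⌊Real.exp k0⌋₊ then PL n else 0) + h ^ 2 * (if n ≤ X then PL n else 0) +
      h / 2 * (if ⌊Real.exp k1⌋₊ < n then PL n else 0)) := by
    refine (Finset.abs_sum_le_sum_abs _ _).trans (Finset.sum_le_sum fun n hn => ?_)
    have h1 := point hh hk0 hX hk1 (Finset.mem_Icc.1 hn).1
    refine le_trans ?_ h1
    have e2 : (if n ≤ X then PL n * f h (Real.log n) else 0) *
        Real.cos (c * Real.log n) - ArithmeticFunction.vonMangoldt n / n *
        Real.cos (c * Real.log n) * G h k0 k1 (Real.log n) =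
        ((if n ≤ X then PL n * f h (Real.log n) else 0) - ArithmeticFunction.vonMangoldt n / n *
        G h k0 k1 (Real.log n)) * Real.cos (c * Real.log n) := by ring
    rw [e2, abs_mul]
    exact mul_le_of_le_one_right (abs_nonneg _) (Real.abs_cos_le_one _)
  refine b1.trans ?_
  rw [Finset.sum_add_distrib, Finset.sum_add_distrib, Finset.sum_add_distrib, ← Finset.mul_sum,
    ← Finset.mul_sum, ← Finset.mul_sum, ← Finset.mul_sum, Finset.sum_sub_distrib]
  -- the floors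
  set n0 := ⌊Real.exp k0⌋₊ with hn0
  set n1 := ⌊Real.exp k1⌋₊ with hn1
  have hk0R : (1 : ℝ) ≤ k0 := by exact_mod_cast hk0
  have n0_le : (n0 : ℝ) ≤ Real.exp k0 := Nat.floor_le (Real.exp_pos _).le
  have n1_le : (n1 : ℝ) ≤ Real.exp k1 := Nat.floor_le (Real.exp_pos _).le
  have n0_1 : 1 ≤ n0 := by
    apply Nat.le_floor
    rw [Nat.cast_one]
    exact Real.one_le_exp (by linarith)
  have n1_1 : 1 ≤ n1 := by
    apply Nat.le_floor
    rw [Nat.cast_one]
    exact Real.one_le_exp (Nat.cast_nonneg _)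
  have n0R : (1 : ℝ) ≤ n0 := by exact_mod_cast n0_1
  have n1R : (1 : ℝ) ≤ n1 := by exact_mod_cast n1_1
  have n1N : n1 ≤ N := by
    have h1 : (n1 : ℝ) ≤ N := by
      refine n1_le.trans (le_trans ?_ hN1)
      exact Real.exp_le_exp.2 (by linarith)
    exact_mod_cast h1
  have log_n0 : Real.log n0 ≤ k0 := by
    rw [Real.log_le_iff_le_exp (by linarith)]
    exact n0_le
  have log_n1 : (k1 : ℝ) - 1 ≤ Real.log n1 := by
    rw [Real.le_log_iff_exp_le (by linarith)]
    have h1 := Nat.lt_floor_add_one (Real.exp (k1 : ℝ))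
    rw [← hn1] at h1
    have h2 : Real.exp ((k1 : ℝ) - 1) * Real.exp 1 = Real.exp k1 := by
      rw [← Real.exp_add]; congr 1; ring
    have h3 := Real.exp_one_gt_d9
    have h4 := Real.exp_pos ((k1 : ℝ) - 1)
    nlinarith
  have log_N : Real.log N ≤ k1 + 2 := by
    rw [Real.log_le_iff_le_exp (by linarith)]
    exact hN2
  have m0 := abs_le.1 (hC n0 n0_1)
  have m1 := abs_le.1 (hC n1 n1_1)
  have mX := abs_le.1 (hC X hX)
  have mN := abs_le.1 (hC N hN)
  rw [← PL_sum] at m0 m1 mX mN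
  have s1 := hup N hN
  have s2 := sum_cut PL PL_nonneg N n0
  have s3 := sum_cut PL PL_nonneg N X
  have s4 := sum_cut' PL n1N
  rw [s4]
  have r2 : h ^ 2 * ∑ n ∈ Finset.Icc 1 N, (if n ≤ X then PL n else 0) ≤
      h ^ 2 * (Real.log X + C) := mul_le_mul_of_nonneg_left (by linarith [mX.2]) (by positivity)
  have r1 : h / 2 * (∑ n ∈ Finset.Icc 1 N, ArithmeticFunction.vonMangoldt n / (n : ℝ) -
      ∑ n ∈ Finset.Icc 1 N, PL n) + h / 2 * ∑ n ∈ Finset.Icc 1 N, (if n ≤ n0 then PL n else 0) +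
      h / 2 * (∑ n ∈ Finset.Icc 1 N, PL n - ∑ n ∈ Finset.Icc 1 n1, PL n) ≤
      h / 2 * (9 + k0 + 2 * C) := by
    rw [← mul_add, ← mul_add]
    apply mul_le_mul_of_nonneg_left _ (by positivity)
    linarith [m0.2, m1.1]
  linarith

/-- twisted prime sums with smooth weights, uniformly in the twist -/
theorem twu
    (hPV : ∀ A K : ℕ, ∃ C : ℝ, ∀ u ξ : ℝ, 1 ≤ u → |ξ| ≤ Real.exp (A * u) →
      ‖PS u (2 * Real.pi * ξ) - PT u (2 * Real.pi * ξ)‖ ≤ C / u ^ K)
    (hC : ∃ C : ℝ, ∀ N : ℕ, 1 ≤ N →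
      |∑ p ∈ (Finset.Icc 1 N).filter Nat.Prime, Real.log p / p - Real.log N| ≤ C)
    (hup : ∀ N : ℕ, 1 ≤ N →
      ∑ n ∈ Finset.Icc 1 N, ArithmeticFunction.vonMangoldt n / (n : ℝ) ≤ Real.log N + 6) :
    ∀ M B ε : ℝ, 0 < ε → ∃ K h0 : ℝ, 0 < K ∧ 0 < h0 ∧ ∀ h : ℝ, 0 < h → h < h0 →
      ∀ X : ℕ, h * Real.log X ≤ M → ∀ c : ℝ, K * h ≤ |c| → |c| ≤ Real.exp (B / h) →
      |∑ p ∈ Prm X, Real.sin (h / 2 * Real.log p) ^ 2 / p * Real.cos (c * Real.log p)| ≤ ε := by
  intro M B ε hε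
  obtain ⟨C, hC⟩ := hC
  have hC0 : 0 ≤ C := (abs_nonneg _).trans (hC 1 le_rfl)
  set δ : ℝ := ε / 2 with hδ
  have hδ0 : 0 < δ := by positivity
  obtain ⟨CV, hCV⟩ := hPV ⌈|B| / δ⌉₊ 1
  have hpi := Real.pi_gt_three
  have hM := abs_nonneg M
  set D : ℝ := (10 + 2 * C) / 2 + (|M| + C) + |M| * |CV| / (2 * δ) with hD
  have hD0 : 0 < D := by positivity
  refine ⟨4 * (1 + |M|) / ε, min 1 (ε / (4 * D)), by positivity, lt_min one_pos (by positivity),
    fun h hh hh0 X hXM c hc1 hc2 => ?_⟩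
  have hh1 : h < 1 := lt_of_lt_of_le hh0 (min_le_left _ _)
  have hhD : h * D ≤ ε / 4 := by
    have h1 : h < ε / (4 * D) := lt_of_lt_of_le hh0 (min_le_right _ _)
    rw [lt_div_iff₀ (by positivity)] at h1
    linarith
  rcases Nat.eq_zero_or_pos X with hX0 | hX
  · have : Prm X = ∅ := by
      rw [hX0]; unfold Prm; simp
    rw [this, Finset.sum_empty, abs_zero]
    exact hε.le
  have hXR : (1 : ℝ) ≤ X := by exact_mod_cast hX
  have hlogX : 0 ≤ Real.log X := Real.log_nonneg hXR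
  have hcpos : 0 < |c| := lt_of_lt_of_le (by positivity) hc1
  have hc : c ≠ 0 := abs_pos.1 hcpos
  set k0 : ℕ := ⌈δ / h⌉₊ with hk0
  set k1 : ℕ := ⌊Real.log X⌋₊ with hk1
  set N : ℕ := ⌈Real.exp (k1 + 1)⌉₊ with hN
  have hk0_1 : 1 ≤ k0 := Nat.one_le_iff_ne_zero.2 (Nat.ceil_pos.2 (by positivity)).ne'
  have hk0R : (1 : ℝ) ≤ k0 := by exact_mod_cast hk0_1
  have hk0_ge : δ / h ≤ k0 := Nat.le_ceil _
  have hk0_le : (k0 : ℝ) ≤ δ / h + 1 := (Nat.ceil_lt_add_one (by positivity)).le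
  have hk1_le : (k1 : ℝ) ≤ Real.log X := Nat.floor_le hlogX
  have hN1 : Real.exp (k1 + 1) ≤ N := Nat.le_ceil _
  have hN2 : (N : ℝ) ≤ Real.exp (k1 + 2) := by
    have h1 := (Nat.ceil_lt_add_one (Real.exp_pos ((k1 : ℝ) + 1)).le).le
    rw [← hN] at h1
    have h2 : Real.exp ((k1 : ℝ) + 2) = Real.exp (k1 + 1) * Real.exp 1 := by
      rw [← Real.exp_add]; congr 1; ring
    have h3 := Real.exp_one_gt_d9
    have h4 : 1 ≤ Real.exp ((k1 : ℝ) + 1) := Real.one_le_exp (by positivity)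
    nlinarith
  have hXN : X ≤ N := by
    have h1 : (X : ℝ) ≤ N := by
      refine le_trans ?_ hN1
      rw [← Real.exp_log (show (0 : ℝ) < X by linarith)]
      exact Real.exp_le_exp.2 (Nat.lt_floor_add_one _).le
    exact_mod_cast h1
  have hcmp := main_cmp c hh hC hup hk0_1 hX hk1_le hXN hN1 hN2
  -- the transforms
  have hPT := sum_PT (b := k1) hh hc hk0_1
  have hdiff : ‖∑ k ∈ Finset.Icc k0 k1, ((f h k : ℝ) : ℂ) * PS k c -
      ∑ k ∈ Finset.Icc k0 k1, ((f h k : ℝ) : ℂ) * PT k c‖ ≤ |M| * |CV| / (2 * δ) * h := by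
    rw [← Finset.sum_sub_distrib]
    refine (norm_sum_le _ _).trans ?_
    have hterm : ∀ k ∈ Finset.Icc k0 k1, ‖((f h k : ℝ) : ℂ) * PS k c - ((f h k : ℝ) : ℂ) * PT k c‖ ≤
        h / 2 * (|CV| * (h / δ)) := by
      intro k hk
      have hkk := (Finset.mem_Icc.1 hk).1
      have hkR : (k0 : ℝ) ≤ k := by exact_mod_cast hkk
      have hk1R : (1 : ℝ) ≤ k := hk0R.trans hkR
      have hf := f_le hh (show (0 : ℝ) < k by linarith)
      have e1 : 2 * Real.pi * (c / (2 * Real.pi)) = c := by field_simp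
      have h1 := hCV k (c / (2 * Real.pi)) hk1R (by
        rw [abs_div, abs_of_pos (show 0 < 2 * Real.pi by positivity)]
        have h2 : |c| / (2 * Real.pi) ≤ |c| := div_le_self (abs_nonneg _) (by linarith)
        refine h2.trans (hc2.trans (Real.exp_le_exp.2 ?_))
        have h3 : |B| / δ ≤ (⌈|B| / δ⌉₊ : ℝ) := Nat.le_ceil _
        calc B / h ≤ |B| / h := div_le_div_of_nonneg_right (le_abs_self _) hh.le
          _ = |B| / δ * (δ / h) := by field_simp
          _ ≤ (⌈|B| / δ⌉₊ : ℝ) * k := by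
              apply mul_le_mul h3 (hk0_ge.trans hkR) (by positivity) (Nat.cast_nonneg _))
      rw [e1, pow_one] at h1
      rw [← mul_sub, norm_mul, Complex.norm_real, Real.norm_of_nonneg hf.1]
      apply mul_le_mul hf.2 _ (norm_nonneg _) (by positivity)
      refine h1.trans ?_
      have h2 : CV / (k : ℝ) ≤ |CV| / k := div_le_div_of_nonneg_right (le_abs_self _) (by linarith)
      refine h2.trans ?_
      have h3 : |CV| / (k : ℝ) ≤ |CV| / (δ / h) :=
        div_le_div_of_nonneg_left (abs_nonneg _) (by positivity) (hk0_ge.trans hkR)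
      refine h3.trans (le_of_eq ?_)
      field_simp
    refine (Finset.sum_le_sum hterm).trans ?_
    rw [Finset.sum_const, nsmul_eq_mul, Nat.card_Icc]
    have h1 : ((k1 + 1 - k0 : ℕ) : ℝ) ≤ |M| / h := by
      have h2 : ((k1 + 1 - k0 : ℕ) : ℝ) ≤ k1 := by
        have : k1 + 1 - k0 ≤ k1 := by omega
        exact_mod_cast this
      refine h2.trans (hk1_le.trans ?_)
      rw [le_div_iff₀ hh]
      linarith [le_abs_self M]
    calc ((k1 + 1 - k0 : ℕ) : ℝ) * (h / 2 * (|CV| * (h / δ))) ≤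
          |M| / h * (h / 2 * (|CV| * (h / δ))) := mul_le_mul_of_nonneg_right h1 (by positivity)
      _ = |M| * |CV| / (2 * δ) * h := by field_simp
  have hPT2 : 1 / |c| * (h + h ^ 2 * k1) ≤ ε / 4 := by
    have h1 : h * k1 ≤ |M| := by
      have := mul_le_mul_of_nonneg_left hk1_le hh.le
      linarith [le_abs_self M]
    have h2 : h + h ^ 2 * k1 ≤ h * (1 + |M|) := by nlinarith
    have h3 : 4 * (1 + |M|) * h ≤ ε * |c| := by
      have := hc1
      rw [div_mul_eq_mul_div, div_le_iff₀ hε] at this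
      linarith
    rw [div_mul_eq_mul_div, one_mul, div_le_iff₀ hcpos]
    linarith
  have hre : |(∑ k ∈ Finset.Icc k0 k1, ((f h k : ℝ) : ℂ) * PS k c).re| ≤
      |M| * |CV| / (2 * δ) * h + ε / 4 := by
    refine (Complex.abs_re_le_norm _).trans ?_
    have e1 : ∑ k ∈ Finset.Icc k0 k1, ((f h k : ℝ) : ℂ) * PS k c =
        (∑ k ∈ Finset.Icc k0 k1, ((f h k : ℝ) : ℂ) * PS k c -
          ∑ k ∈ Finset.Icc k0 k1, ((f h k : ℝ) : ℂ) * PT k c) +
        ∑ k ∈ Finset.Icc k0 k1, ((f h k : ℝ) : ℂ) * PT k c := by ring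
    rw [e1]
    exact (norm_add_le _ _).trans (add_le_add hdiff (hPT.trans hPT2))
  have hlast : h / 2 * (9 + k0 + 2 * C) + h ^ 2 * (Real.log X + C) ≤
      δ / 2 + h * ((10 + 2 * C) / 2 + (|M| + C)) := by
    have h1 : h / 2 * k0 ≤ h / 2 * (δ / h + 1) := mul_le_mul_of_nonneg_left hk0_le (by positivity)
    have h2 : h / 2 * (δ / h + 1) = δ / 2 + h / 2 := by field_simp
    have h3 : h * (h * Real.log X) ≤ h * |M| :=
      mul_le_mul_of_nonneg_left (hXM.trans (le_abs_self _)) hh.le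
    have h4 : h ^ 2 * C ≤ h * C := by
      apply mul_le_mul_of_nonneg_right _ hC0
      nlinarith
    nlinarith
  have htri := abs_sub_abs_le_abs_sub
    (∑ p ∈ Prm X, Real.sin (h / 2 * Real.log p) ^ 2 / p * Real.cos (c * Real.log p))
    (∑ k ∈ Finset.Icc k0 k1, ((f h k : ℝ) : ℂ) * PS k c).re
  have hDh : h * D = h * ((10 + 2 * C) / 2 + (|M| + C)) + |M| * |CV| / (2 * δ) * h := by
    rw [hD]; ring
  have : δ / 2 = ε / 4 := by rw [hδ]; ring
  linarith

end Pool.Agent.U125.UT
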